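import Mathlib

/-!
Representations with self-dual traces modulo the maximal ideal: definition used in the statement of the theorem.
-/

set_option autoImplicit false

namespace Pool.Agent.Work.MP_787500_nt.Parity

open Matrix

/-- The traces of `ρ (g⁻¹)` and `ρ g` are congruent modulo the maximal ideal for all `g`. -/
def ResTrace {G : Type*} [Group G] {E : Type*} [NormedField E] {n : ℕ}
    (ρ : G →* Matrix (Fin n) (Fin n) E) : Prop :=
  ∀ g, ‖(ρ g⁻¹).trace - (ρ g).trace‖ < 1

end Pool.Agent.Work.MP_787500_nt.Parity
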