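import Mathlib
import Pool.Agent.Work.MP_787500_nt.RB.Res
import Pool.Agent.Work.MP_787500_nt.RP.Defs
import Pool.Agent.Work.MP_787500_nt.QP.Ext
import Pool.Agent.Work.MP_787500_nt.GP.LDefs

/-!
# Block RC (definitions, fixed, do not change): representations with residual traces `tr (ρ (κ g)) = tr (ρ g)`

See `RB/Defs.lean` (`TwForm`, `Ss`, `IrrS`, `Eqv`, `HasData`, `Good`, `Red`, `Disc`) and `RP/Defs.lean` (`Grd`). Characteristic 2.
-/

set_option autoImplicit false
set_option linter.unusedSectionVars false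

namespace Pool.Agent.Work.MP_787500_nt.RC

open Matrix Module
open Pool.Agent.Work.MP_787500_nt.RB
open Pool.Agent.Work.MP_787500_nt.RP
open Pool.Agent.Work.MP_787500_nt.GP (A0 OE)

section rep

variable {G : Type*} [Group G] {k : Type*} [Field k] {V : Type*} [AddCommGroup V] [Module k V]

/-- `V = U + N + N'`: `E` is the projection to `U`, `P` the projection to `N`, `1 - E - P` the projection to `N'`, all equivariant; `U` is
orthogonal to `N + N'`; `C` is an involution of `U` with `C (ρ (κ g) x) = ρ g (C x)` and `B x (C x) = 0`; `N` and `N'` are isotropic; `S` is an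
equivariant involution of `N + N'` that exchanges `N` and `N'` and preserves `B`. (`C` is 0 on `N + N'`, `S` is 0 on `U`.) -/
structure InvR (κ : G → G) (ρ : G → V → V) (B : LinearMap.BilinForm k V) (C E P S : V →ₗ[k] V) :
    Prop where
  ee : ∀ x, E (E x) = E x
  er : ∀ g x, E (ρ g x) = ρ g (E x)
  eb : ∀ x y, B (E x) y = B x (E y)
  ce : ∀ x, C (E x) = C x
  ec : ∀ x, E (C x) = C x
  cc : ∀ x, C (C x) = E x
  cr : ∀ g x, C (ρ (κ g) x) = ρ g (C x)
  cb : ∀ x, B x (C x) = 0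
  ss : ∀ x, S (S x) + E x = x
  se : ∀ x, S (E x) = 0
  es : ∀ x, E (S x) = 0
  sr : ∀ g x, S (ρ g x) = ρ g (S x)
  sb : ∀ x y, B (S x) (S y) + B (E x) (E y) = B x y
  pp : ∀ x, P (P x) = P x
  pe : ∀ x, P (E x) = 0
  ep : ∀ x, E (P x) = 0
  pr : ∀ g x, P (ρ g x) = ρ g (P x)
  pb : ∀ x y, B (P x) (P y) = 0
  qb : ∀ x y, B (x - E x - P x) (y - E y - P y) = 0
  sp : ∀ x, S (P x) + P (S x) = S x

/-- THE RESULT OF THE RESIDUAL PART -/
def HasS (κ : G →* G) (ρ : Representation k G V) (B : LinearMap.BilinForm k V) : Prop :=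
  ∃ (ι : Type) (_ : Fintype ι) (e : Basis ι k V) (a : ι → ℤ) (B₁ : LinearMap.BilinForm k V)
    (C E P S : V →ₗ[k] V), Grd ρ B e a B₁ ∧ InvR κ (fun g => ρ g) B₁ C E P S

end rep

section lat

variable {Ω : Type*} [NormedField Ω] {G : Type*} {n : ℕ}

/-- all entries have norm less than 1 -/
def Sm (M : Matrix (Fin n) (Fin n) Ω) : Prop := ∀ i j, ‖M i j‖ < 1

/-- The relations of `InvR` modulo the maximal ideal, for matrices; `F` is the matrix of the form, `R` the representation. -/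
structure InvM (κ : G → G) (R : G → Matrix (Fin n) (Fin n) Ω) (F C E P S : Matrix (Fin n) (Fin n) Ω) :
    Prop where
  iC : Int C
  iE : Int E
  iP : Int P
  iS : Int S
  ee : Sm (E * E - E)
  er : ∀ g, Sm (E * R g - R g * E)
  eb : Sm (Eᵀ * F - F * E)
  ce : Sm (C * E - C)
  ec : Sm (E * C - C)
  cc : Sm (C * C - E)
  cr : ∀ g, Sm (C * R (κ g) - R g * C)
  cb : Sm (F * C + (F * C)ᵀ)
  cd : ∀ i, ‖(F * C) i i‖ < 1
  ss : Sm (S * S + E - 1)
  se : Sm (S * E)
  es : Sm (E * S)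
  sr : ∀ g, Sm (S * R g - R g * S)
  sb : Sm (Sᵀ * F * S + Eᵀ * F * E - F)
  pp : Sm (P * P - P)
  pe : Sm (P * E)
  ep : Sm (E * P)
  pr : ∀ g, Sm (P * R g - R g * P)
  pb : Sm (Pᵀ * F * P)
  qb : Sm ((1 - E - P)ᵀ * F * (1 - E - P))
  sp : Sm (S * P + P * S - S)

/-- a good basis with matrices as in `InvM` -/
structure GoodS (κ : G → G) (ρ : G → Matrix (Fin n) (Fin n) Ω)
    (b A A' C E P S : Matrix (Fin n) (Fin n) Ω) : Prop where
  good : Good ρ b A A'
  inv : InvM κ (fun g => A' * ρ g * A) (Aᵀ * b * A) C E P S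

end lat

section lev

variable {G : Type*} {M U N : Type*} [AddCommGroup M] [AddCommGroup U] [AddCommGroup N]

/-- THE RESULT AT THE LEVEL 1: `M = U × N × N` with the form `bU u u' + h x y' + h x' y`, `h` symmetric. -/
structure SplS (O : Type*) [CommRing O] [Module O M] [Module O U] [Module O N] (act : G → M → M)
    (b : M →+ M →+ A0) (aU : G → U → U) (bU : U →+ U →+ A0) (aN : G → N → N) (h : N →+ N →+ A0)
    (Φ : M ≃ₗ[O] U × N × N) : Prop where
  act : ∀ g m, Φ (act g m) = (aU g (Φ m).1, aN g (Φ m).2.1, aN g (Φ m).2.2)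
  form : ∀ m m', b m m' = bU (Φ m).1 (Φ m').1 + h (Φ m).2.1 (Φ m').2.2 + h (Φ m').2.1 (Φ m).2.2
  symm : ∀ x y, h x y = h y x

end lev

end Pool.Agent.Work.MP_787500_nt.RC
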