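import Mathlib
import Pool.Agent.Work.MP_787500_nt.RC.Defs
import Pool.Agent.Work.MP_787500_nt.RB.Res
import Pool.Agent.Work.MP_787500_nt.RB.Om

/-!
# RC/Down (size S-M): from `Ω` to a finite extension of `E` (model: RP/Down.lean and RB/Down.lean, proved)

Copy RP/Down: `down_field` for the finitely many entries of `A`, `A'`, `C`, `E₀`, `P`, `S`; `j : E' → Ω` is injective and preserves the norm; all the
conditions of `GoodS` are equalities or norm conditions that can be checked after applying `j` (`Matrix.map_mul`, `Matrix.map_add`, `Matrix.transpose_map`).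
-/

set_option autoImplicit false
set_option linter.unusedSectionVars false

namespace Pool.Agent.Work.MP_787500_nt.RC

open Matrix Module
open Pool.Agent.Work.MP_787500_nt.RB
open Pool.Agent.Work.MP_787500_nt.LX (mapRep)

universe v

private theorem down_field {E : Type v} [NormedField E]
    [NormedAlgebra ℚ_[2] E] [FiniteDimensional ℚ_[2] E] {Ω : Type v} [NormedField Ω]
    [NormedAlgebra ℚ_[2] Ω] [Algebra.IsAlgebraic ℚ_[2] Ω] (ι : E →ₐ[ℚ_[2]] Ω) (S : Set Ω)
    (hS : S.Finite) : ∃ (E' : Type v) (_ : NormedField E') (_ : NormedAlgebra ℚ_[2] E')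
      (_ : FiniteDimensional ℚ_[2] E') (ι' : E →ₐ[ℚ_[2]] E') (j : E' →ₐ[ℚ_[2]] Ω),
      (∀ x, ‖j x‖ = ‖x‖) ∧ (∀ x, j (ι' x) = ι x) ∧ ∀ x ∈ S, ∃ y, j y = x := by
  have hfin : Finite S := hS
  have h1 : FiniteDimensional ℚ_[2] (IntermediateField.adjoin ℚ_[2] S) :=
    IntermediateField.finiteDimensional_adjoin fun x _ =>
      (Algebra.IsAlgebraic.isAlgebraic x).isIntegral
  have h2 : FiniteDimensional ℚ_[2] ι.fieldRange :=
    Module.Finite.of_surjective (M := E) (ι.rangeRestrict.toLinearMap : E →ₗ[ℚ_[2]] ι.range)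
      ι.rangeRestrict_surjective
  let F : IntermediateField ℚ_[2] Ω := ι.fieldRange ⊔ IntermediateField.adjoin ℚ_[2] S
  have h3 : FiniteDimensional ℚ_[2] F := IntermediateField.finiteDimensional_sup _ _
  have h4 : ∀ x, ι x ∈ F.toSubalgebra := fun x =>
    (le_sup_left : ι.fieldRange ≤ F) ⟨x, rfl⟩
  refine ⟨F, inferInstance, inferInstance, h3, ι.codRestrict F.toSubalgebra h4, F.val,
    fun x => rfl, fun x => rfl, fun x hx => ?_⟩
  exact ⟨⟨x, (le_sup_right : IntermediateField.adjoin ℚ_[2] S ≤ F)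
    (IntermediateField.subset_adjoin _ _ hx)⟩, rfl⟩

theorem exists_downS {G : Type*} [Group G] {κ : G →* G} {E : Type v} [NormedField E]
    [NormedAlgebra ℚ_[2] E] [FiniteDimensional ℚ_[2] E] {n : ℕ}
    {ρ : G →* Matrix (Fin n) (Fin n) E} {b : Matrix (Fin n) (Fin n) E} {Ω : Type v}
    [NormedField Ω] [NormedAlgebra ℚ_[2] Ω] [Algebra.IsAlgebraic ℚ_[2] Ω] (ι : E →ₐ[ℚ_[2]] Ω)
    {A A' C E₀ P S : Matrix (Fin n) (Fin n) Ω}
    (h : GoodS κ (fun g => (ρ g).map ι) (b.map ι) A A' C E₀ P S) :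
    ∃ (E' : Type v) (_ : NormedField E') (_ : NormedAlgebra ℚ_[2] E')
      (_ : FiniteDimensional ℚ_[2] E') (ι' : E →ₐ[ℚ_[2]] E')
      (A₁ A₁' C₁ E₁ P₁ S₁ : Matrix (Fin n) (Fin n) E'),
      GoodS κ (fun g => mapRep ι' ρ g) (b.map ι') A₁ A₁' C₁ E₁ P₁ S₁ := by
  obtain ⟨E', i1, i2, i3, ι', j, hj, hjι, hS⟩ := down_field ι
    ((Set.range (fun x : Fin n × Fin n => A x.1 x.2) ∪ Set.range (fun x : Fin n × Fin n =>
      A' x.1 x.2)) ∪ ((Set.range (fun x : Fin n × Fin n => C x.1 x.2) ∪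
      Set.range (fun x : Fin n × Fin n => E₀ x.1 x.2)) ∪
      (Set.range (fun x : Fin n × Fin n => P x.1 x.2) ∪
      Set.range (fun x : Fin n × Fin n => S x.1 x.2))))
    (((Set.finite_range _).union (Set.finite_range _)).union
      (((Set.finite_range _).union (Set.finite_range _)).union
        ((Set.finite_range _).union (Set.finite_range _))))
  have hA : ∀ x y, ∃ z, j z = A x y := fun x y => hS _ (Or.inl (Or.inl ⟨(x, y), rfl⟩))
  have hA' : ∀ x y, ∃ z, j z = A' x y := fun x y => hS _ (Or.inl (Or.inr ⟨(x, y), rfl⟩))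
  have hC : ∀ x y, ∃ z, j z = C x y := fun x y => hS _ (Or.inr (Or.inl (Or.inl ⟨(x, y), rfl⟩)))
  have hE : ∀ x y, ∃ z, j z = E₀ x y := fun x y => hS _ (Or.inr (Or.inl (Or.inr ⟨(x, y), rfl⟩)))
  have hP : ∀ x y, ∃ z, j z = P x y := fun x y => hS _ (Or.inr (Or.inr (Or.inl ⟨(x, y), rfl⟩)))
  have hQ : ∀ x y, ∃ z, j z = S x y := fun x y => hS _ (Or.inr (Or.inr (Or.inr ⟨(x, y), rfl⟩)))
  choose A₁ hA₁ using hA
  choose A₁' hA₁' using hA'
  choose C₁ hC₁ using hC
  choose E₁ hE₁ using hE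
  choose P₁ hP₁ using hP
  choose S₁ hS₁ using hQ
  have eA : (Matrix.of A₁).map j = A := by
    ext x y
    exact hA₁ x y
  have eA' : (Matrix.of A₁').map j = A' := by
    ext x y
    exact hA₁' x y
  have eC : (Matrix.of C₁).map j = C := by
    ext x y
    exact hC₁ x y
  have eE : (Matrix.of E₁).map j = E₀ := by
    ext x y
    exact hE₁ x y
  have eP : (Matrix.of P₁).map j = P := by
    ext x y
    exact hP₁ x y
  have eS : (Matrix.of S₁).map j = S := by
    ext x y
    exact hS₁ x y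
  have eb : (b.map ι').map j = b.map ι := by
    ext x y
    exact hjι _
  have er : ∀ g, (mapRep ι' ρ g).map j = (ρ g).map ι := by
    intro g
    ext x y
    exact hjι _
  have hinj : Function.Injective (fun M : Matrix (Fin n) (Fin n) E' => M.map j) :=
    Matrix.map_injective j.injective
  have hmul : ∀ M N : Matrix (Fin n) (Fin n) E', (M * N).map j = M.map j * N.map j :=
    fun M N => Matrix.map_mul
  have hone : (1 : Matrix (Fin n) (Fin n) E').map j = 1 := Matrix.map_one _ (map_zero j) (map_one j)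
  have hsub : ∀ M N : Matrix (Fin n) (Fin n) E', (M - N).map j = M.map j - N.map j := by
    intro M N
    ext x y
    exact map_sub j _ _
  have hadd : ∀ M N : Matrix (Fin n) (Fin n) E', (M + N).map j = M.map j + N.map j := by
    intro M N
    ext x y
    exact map_add j _ _
  have htr : ∀ M : Matrix (Fin n) (Fin n) E', Mᵀ.map j = (M.map j)ᵀ := fun M => rfl
  have hnorm : ∀ (M : Matrix (Fin n) (Fin n) E') (x y : Fin n), ‖M x y‖ = ‖(M.map j) x y‖ :=
    fun M x y => (hj _).symm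
  have hdet : ∀ M : Matrix (Fin n) (Fin n) E', ‖M.det‖ = ‖(M.map j).det‖ := by
    intro M
    rw [← hj]
    exact congrArg _ ((j : E' →+* Ω).map_det M)
  have hF : ((Matrix.of A₁)ᵀ * b.map ι' * Matrix.of A₁).map j = Aᵀ * b.map ι * A := by
    rw [hmul, hmul, htr, eA, eb]
  have hR : ∀ g, (Matrix.of A₁' * mapRep ι' ρ g * Matrix.of A₁).map j =
      A' * (ρ g).map ι * A := by
    intro g
    rw [hmul, hmul, eA, eA', er]
  have sm : ∀ M : Matrix (Fin n) (Fin n) E', Sm (M.map j) → Sm M := by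
    intro M hM x y
    rw [hnorm]
    exact hM x y
  have it : ∀ M : Matrix (Fin n) (Fin n) E', Int (M.map j) → Int M := by
    intro M hM x y
    rw [hnorm]
    exact hM x y
  refine ⟨E', i1, i2, i3, ι', Matrix.of A₁, Matrix.of A₁', Matrix.of C₁, Matrix.of E₁,
    Matrix.of P₁, Matrix.of S₁, ?_⟩
  refine ⟨?_, ?_⟩
  · constructor
    · apply hinj
      show (_ : Matrix (Fin n) (Fin n) E').map j = (1 : Matrix (Fin n) (Fin n) E').map j
      rw [hmul, eA, eA', hone]
      exact h.good.inv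
    · apply hinj
      show (_ : Matrix (Fin n) (Fin n) E').map j = (1 : Matrix (Fin n) (Fin n) E').map j
      rw [hmul, eA, eA', hone]
      exact h.good.inv'
    · intro g x y
      rw [hnorm, hmul, hmul, eA, eA', er]
      exact h.good.st g x y
    · intro x y
      rw [hnorm, hmul, hmul, htr, eA, eb]
      exact h.good.un x y
    · rw [hdet, hmul, hmul, htr, eA, eb]
      exact h.good.det
  · constructor
    · refine it _ ?_
      rw [eC]
      exact h.inv.iC
    · refine it _ ?_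
      rw [eE]
      exact h.inv.iE
    · refine it _ ?_
      rw [eP]
      exact h.inv.iP
    · refine it _ ?_
      rw [eS]
      exact h.inv.iS
    · refine sm _ ?_
      rw [hsub, hmul, eE]
      exact h.inv.ee
    · intro g
      refine sm _ ?_
      rw [hsub, hmul, hmul (Matrix.of A₁' * mapRep ι' ρ g * Matrix.of A₁), hR, eE]
      exact h.inv.er g
    · refine sm _ ?_
      rw [hsub, hmul, hmul ((Matrix.of A₁)ᵀ * b.map ι' * Matrix.of A₁), hF, htr, eE]
      exact h.inv.eb
    · refine sm _ ?_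
      rw [hsub, hmul, eC, eE]
      exact h.inv.ce
    · refine sm _ ?_
      rw [hsub, hmul, eC, eE]
      exact h.inv.ec
    · refine sm _ ?_
      rw [hsub, hmul, eC, eE]
      exact h.inv.cc
    · intro g
      refine sm _ ?_
      rw [hsub, hmul, hmul (Matrix.of A₁' * mapRep ι' ρ g * Matrix.of A₁), hR, hR, eC]
      exact h.inv.cr g
    · refine sm _ ?_
      rw [hadd, htr, hmul ((Matrix.of A₁)ᵀ * b.map ι' * Matrix.of A₁), hF, eC]
      exact h.inv.cb
    · intro i
      rw [hnorm, hmul ((Matrix.of A₁)ᵀ * b.map ι' * Matrix.of A₁), hF, eC]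
      exact h.inv.cd i
    · refine sm _ ?_
      rw [hsub, hadd, hmul, hone, eS, eE]
      exact h.inv.ss
    · refine sm _ ?_
      rw [hmul, eS, eE]
      exact h.inv.se
    · refine sm _ ?_
      rw [hmul, eS, eE]
      exact h.inv.es
    · intro g
      refine sm _ ?_
      rw [hsub, hmul, hmul (Matrix.of A₁' * mapRep ι' ρ g * Matrix.of A₁), hR, eS]
      exact h.inv.sr g
    · refine sm _ ?_
      rw [hsub, hadd, hmul ((Matrix.of S₁)ᵀ * ((Matrix.of A₁)ᵀ * b.map ι' * Matrix.of A₁)), hmul (Matrix.of S₁)ᵀ,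
        hmul ((Matrix.of E₁)ᵀ * ((Matrix.of A₁)ᵀ * b.map ι' * Matrix.of A₁)), hmul (Matrix.of E₁)ᵀ, hF, htr, htr, eS, eE]
      exact h.inv.sb
    · refine sm _ ?_
      rw [hsub, hmul, eP]
      exact h.inv.pp
    · refine sm _ ?_
      rw [hmul, eP, eE]
      exact h.inv.pe
    · refine sm _ ?_
      rw [hmul, eP, eE]
      exact h.inv.ep
    · intro g
      refine sm _ ?_
      rw [hsub, hmul, hmul (Matrix.of A₁' * mapRep ι' ρ g * Matrix.of A₁), hR, eP]
      exact h.inv.pr g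
    · refine sm _ ?_
      rw [hmul ((Matrix.of P₁)ᵀ * ((Matrix.of A₁)ᵀ * b.map ι' * Matrix.of A₁)), hmul (Matrix.of P₁)ᵀ, hF, htr, eP]
      exact h.inv.pb
    · refine sm _ ?_
      rw [hmul ((1 - Matrix.of E₁ - Matrix.of P₁)ᵀ * ((Matrix.of A₁)ᵀ * b.map ι' * Matrix.of A₁)),
        hmul (1 - Matrix.of E₁ - Matrix.of P₁)ᵀ, hF, htr, hsub, hsub, hone, eE, eP]
      exact h.inv.qb
    · refine sm _ ?_
      rw [hsub, hadd, hmul, hmul, eS, eP]
      exact h.inv.sp

end Pool.Agent.Work.MP_787500_nt.RC
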