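import Mathlib
import Pool.Agent.Work.MP_787500_nt.RC.Defs
import Pool.Agent.Work.MP_787500_nt.GP.L03_Ring

/-!
# RC/LatS (size S-M): the lattice of a good basis

`latA A' = {x | ∀ i, ‖(A' *ᵥ x) i‖ ≤ 1}` is the set of the vectors `A z` with integral `z` (`z = A' *ᵥ x`). `lat_of`: `dual`: `bil b (A z) (A w) = z ⬝ᵥ (F *ᵥ w)`,
`F = Aᵀ b A` integral with determinant a unit, so `F⁻¹ = det⁻¹ adjugate` is integral; if `‖z ⬝ᵥ (F *ᵥ w)‖ ≤ 1` for all integral `w`, take `w = F⁻¹ e_i`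
(the same as `selfDual_of` in RP/ToC.lean, proved, there for `A = 1`). `bdd`, `opn`: matrices are bounded. `exists_unif`, `exists_func` (GP/Lat.lean) give `l`, `t`
(used in RC/Main, not here). `st_of`: `A' * ρ g * A` is integral.
-/

set_option autoImplicit false
set_option linter.unusedSectionVars false

namespace Pool.Agent.Work.MP_787500_nt.RC

open Matrix Module
open Pool.Agent.Work.MP_787500_nt.RB
open Pool.Agent.Work.MP_787500_nt.GP

variable {E : Type*} [NormedField E] [NormedAlgebra ℚ_[2] E] {n : ℕ}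

/-- the vectors with integral coordinates in the basis given by the columns of the inverse of `A'` -/
def latA (A' : Matrix (Fin n) (Fin n) E) : Submodule (OE E) (Fin n → E) where
  carrier := {x | ∀ i, ‖(A' *ᵥ x) i‖ ≤ 1}
  add_mem' := fun {x y} hx hy i => by
    have := Gn.ultra 2 E
    rw [mulVec_add]
    exact (IsUltrametricDist.norm_add_le_max _ _).trans (max_le (hx i) (hy i))
  zero_mem' := fun i => by
    rw [mulVec_zero]
    simp
  smul_mem' := fun a x hx i => by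
    show ‖(A' *ᵥ ((a : E) • x)) i‖ ≤ 1
    rw [mulVec_smul, Pi.smul_apply, norm_smul]
    exact mul_le_one₀ a.2 (norm_nonneg _) (hx i)

theorem mem_latA {A' : Matrix (Fin n) (Fin n) E} {x : Fin n → E} :
    x ∈ latA A' ↔ ∀ i, ‖(A' *ᵥ x) i‖ ≤ 1 := Iff.rfl

private theorem norm_prod_le {ι : Type*} (s : Finset ι) (f : ι → E) (h : ∀ i ∈ s, ‖f i‖ ≤ 1) :
    ‖∏ i ∈ s, f i‖ ≤ 1 := by
  classical
  induction s using Finset.induction_on with
  | empty => simp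
  | insert a s ha ih =>
    rw [Finset.prod_insert ha, norm_mul]
    exact mul_le_one₀ (h a (Finset.mem_insert_self a s)) (norm_nonneg _)
      (ih fun i hi => h i (Finset.mem_insert_of_mem hi))

private theorem norm_det_le {M : Matrix (Fin n) (Fin n) E} (hM : ∀ i j, ‖M i j‖ ≤ 1) :
    ‖M.det‖ ≤ 1 := by
  rw [Matrix.det_apply]
  refine RB.norm_sum_le _ _ fun σ _ => ?_
  have h1 : ‖∏ i, M (σ i) i‖ ≤ 1 := norm_prod_le _ _ fun i _ => hM _ _
  rcases Int.units_eq_one_or (Equiv.Perm.sign σ) with h2 | h2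
  · rw [h2, one_smul]
    exact h1
  · rw [h2, Units.neg_smul, one_smul, norm_neg]
    exact h1

private theorem norm_adj_le {M : Matrix (Fin n) (Fin n) E} (hM : ∀ i j, ‖M i j‖ ≤ 1) (i j : Fin n) :
    ‖M.adjugate i j‖ ≤ 1 := by
  rw [Matrix.adjugate_apply]
  refine norm_det_le fun k l => ?_
  rw [Matrix.updateRow_apply]
  split_ifs
  · rw [Pi.single_apply]
    split_ifs <;> simp
  · exact hM k l

private theorem norm_mulVec_le {M : Matrix (Fin n) (Fin n) E} (hM : ∀ i j, ‖M i j‖ ≤ 1)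
    {z : Fin n → E} (hz : ∀ i, ‖z i‖ ≤ 1) (i : Fin n) : ‖(M *ᵥ z) i‖ ≤ 1 := by
  rw [Matrix.mulVec, dotProduct]
  refine RB.norm_sum_le _ _ fun j _ => ?_
  rw [norm_mul]
  exact mul_le_one₀ (hM i j) (norm_nonneg _) (hz j)

theorem lat_of [FiniteDimensional ℚ_[2] E] {X : Type*} {ρ : X → Matrix (Fin n) (Fin n) E}
    {b A A' : Matrix (Fin n) (Fin n) E} (h : Good ρ b A A') (hbs : bᵀ = b) {l : OE E}
    {t : E →ₗ[ℚ_[2]] ℚ_[2]} (hl0 : (l : E) ≠ 0) (hl1 : ‖(l : E)‖ < 1)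
    (hlm : ∀ x : E, ‖x‖ < 1 → ‖x‖ ≤ ‖(l : E)‖) (ht1 : ∀ x : E, ‖x‖ ≤ 1 → ‖t x‖ ≤ 1)
    (ht2 : ∀ x : E, (∀ a : E, ‖a‖ ≤ 1 → ‖t (a * x)‖ ≤ 1) → ‖x‖ ≤ 1)
    (ht3 : ∀ f : E →ₗ[ℚ_[2]] ℚ_[2], ∃ a : E, ∀ x, f x = t (a * x)) : Lat b l t (latA A') := by
  obtain ⟨F, hF⟩ : ∃ F, F = Aᵀ * b * A := ⟨_, rfl⟩
  have hFi : ∀ i j, ‖F i j‖ ≤ 1 := by
    rw [hF]
    exact h.un
  have hdn : ‖F.det‖ = 1 := by
    rw [hF]
    exact h.det
  have hdet : F.det ≠ 0 := by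
    intro h0
    rw [h0, norm_zero] at hdn
    exact zero_ne_one hdn
  have hx : ∀ x : Fin n → E, x = A *ᵥ (A' *ᵥ x) := fun x => by
    rw [mulVec_mulVec, h.inv, one_mulVec]
  have hbil : ∀ x y : Fin n → E, bil b x y = (A' *ᵥ x) ⬝ᵥ (F *ᵥ (A' *ᵥ y)) := by
    intro x y
    conv_lhs => rw [hx x, hx y]
    rw [bil, hF, ← mulVec_mulVec, ← mulVec_mulVec, dotProduct_mulVec (A' *ᵥ x), vecMul_transpose]
  have hle : ∀ (M : Matrix (Fin n) (Fin n) E) (z : Fin n → E) (R : ℝ), (∀ i, ‖z i‖ ≤ R) → ∀ i,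
      ‖(M *ᵥ z) i‖ ≤ (∑ i, ∑ j, ‖M i j‖) * R := by
    intro M z R hz i
    have hR : 0 ≤ R := (norm_nonneg _).trans (hz i)
    rw [Matrix.mulVec, dotProduct]
    refine (_root_.norm_sum_le _ _).trans ?_
    calc ∑ j, ‖M i j * z j‖ ≤ ∑ j, ‖M i j‖ * R := by
          refine Finset.sum_le_sum fun j _ => ?_
          rw [norm_mul]
          exact mul_le_mul_of_nonneg_left (hz j) (norm_nonneg _)
      _ = (∑ j, ‖M i j‖) * R := by rw [Finset.sum_mul]
      _ ≤ (∑ i, ∑ j, ‖M i j‖) * R := by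
          refine mul_le_mul_of_nonneg_right ?_ hR
          exact Finset.single_le_sum (f := fun i => ∑ j, ‖M i j‖)
            (fun i _ => Finset.sum_nonneg fun j _ => norm_nonneg _) (Finset.mem_univ i)
  have hnn : ∀ M : Matrix (Fin n) (Fin n) E, 0 ≤ ∑ i, ∑ j, ‖M i j‖ := fun M =>
    Finset.sum_nonneg fun i _ => Finset.sum_nonneg fun j _ => norm_nonneg _
  refine ⟨hl0, hl1, hlm, ht1, ht2, ht3, hbs, fun x => ⟨fun hx1 y hy => ?_, fun hx1 i => ?_⟩, ?_, ?_⟩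
  · rw [hbil, dotProduct]
    refine RB.norm_sum_le _ _ fun i _ => ?_
    rw [norm_mul]
    exact mul_le_one₀ (hx1 i) (norm_nonneg _) (norm_mulVec_le hFi hy i)
  · have hF' : F * (F.det⁻¹ • F.adjugate) = 1 := by
      rw [Matrix.mul_smul, Matrix.mul_adjugate, smul_smul, inv_mul_cancel₀ hdet, one_smul]
    have hF'i : ∀ i j, ‖(F.det⁻¹ • F.adjugate) i j‖ ≤ 1 := by
      intro i j
      rw [Matrix.smul_apply, norm_smul, norm_inv, hdn, inv_one, one_mul]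
      exact norm_adj_le hFi i j
    have e1 : A' *ᵥ (A *ᵥ ((F.det⁻¹ • F.adjugate) *ᵥ Pi.single i 1)) =
        (F.det⁻¹ • F.adjugate) *ᵥ Pi.single i 1 := by
      rw [mulVec_mulVec _ A' A, h.inv', one_mulVec]
    have h1 := hx1 (A *ᵥ ((F.det⁻¹ • F.adjugate) *ᵥ Pi.single i 1)) (by
      intro k
      rw [e1]
      refine norm_mulVec_le hF'i (fun l => ?_) k
      rw [Pi.single_apply]
      split_ifs <;> simp)
    rw [hbil, e1, mulVec_mulVec _ F, hF', one_mulVec, dotProduct_single, mul_one] at h1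
    exact h1
  · refine ⟨(∑ i, ∑ j, ‖A i j‖) * 1, fun x hx1 => ?_⟩
    rw [pi_norm_le_iff_of_nonneg (mul_nonneg (hnn A) zero_le_one)]
    intro i
    conv_lhs => rw [hx x]
    exact hle A (A' *ᵥ x) 1 hx1 i
  · have hp : 0 < (∑ i, ∑ j, ‖A' i j‖) + 1 := by
      have := hnn A'
      linarith
    refine ⟨((∑ i, ∑ j, ‖A' i j‖) + 1)⁻¹, inv_pos.2 hp, fun x hx1 i => ?_⟩
    refine (hle A' x _ (fun i => (norm_le_pi_norm x i).trans hx1.le) i).trans ?_
    rw [← div_eq_mul_inv, div_le_one hp]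
    linarith

theorem st_of {X : Type*} {ρ : X → Matrix (Fin n) (Fin n) E}
    {b A A' : Matrix (Fin n) (Fin n) E} (h : Good ρ b A A') :
    ∀ g, ∀ x ∈ latA A', ρ g *ᵥ x ∈ latA A' := by
  intro g x hx i
  have e1 : A' *ᵥ (ρ g *ᵥ x) = (A' * ρ g * A) *ᵥ (A' *ᵥ x) := by
    rw [mulVec_mulVec, mulVec_mulVec, Matrix.mul_assoc (A' * ρ g), h.inv, Matrix.mul_one]
  rw [e1]
  exact norm_mulVec_le (h.st g) hx i

end Pool.Agent.Work.MP_787500_nt.RC
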