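import Mathlib
import Pool.Agent.Work.MP_787500_nt.RC.Defs
import Pool.Agent.Work.MP_787500_nt.RC.LatS
import Pool.Agent.Work.MP_787500_nt.GP.L08_MN

/-!
# RC/Lvl (size M-L): the decomposition at the level 1

`L = {x | ∀ i, ‖(A' *ᵥ x) i‖ ≤ 1}` is the lattice of RC/LatS. For a matrix `X` that is integral let `X^ = A * X * A'` (it preserves `L`); it acts on
`M = MN L l 1` by `actN l 1 (fun _ => X^)` (`O`-linear, as in `SH.MatL.exists_C1`, SH/Gen.lean: copy its arguments). The action only depends on the entries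
of `X` modulo the maximal ideal: if `Sm X` then `X^` maps `L` to `l L` (entries of norm `< 1` are of norm `≤ ‖l‖`, `hlat.lmax`), so it is 0 on `M`; sums and
products of matrices act by sums and compositions. So the actions `c, e, p, s` of `C, E₀, P, S` satisfy all relations of `InvM` exactly on `M`:
`e e = e`, `e (act g m) = act g (e m)`, `bN (e m) m' = bN m (e m')` (`bN_val`; `bil b (A x) (A y) = x ⬝ᵥ (F *ᵥ y)`, `F = Aᵀ b A`; the value `pr0 (t (l * bil b x' y'))`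
is 0 if `l * bil b x' y'` has norm `≤ 1`), `bN (a m) (c m) = 0` (`cb`, `cd`: for integral `z`, `z ⬝ᵥ ((F * C) *ᵥ z)` has norm `< 1` (sum over `i = j` and over
pairs `i < j`)), etc.
`U` = the range of `e`, `N` = the range of `p` (submodules of `M` over `O = OE E`), `Φ m = (e m, p m, s (m - e m - p m))`, with inverse
`(u, x, y) ↦ u + x + s y` (`s` maps the range of `q = 1 - e - p` to `N`: `s q = p s`, from `sp`, `es`, `ss`). `actU`, `actN'`: the restrictions of the action (`er`, `pr`);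
`bU` = the restriction of `bN`; `h x y = bN x (s y)` for `x, y ∈ N`. `form`: expand `m = u + x + s y`: `U` is orthogonal to the rest (`eb`), `bN x x' = 0` (`pb`),
`bN (s y) (s y') = 0` (`qb`), `bN x (s y') = h x y'`, `bN (s y) x' = bN x' (s y) = h x' y` (`bN` is symmetric: `hlat.symm`). `symm`: `h y x = bN y (s x) =
bN (s y) (s (s x)) = bN (s y) x = bN x (s y)` by `sb` (`e y = 0`). `InvC κ O actU bU c`: `c` maps `U` to `U` (`ec`).
-/

set_option autoImplicit false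
set_option linter.unusedSectionVars false

namespace Pool.Agent.Work.MP_787500_nt.RC

open Matrix Module
open Pool.Agent.Work.MP_787500_nt.RB
open Pool.Agent.Work.MP_787500_nt.GP

universe v

section lv

variable {E : Type*} [NormedField E] [NormedAlgebra ℚ_[2] E] {n : ℕ}
  {A A' b : Matrix (Fin n) (Fin n) E} {l : OE E} {t : E →ₗ[ℚ_[2]] ℚ_[2]}

/-- `z` are coordinates of `m` -/
private def Rp (A : Matrix (Fin n) (Fin n) E) (m : MN (latA A') l 1) (z : Fin n → E) : Prop :=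
  mq (latA A') (A *ᵥ z) = (m : Wq (latA A'))

private theorem rp_ex (hi : A * A' = 1) (m : MN (latA A') l 1) : ∃ z, Rp A m z :=
  ⟨A' *ᵥ lft (m : Wq (latA A')), by
    unfold Rp
    rw [mulVec_mulVec, hi, one_mulVec, mq_lft]⟩

private theorem rp_norm (hi' : A' * A = 1) {m : MN (latA A') l 1} {z : Fin n → E} (h : Rp A m z)
    (i : Fin n) : ‖(l : E)‖ * ‖z i‖ ≤ 1 := by
  have h3 : l ^ 1 • mq (latA A') (A *ᵥ z) = 0 := by
    rw [h]
    exact m.mem
  rw [pow_one, ← mq_smul, mq_eq_zero, mem_latA] at h3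
  have h2 := h3 i
  rw [mulVec_smul, mulVec_mulVec, hi', one_mulVec, Pi.smul_apply, norm_smul] at h2
  exact h2

private theorem rp_add {m m' : MN (latA A') l 1} {z z' : Fin n → E} (h : Rp A m z)
    (h' : Rp A m' z') : Rp A (m + m') (z + z') := by
  unfold Rp at *
  rw [mulVec_add, mq_add, h, h']
  rfl

private theorem rp_sub {m m' : MN (latA A') l 1} {z z' : Fin n → E} (h : Rp A m z)
    (h' : Rp A m' z') : Rp A (m - m') (z - z') := by
  unfold Rp at *
  rw [mulVec_sub, mq_sub, h, h']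
  rfl

private theorem rp_smul {m : MN (latA A') l 1} {z : Fin n → E} (a : OE E) (h : Rp A m z) :
    Rp A (a • m) ((a : E) • z) := by
  unfold Rp at *
  rw [mulVec_smul, mq_smul, h]
  rfl

private theorem rp_eq (hi' : A' * A = 1) {m m' : MN (latA A') l 1} {z z' : Fin n → E}
    (h : Rp A m z) (h' : Rp A m' z') (e : ∀ i, ‖(z - z') i‖ ≤ 1) : m = m' := by
  refine Subtype.ext ?_
  unfold Rp at h h'
  rw [← h, ← h', mq_eq, mem_latA, ← mulVec_sub, mulVec_mulVec, hi', one_mulVec]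
  exact e

private theorem sm_mulVec (hlm : ∀ x : E, ‖x‖ < 1 → ‖x‖ ≤ ‖(l : E)‖)
    {Z : Matrix (Fin n) (Fin n) E} (hZ : Sm Z) {z : Fin n → E} (hz : ∀ i, ‖(l : E)‖ * ‖z i‖ ≤ 1)
    (i : Fin n) : ‖(Z *ᵥ z) i‖ ≤ 1 := by
  rw [Matrix.mulVec, dotProduct]
  refine RB.norm_sum_le _ _ fun j _ => ?_
  rw [norm_mul]
  exact (mul_le_mul_of_nonneg_right (hlm _ (hZ i j)) (norm_nonneg _)).trans (hz j)

private theorem int_mulVec {Z : Matrix (Fin n) (Fin n) E} (hZ : Int Z) {z : Fin n → E}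
    (hz : ∀ i, ‖z i‖ ≤ 1) (i : Fin n) : ‖(Z *ᵥ z) i‖ ≤ 1 := by
  rw [Matrix.mulVec, dotProduct]
  refine RB.norm_sum_le _ _ fun j _ => ?_
  rw [norm_mul]
  exact mul_le_one₀ (hZ i j) (norm_nonneg _) (hz j)

/-- equality of two elements from a relation modulo the maximal ideal -/
private theorem rp_rel (hi' : A' * A = 1) (hlm : ∀ x : E, ‖x‖ < 1 → ‖x‖ ≤ ‖(l : E)‖)
    {m m' m0 : MN (latA A') l 1} {z z' z0 : Fin n → E} (h0 : Rp A m0 z0)
    {Z : Matrix (Fin n) (Fin n) E} (hZ : Sm Z) (h : Rp A m z) (h' : Rp A m' z')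
    (e : z - z' = Z *ᵥ z0) : m = m' := by
  refine rp_eq hi' h h' fun i => ?_
  rw [e]
  exact sm_mulVec hlm hZ (rp_norm hi' h0) i

/-- the action of an integral matrix -/
private theorem op_ex (hi : A * A' = 1) (hi' : A' * A = 1) {X : Matrix (Fin n) (Fin n) E}
    (hX : Int X) : ∃ c : MN (latA A') l 1 →ₗ[OE E] MN (latA A') l 1,
      ∀ m z, Rp A m z → Rp A (c m) (X *ᵥ z) := by
  have hst : ∀ d : Unit, ∀ x ∈ latA A', (fun _ : Unit => A * X * A') d *ᵥ x ∈ latA A' := by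
    intro _ x hx i
    show ‖(A' *ᵥ ((A * X * A') *ᵥ x)) i‖ ≤ 1
    have e : A' *ᵥ ((A * X * A') *ᵥ x) = X *ᵥ (A' *ᵥ x) := by
      rw [mulVec_mulVec, mulVec_mulVec, ← Matrix.mul_assoc, ← Matrix.mul_assoc, hi',
        Matrix.one_mul]
    rw [e]
    exact int_mulVec hX hx i
  have hf : ∀ m z, Rp A m z →
      Rp A (actN l 1 (fun _ : Unit => A * X * A') hst () m) (X *ᵥ z) := by
    intro m z h
    unfold Rp at *
    rw [coe_actN, ← h, actQ_mq (hst ())]
    congr 1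
    rw [mulVec_mulVec, mulVec_mulVec, Matrix.mul_assoc (A * X), hi', Matrix.mul_one]
  refine ⟨{ toFun := actN l 1 (fun _ : Unit => A * X * A') hst ()
            map_add' := fun x y => ?_
            map_smul' := fun a x => ?_ }, hf⟩
  · obtain ⟨z, hz⟩ := rp_ex hi x
    obtain ⟨z', hz'⟩ := rp_ex hi y
    refine rp_eq hi' (hf _ _ (rp_add hz hz')) (rp_add (hf _ _ hz) (hf _ _ hz')) fun i => ?_
    rw [mulVec_add, sub_self]
    simp
  · obtain ⟨z, hz⟩ := rp_ex hi x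
    refine rp_eq hi' (hf _ _ (rp_smul a hz)) (rp_smul a (hf _ _ hz)) fun i => ?_
    rw [mulVec_smul, sub_self]
    simp

private theorem rp_act {X : Type*} {ρ : X → Matrix (Fin n) (Fin n) E} (hi : A * A' = 1)
    (hst : ∀ g, ∀ x ∈ latA A', ρ g *ᵥ x ∈ latA A') (g : X) {m : MN (latA A') l 1}
    {z : Fin n → E} (h : Rp A m z) : Rp A (actN l 1 ρ hst g m) ((A' * ρ g * A) *ᵥ z) := by
  unfold Rp at *
  rw [coe_actN, ← h, actQ_mq (hst g)]
  congr 1
  rw [mulVec_mulVec, mulVec_mulVec, ← Matrix.mul_assoc, ← Matrix.mul_assoc, hi, Matrix.one_mul]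

/-- the value of the form in coordinates -/
private theorem bN_rp (hlat : Lat b l t (latA A')) {m m' : MN (latA A') l 1} {z z' : Fin n → E}
    (h : Rp A m z) (h' : Rp A m' z') :
    bN hlat 1 m m' = pr0 (t ((l : E) * (z ⬝ᵥ ((Aᵀ * b * A) *ᵥ z')))) := by
  rw [bN_val hlat 1 m m' h h', pow_one, bil, ← mulVec_mulVec, ← mulVec_mulVec,
    dotProduct_mulVec z, vecMul_transpose]

private theorem pr_eq (hlat : Lat b l t (latA A')) {u v : E} (h : ‖u - v‖ ≤ 1) :
    pr0 (t u) = pr0 (t v) := by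
  rw [← sub_eq_zero, ← map_sub, ← map_sub]
  exact pr0_zero_of_norm (hlat.tint _ h)

private theorem norm_dot (hlm : ∀ x : E, ‖x‖ < 1 → ‖x‖ ≤ ‖(l : E)‖)
    {Z : Matrix (Fin n) (Fin n) E} (hZ : Sm Z) {z z' : Fin n → E}
    (hz : ∀ i, ‖(l : E)‖ * ‖z i‖ ≤ 1) (hz' : ∀ i, ‖(l : E)‖ * ‖z' i‖ ≤ 1) :
    ‖(l : E) * (z ⬝ᵥ (Z *ᵥ z'))‖ ≤ 1 := by
  rw [dotProduct, Finset.mul_sum]
  refine RB.norm_sum_le _ _ fun i _ => ?_
  rw [← mul_assoc, norm_mul, norm_mul]
  exact mul_le_one₀ (hz i) (norm_nonneg _) (sm_mulVec hlm hZ hz' i)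

/-- the value of the form modulo the maximal ideal -/
private theorem bN_zero (hlat : Lat b l t (latA A')) (hi' : A' * A = 1)
    {m m' : MN (latA A') l 1} {z z' : Fin n → E} (h : Rp A m z) (h' : Rp A m' z')
    {m0 m0' : MN (latA A') l 1} {z0 z0' : Fin n → E} (h0 : Rp A m0 z0) (h0' : Rp A m0' z0')
    {Z : Matrix (Fin n) (Fin n) E} (hZ : Sm Z)
    (e : z ⬝ᵥ ((Aᵀ * b * A) *ᵥ z') = z0 ⬝ᵥ (Z *ᵥ z0')) : bN hlat 1 m m' = 0 := by
  rw [bN_rp hlat h h', e]
  exact pr0_zero_of_norm (hlat.tint _ (norm_dot hlat.lmax hZ (rp_norm hi' h0) (rp_norm hi' h0')))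

private theorem dot_tr (Y : Matrix (Fin n) (Fin n) E) (z w : Fin n → E) :
    (Y *ᵥ z) ⬝ᵥ w = z ⬝ᵥ (Yᵀ *ᵥ w) := by
  rw [dotProduct_mulVec, vecMul_transpose]

private theorem norm_alt (hlm : ∀ x : E, ‖x‖ < 1 → ‖x‖ ≤ ‖(l : E)‖)
    {W : Matrix (Fin n) (Fin n) E} (hW : Sm (W + Wᵀ)) (hd : ∀ i, ‖W i i‖ < 1) {z : Fin n → E}
    (hz : ∀ i, ‖(l : E)‖ * ‖z i‖ ≤ 1) : ‖(l : E) * (z ⬝ᵥ (W *ᵥ z))‖ ≤ 1 := by
  obtain ⟨N, hN⟩ : ∃ N : Matrix (Fin n) (Fin n) E,
    N = Matrix.of fun i j => if i < j then W j i else 0 := ⟨_, rfl⟩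
  have e1 : z ⬝ᵥ (W *ᵥ z) = z ⬝ᵥ ((W + N - Nᵀ) *ᵥ z) := by
    have e2 : z ⬝ᵥ (N *ᵥ z) = z ⬝ᵥ (Nᵀ *ᵥ z) := by
      rw [← dot_tr, dotProduct_comm]
    rw [sub_mulVec, add_mulVec, dotProduct_sub, dotProduct_add, e2]
    ring
  rw [e1]
  refine norm_dot hlm (fun i j => ?_) hz hz
  rw [Matrix.sub_apply, Matrix.add_apply, Matrix.transpose_apply, hN, Matrix.of_apply,
    Matrix.of_apply]
  rcases lt_trichotomy i j with h | h | h
  · rw [if_pos h, if_neg (not_lt.2 h.le), sub_zero]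
    exact hW i j
  · subst h
    rw [if_neg (lt_irrefl _), add_zero, sub_zero]
    exact hd i
  · rw [if_neg (not_lt.2 h.le), if_pos h, add_zero, sub_self, norm_zero]
    exact one_pos

end lv

private theorem nine {M Y : Type*} [AddCommGroup M] [AddCommGroup Y] (B : M →+ M →+ Y)
    {m m' u v w u' v' w' : M} (hm : m = u + v + w) (hm' : m' = u' + v' + w')
    (h1 : B u v' = 0) (h2 : B u w' = 0) (h3 : B v u' = 0) (h4 : B v v' = 0) (h5 : B w u' = 0)
    (h6 : B w v' = B v' w) (h7 : B w w' = 0) :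
    B m m' = B u u' + B v w' + B v' w := by
  rw [hm, hm', map_add B, map_add B, AddMonoidHom.add_apply, AddMonoidHom.add_apply,
    map_add (B u), map_add (B u), map_add (B v), map_add (B v), map_add (B w), map_add (B w),
    h1, h2, h3, h4, h5, h6, h7]
  abel

theorem exists_spl {G : Type*} [Group G] {κ : G →* G} {E : Type v} [NormedField E]
    [NormedAlgebra ℚ_[2] E] [FiniteDimensional ℚ_[2] E] {n : ℕ}
    {ρ : G →* Matrix (Fin n) (Fin n) E} {b A A' C E₀ P S : Matrix (Fin n) (Fin n) E} {l : OE E}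
    {t : E →ₗ[ℚ_[2]] ℚ_[2]} (h : GoodS κ (fun g => ρ g) b A A' C E₀ P S)
    (hlat : Lat b l t (latA A')) (hst : ∀ g, ∀ x ∈ latA A', ρ g *ᵥ x ∈ latA A') :
    ∃ (U N : Type v) (_ : AddCommGroup U) (_ : AddCommGroup N) (_ : Module (OE E) U)
      (_ : Module (OE E) N) (_ : Finite U) (_ : Finite N) (aU : G → U → U) (bU : U →+ U →+ A0)
      (aN : G → N → N) (hN : N →+ N →+ A0) (Φ : MN (latA A') l 1 ≃ₗ[OE E] U × N × N) (C₁ : U → U),
      SplS (OE E) (actN l 1 (fun g => ρ g) hst) (bN hlat 1) aU bU aN hN Φ ∧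
        QP.InvC κ (OE E) aU bU C₁ := by
  have hi := h.good.inv
  have hi' := h.good.inv'
  have hv := h.inv
  obtain ⟨F, hF⟩ : ∃ F, F = Aᵀ * b * A := ⟨_, rfl⟩
  have hfin : Finite (MN (latA A') l 1) := MN_finite hlat 1
  obtain ⟨c, hc⟩ := op_ex (l := l) hi hi' hv.iC
  obtain ⟨e, he⟩ := op_ex (l := l) hi hi' hv.iE
  obtain ⟨p, hp⟩ := op_ex (l := l) hi hi' hv.iP
  obtain ⟨s, hs⟩ := op_ex (l := l) hi hi' hv.iS
  have ha : ∀ g m z, Rp A m z →
      Rp A (actN l 1 (fun g => ρ g) hst g m) ((A' * ρ g * A) *ᵥ z) := fun g m z hz =>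
    rp_act hi hst g hz
  obtain ⟨act, hact⟩ : ∃ act, act = actN l 1 (fun g => ρ g) hst := ⟨_, rfl⟩
  rw [← hact] at ha ⊢
  obtain ⟨B, hB⟩ : ∃ B, B = bN hlat 1 := ⟨_, rfl⟩
  have hlm := hlat.lmax
  -- relations
  have Ree : ∀ m, e (e m) = e m := fun m => by
    obtain ⟨z, hz⟩ := rp_ex hi m
    refine rp_rel hi' hlm hz hv.ee (he _ _ (he _ _ hz)) (he _ _ hz) ?_
    rw [mulVec_mulVec, sub_mulVec]
  have Rer : ∀ g m, e (act g m) = act g (e m) := fun g m => by
    obtain ⟨z, hz⟩ := rp_ex hi m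
    refine rp_rel hi' hlm hz (hv.er g) (he _ _ (ha g _ _ hz)) (ha g _ _ (he _ _ hz)) ?_
    rw [mulVec_mulVec, mulVec_mulVec, sub_mulVec]
  have Rce : ∀ m, c (e m) = c m := fun m => by
    obtain ⟨z, hz⟩ := rp_ex hi m
    refine rp_rel hi' hlm hz hv.ce (hc _ _ (he _ _ hz)) (hc _ _ hz) ?_
    rw [mulVec_mulVec, sub_mulVec]
  have Rec : ∀ m, e (c m) = c m := fun m => by
    obtain ⟨z, hz⟩ := rp_ex hi m
    refine rp_rel hi' hlm hz hv.ec (he _ _ (hc _ _ hz)) (hc _ _ hz) ?_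
    rw [mulVec_mulVec, sub_mulVec]
  have Rcc : ∀ m, c (c m) = e m := fun m => by
    obtain ⟨z, hz⟩ := rp_ex hi m
    refine rp_rel hi' hlm hz hv.cc (hc _ _ (hc _ _ hz)) (he _ _ hz) ?_
    rw [mulVec_mulVec, sub_mulVec]
  have Rcr : ∀ g m, c (act (κ g) m) = act g (c m) := fun g m => by
    obtain ⟨z, hz⟩ := rp_ex hi m
    refine rp_rel hi' hlm hz (hv.cr g) (hc _ _ (ha (κ g) _ _ hz)) (ha g _ _ (hc _ _ hz)) ?_
    rw [mulVec_mulVec, mulVec_mulVec, sub_mulVec]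
  have Rss : ∀ m, s (s m) = m - e m := fun m => by
    obtain ⟨z, hz⟩ := rp_ex hi m
    refine rp_rel hi' hlm hz hv.ss (hs _ _ (hs _ _ hz)) (rp_sub hz (he _ _ hz)) ?_
    rw [mulVec_mulVec, sub_mulVec, add_mulVec, one_mulVec]
    abel
  have Rse : ∀ m, s (e m) = 0 := fun m => by
    obtain ⟨z, hz⟩ := rp_ex hi m
    refine rp_rel hi' hlm hz hv.se (hs _ _ (he _ _ hz)) (rp_sub hz hz |> (sub_self m ▸ ·)) ?_
    rw [mulVec_mulVec, sub_self, sub_zero]
  have Res : ∀ m, e (s m) = 0 := fun m => by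
    obtain ⟨z, hz⟩ := rp_ex hi m
    refine rp_rel hi' hlm hz hv.es (he _ _ (hs _ _ hz)) (rp_sub hz hz |> (sub_self m ▸ ·)) ?_
    rw [mulVec_mulVec, sub_self, sub_zero]
  have Rsr : ∀ g m, s (act g m) = act g (s m) := fun g m => by
    obtain ⟨z, hz⟩ := rp_ex hi m
    refine rp_rel hi' hlm hz (hv.sr g) (hs _ _ (ha g _ _ hz)) (ha g _ _ (hs _ _ hz)) ?_
    rw [mulVec_mulVec, mulVec_mulVec, sub_mulVec]
  have Rpp : ∀ m, p (p m) = p m := fun m => by
    obtain ⟨z, hz⟩ := rp_ex hi m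
    refine rp_rel hi' hlm hz hv.pp (hp _ _ (hp _ _ hz)) (hp _ _ hz) ?_
    rw [mulVec_mulVec, sub_mulVec]
  have Rpe : ∀ m, p (e m) = 0 := fun m => by
    obtain ⟨z, hz⟩ := rp_ex hi m
    refine rp_rel hi' hlm hz hv.pe (hp _ _ (he _ _ hz)) (rp_sub hz hz |> (sub_self m ▸ ·)) ?_
    rw [mulVec_mulVec, sub_self, sub_zero]
  have Rep : ∀ m, e (p m) = 0 := fun m => by
    obtain ⟨z, hz⟩ := rp_ex hi m
    refine rp_rel hi' hlm hz hv.ep (he _ _ (hp _ _ hz)) (rp_sub hz hz |> (sub_self m ▸ ·)) ?_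
    rw [mulVec_mulVec, sub_self, sub_zero]
  have Rpr : ∀ g m, p (act g m) = act g (p m) := fun g m => by
    obtain ⟨z, hz⟩ := rp_ex hi m
    refine rp_rel hi' hlm hz (hv.pr g) (hp _ _ (ha g _ _ hz)) (ha g _ _ (hp _ _ hz)) ?_
    rw [mulVec_mulVec, mulVec_mulVec, sub_mulVec]
  have Rsp : ∀ m, s (p m) + p (s m) = s m := fun m => by
    obtain ⟨z, hz⟩ := rp_ex hi m
    refine rp_rel hi' hlm hz hv.sp (rp_add (hs _ _ (hp _ _ hz)) (hp _ _ (hs _ _ hz)))
      (hs _ _ hz) ?_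
    rw [mulVec_mulVec, mulVec_mulVec, sub_mulVec, add_mulVec]
  -- the form
  have Bsym : ∀ m m', B m m' = B m' m := fun m m' => by
    obtain ⟨z, hz⟩ := rp_ex hi m
    obtain ⟨z', hz'⟩ := rp_ex hi m'
    rw [hB, bN_val hlat 1 m m' hz hz', bN_val hlat 1 m' m hz' hz, bil_symm hlat.symm]
  have Beb : ∀ m m', B (e m) m' = B m (e m') := fun m m' => by
    obtain ⟨z, hz⟩ := rp_ex hi m
    obtain ⟨z', hz'⟩ := rp_ex hi m'
    rw [hB, bN_rp hlat (he _ _ hz) hz', bN_rp hlat hz (he _ _ hz')]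
    refine pr_eq hlat ?_
    have e1 : (l : E) * ((E₀ *ᵥ z) ⬝ᵥ ((Aᵀ * b * A) *ᵥ z')) -
        (l : E) * (z ⬝ᵥ ((Aᵀ * b * A) *ᵥ (E₀ *ᵥ z'))) =
        (l : E) * (z ⬝ᵥ ((E₀ᵀ * (Aᵀ * b * A) - (Aᵀ * b * A) * E₀) *ᵥ z')) := by
      rw [dot_tr, mulVec_mulVec, mulVec_mulVec, sub_mulVec, dotProduct_sub]
      ring
    rw [e1]
    exact norm_dot hlm hv.eb (rp_norm hi' hz) (rp_norm hi' hz')
  have Bpb : ∀ m m', B (p m) (p m') = 0 := fun m m' => by
    obtain ⟨z, hz⟩ := rp_ex hi m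
    obtain ⟨z', hz'⟩ := rp_ex hi m'
    rw [hB]
    refine bN_zero hlat hi' (hp _ _ hz) (hp _ _ hz') hz hz' hv.pb ?_
    rw [dot_tr, mulVec_mulVec, mulVec_mulVec, Matrix.mul_assoc]
  have Bqb : ∀ m m', B (m - e m - p m) (m' - e m' - p m') = 0 := fun m m' => by
    obtain ⟨z, hz⟩ := rp_ex hi m
    obtain ⟨z', hz'⟩ := rp_ex hi m'
    rw [hB]
    refine bN_zero hlat hi' (rp_sub (rp_sub hz (he _ _ hz)) (hp _ _ hz))
      (rp_sub (rp_sub hz' (he _ _ hz')) (hp _ _ hz')) hz hz' hv.qb ?_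
    have e1 : ∀ z : Fin n → E, z - E₀ *ᵥ z - P *ᵥ z = (1 - E₀ - P) *ᵥ z := fun z => by
      rw [sub_mulVec, sub_mulVec, one_mulVec]
    rw [e1, e1, dot_tr, mulVec_mulVec, mulVec_mulVec, Matrix.mul_assoc]
  have Bsb : ∀ m m', B (s m) (s m') + B (e m) (e m') = B m m' := fun m m' => by
    obtain ⟨z, hz⟩ := rp_ex hi m
    obtain ⟨z', hz'⟩ := rp_ex hi m'
    rw [hB, bN_rp hlat (hs _ _ hz) (hs _ _ hz'), bN_rp hlat (he _ _ hz) (he _ _ hz'),
      bN_rp hlat hz hz', ← map_add, ← map_add]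
    refine pr_eq hlat ?_
    have e1 : (l : E) * ((S *ᵥ z) ⬝ᵥ ((Aᵀ * b * A) *ᵥ (S *ᵥ z'))) +
        (l : E) * ((E₀ *ᵥ z) ⬝ᵥ ((Aᵀ * b * A) *ᵥ (E₀ *ᵥ z'))) -
        (l : E) * (z ⬝ᵥ ((Aᵀ * b * A) *ᵥ z')) =
        (l : E) * (z ⬝ᵥ ((Sᵀ * (Aᵀ * b * A) * S + E₀ᵀ * (Aᵀ * b * A) * E₀ -
          (Aᵀ * b * A)) *ᵥ z')) := by
      rw [dot_tr, dot_tr, mulVec_mulVec, mulVec_mulVec, mulVec_mulVec, mulVec_mulVec, sub_mulVec,
        add_mulVec, dotProduct_sub, dotProduct_add, Matrix.mul_assoc, Matrix.mul_assoc]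
      ring
    rw [e1]
    exact norm_dot hlm hv.sb (rp_norm hi' hz) (rp_norm hi' hz')
  have Bcb : ∀ (a : OE E) m, B (a • m) (c m) = 0 := fun a m => by
    obtain ⟨z, hz⟩ := rp_ex hi m
    rw [hB, bN_rp hlat (rp_smul a hz) (hc _ _ hz)]
    refine pr0_zero_of_norm (hlat.tint _ ?_)
    have e1 : (l : E) * (((a : E) • z) ⬝ᵥ ((Aᵀ * b * A) *ᵥ (C *ᵥ z))) =
        (a : E) * ((l : E) * (z ⬝ᵥ (((Aᵀ * b * A) * C) *ᵥ z))) := by
      rw [smul_dotProduct, mulVec_mulVec, smul_eq_mul]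
      ring
    rw [e1, norm_mul]
    exact mul_le_one₀ a.2 (norm_nonneg _) (norm_alt hlm hv.cb hv.cd (rp_norm hi' hz))
  rw [← hB]
  have Rsps : ∀ m, s (p (s m)) = m - e m - p m := fun m => by
    have e1 := Rsp (s m)
    rw [Rss, map_sub, Rpe, sub_zero] at e1
    rw [← e1]
    abel
  have Ru : ∀ u ∈ LinearMap.range e, e u = u := by
    rintro _ ⟨m, rfl⟩
    exact Ree m
  have Rn : ∀ x ∈ LinearMap.range p, p x = x := by
    rintro _ ⟨m, rfl⟩
    exact Rpp m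
  have Rps : ∀ x ∈ LinearMap.range p, p (s x) = 0 := by
    intro x hx
    have e1 := Rsp x
    rw [Rn x hx] at e1
    exact left_eq_add.1 e1.symm |> fun e2 => e2
  have Rne : ∀ x ∈ LinearMap.range p, e x = 0 := by
    rintro _ ⟨m, rfl⟩
    exact Rep m
  have Rue : ∀ x ∈ LinearMap.range e, p x = 0 := by
    rintro _ ⟨m, rfl⟩
    exact Rpe m
  have Rus : ∀ x ∈ LinearMap.range e, s x = 0 := by
    rintro _ ⟨m, rfl⟩
    exact Rse m
  have Bform : ∀ m m', B m m' = B (e m) (e m') + B (p m) (m' - e m' - p m') +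
      B (p m') (m - e m - p m) := fun m m' => by
    have h2 : ∀ m m', B (e m) (p m') = 0 := fun m m' => by rw [Beb, Rep, map_zero]
    have h3 : ∀ m m', B (e m) (m' - e m' - p m') = 0 := fun m m' => by
      have h4 : e (m' - e m' - p m') = 0 := by
        rw [map_sub, map_sub, Ree, Rep, sub_self, sub_zero]
      rw [Beb, h4, map_zero]
    exact nine B (by abel) (by abel) (h2 _ _) (h3 _ _) (by rw [Bsym, h2]) (Bpb _ _)
      (by rw [Bsym, h3]) (Bsym _ _) (Bqb _ _)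
  -- the decomposition
  let Φ : MN (latA A') l 1 ≃ₗ[OE E] LinearMap.range e × LinearMap.range p × LinearMap.range p :=
    { toFun := fun m => (⟨e m, m, rfl⟩, ⟨p m, m, rfl⟩, ⟨p (s m), s m, rfl⟩)
      map_add' := fun m m' => by
        refine Prod.ext (Subtype.ext ?_) (Prod.ext (Subtype.ext ?_) (Subtype.ext ?_))
        · exact map_add e m m'
        · exact map_add p m m'
        · show p (s (m + m')) = p (s m) + p (s m')
          rw [map_add, map_add]
      map_smul' := fun a m => by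
        refine Prod.ext (Subtype.ext ?_) (Prod.ext (Subtype.ext ?_) (Subtype.ext ?_))
        · exact map_smul e a m
        · exact map_smul p a m
        · show p (s (a • m)) = a • p (s m)
          rw [map_smul, map_smul]
      invFun := fun x => (x.1 : MN (latA A') l 1) + (x.2.1 : MN (latA A') l 1) +
        s (x.2.2 : MN (latA A') l 1)
      left_inv := fun m => by
        show e m + p m + s (p (s m)) = m
        rw [Rsps]
        abel
      right_inv := fun x => by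
        obtain ⟨⟨u, hu⟩, ⟨x, hx⟩, ⟨y, hy⟩⟩ := x
        refine Prod.ext (Subtype.ext ?_) (Prod.ext (Subtype.ext ?_) (Subtype.ext ?_))
        · show e (u + x + s y) = u
          rw [map_add, map_add, Ru u hu, Rne x hx, Res, add_zero, add_zero]
        · show p (u + x + s y) = x
          rw [map_add, map_add, Rue u hu, Rn x hx, Rps y hy, zero_add, add_zero]
        · show p (s (u + x + s y)) = y
          have e1 : s (u + x + s y) = s x + y := by
            rw [map_add s, map_add s, Rus u hu, Rss, Rne y hy, sub_zero, zero_add]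
          rw [e1, map_add, Rps x hx, Rn y hy, zero_add] }
  let aU : G → LinearMap.range e → LinearMap.range e := fun g u =>
    ⟨act g u, act g u, by rw [Rer, Ru _ u.2]⟩
  let aN : G → LinearMap.range p → LinearMap.range p := fun g x =>
    ⟨act g x, act g x, by rw [Rpr, Rn _ x.2]⟩
  let bU : LinearMap.range e →+ LinearMap.range e →+ A0 :=
    AddMonoidHom.mk' (fun u => AddMonoidHom.mk' (fun u' => B u u') fun u' u'' =>
      map_add (B u) (u' : MN (latA A') l 1) u'') fun u u' => by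
        refine DFunLike.ext _ _ fun u'' => ?_
        show B ((u : MN (latA A') l 1) + u') u'' = B u u'' + B u' u''
        rw [map_add]
        rfl
  let hN : LinearMap.range p →+ LinearMap.range p →+ A0 :=
    AddMonoidHom.mk' (fun x => AddMonoidHom.mk' (fun y => B x (s y)) fun y y' => by
      show B x (s ((y : MN (latA A') l 1) + y')) = B x (s y) + B x (s y')
      rw [map_add, map_add]) fun x x' => by
        refine DFunLike.ext _ _ fun y => ?_
        show B ((x : MN (latA A') l 1) + x') (s y) = B x (s y) + B x' (s y)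
        rw [map_add]
        rfl
  let C₁ : LinearMap.range e → LinearMap.range e := fun u => ⟨c u, c u, Rec _⟩
  refine ⟨LinearMap.range e, LinearMap.range p, inferInstance, inferInstance, inferInstance,
    inferInstance, inferInstance, inferInstance, aU, bU, aN, hN, Φ, C₁, ⟨?_, ?_, ?_⟩,
    ⟨?_, ?_, ?_, ?_, ?_⟩⟩
  · intro g m
    refine Prod.ext (Subtype.ext ?_) (Prod.ext (Subtype.ext ?_) (Subtype.ext ?_))
    · exact Rer g m
    · exact Rpr g m
    · show p (s (act g m)) = act g (p (s m))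
      rw [Rsr, Rpr]
  · intro m m'
    show B m m' = B (e m) (e m') + B (p m) (s (p (s m'))) + B (p m') (s (p (s m)))
    rw [Rsps, Rsps]
    exact Bform m m'
  · intro x y
    show B x (s y) = B y (s x)
    have h1 := Bsb (y : MN (latA A') l 1) (s x)
    rw [Res, map_zero, add_zero, Rss, Rne _ x.2, sub_zero] at h1
    rw [← h1, Bsym]
  · intro u u'
    exact Subtype.ext (map_add c (u : MN (latA A') l 1) u')
  · intro a u
    exact Subtype.ext (map_smul c a (u : MN (latA A') l 1))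
  · intro u
    refine Subtype.ext ?_
    show c (c u) = u
    rw [Rcc, Ru _ u.2]
  · intro g u
    exact Subtype.ext (Rcr g u)
  · intro a u
    exact Bcb a u

end Pool.Agent.Work.MP_787500_nt.RC
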