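import Mathlib
import Pool.Agent.Work.MP_787500_nt.RC.Defs
import Pool.Agent.Work.MP_787500_nt.RB.Basic
import Pool.Agent.Work.MP_787500_nt.RB.Res
import Pool.Agent.Work.MP_787500_nt.RB.Lat

/-!
# RC/OfS (size M): from `HasS` of the residual representation to `GoodS` (model: RP/OfPair.lean, proved)

Copy the private theorems `of_grd_fin`, `of_grd`, `norm_sub_lt` of RP/OfPair: `of_grd` gives a basis `e' : Basis (Fin n) k (Fin n → k)` and a good
basis `A₁` with `resR hr h' g = toMatrix e' e' (toRep (resR hr h) g)` and `(A₁ᵀ * b * A₁).map rd = BilinForm.toMatrix e' B₁`. Let `C̄ = toMatrix e' e' C` etc.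
The relations of `InvR` become relations of matrices (`LinearMap.toMatrix_comp`, `BilinForm.toMatrix_comp` or `BilinForm.toMatrix` of `B (f x) (f y)`).
Lift the entries: `hr.surj` gives integral matrices `C`, `E`, `P`, `S` over `Ω` with `C.map rd = C̄` etc. For an integral matrix `M`:
`Sm M ↔ M.map rd = 0` (`hr.zero`), and `map rd` is additive and multiplicative on integral matrices (`red_mul` of RB/Res, `red_one`, `hr.add`; `rd (-x) = -rd x`),
so every clause of `InvM` is the corresponding relation of the residual matrices. `cb`, `cd`: `B₁ x (C x) = 0` for all `x` says that the matrix of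
`B₁ x (C y)` (which is `F * C`) is alternating: diagonal entries 0, `M i j + M j i = 0`.
-/

set_option autoImplicit false
set_option linter.unusedSectionVars false

namespace Pool.Agent.Work.MP_787500_nt.RC

open Matrix Module
open Pool.Agent.Work.MP_787500_nt.RB
open Pool.Agent.Work.MP_787500_nt.RP

variable {Ω : Type*} [NormedField Ω] [NormedAlgebra ℚ_[2] Ω] [IsAlgClosed Ω] {k : Type*} [Field k]
  {rd : Ω → k} {G : Type*} [Group G] {κ : G →* G} {n : ℕ} {ρ : G →* Matrix (Fin n) (Fin n) Ω}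
  {b A A' : Matrix (Fin n) (Fin n) Ω}

private theorem of_grd_fin (hr : Red rd) (hd : Disc (fun g => ρ g))
    (h : Good (fun g => ρ g) b A A') (e : Basis (Fin n) k (Fin n → k)) (a : Fin n → ℤ)
    (B' : LinearMap.BilinForm k (Fin n → k))
    (h1 : ∀ g i j, a i ≠ a j → e.repr (toRep (resR hr h) g (e j)) i = 0)
    (h2 : ∀ i j, a i + a j < 0 → Matrix.toBilin' ((Aᵀ * b * A).map rd) (e i) (e j) = 0)
    (h3 : ∀ i j, B' (e i) (e j) =
      if a i + a j = 0 then Matrix.toBilin' ((Aᵀ * b * A).map rd) (e i) (e j) else 0)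
    (h4 : ∀ x, (∀ y, B' x y = 0) → x = 0) :
    ∃ (A₁ A₁' : Matrix (Fin n) (Fin n) Ω) (h' : Good (fun g => ρ g) b A₁ A₁'),
      (∀ g, resR hr h' g = LinearMap.toMatrix e e (toRep (resR hr h) g)) ∧
        (A₁ᵀ * b * A₁).map rd = LinearMap.BilinForm.toMatrix e B' := by
  classical
  set F := (Aᵀ * b * A).map rd with hF
  set P := (Pi.basisFun k (Fin n)).toMatrix e with hP
  set P' := e.toMatrix (Pi.basisFun k (Fin n)) with hP'
  have hPP : P * P' = 1 := Basis.toMatrix_mul_toMatrix_flip _ _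
  have hR : ∀ g, P' * resR hr h g * P = LinearMap.toMatrix e e (toRep (resR hr h) g) := by
    intro g
    rw [← basis_toMatrix_mul_linearMap_toMatrix_mul_basis_toMatrix e (Pi.basisFun k (Fin n)) e
      (Pi.basisFun k (Fin n)), LinearMap.toMatrix_eq_toMatrix']
    congr 2
    exact (LinearMap.toMatrix'_toLin' _).symm
  have hFF : Pᵀ * F * P = LinearMap.BilinForm.toMatrix e (Matrix.toBilin' F) := by
    rw [← LinearMap.BilinForm.toMatrix_mul_basis_toMatrix (Pi.basisFun k (Fin n)) e,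
      LinearMap.BilinForm.toMatrix_basisFun, LinearMap.BilinForm.toMatrix'_toBilin']
  have hgr : ∀ g, grM a (P' * resR hr h g * P) =
      LinearMap.toMatrix e e (toRep (resR hr h) g) := by
    intro g
    rw [hR]
    ext i j
    rw [grM]
    split_ifs with hij
    · rfl
    · rw [LinearMap.toMatrix_apply, h1 g i j hij]
  have hgB : grB a (Pᵀ * F * P) = LinearMap.BilinForm.toMatrix e B' := by
    rw [hFF]
    ext i j
    rw [grB, LinearMap.BilinForm.toMatrix_apply, LinearMap.BilinForm.toMatrix_apply, h3]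
  have hdet : (grB a (Pᵀ * F * P)).det ≠ 0 := by
    rw [hgB]
    exact (LinearMap.BilinForm.nondegenerate_iff_det_ne_zero e).1
      (LinearMap.BilinForm.Nondegenerate.ofSeparatingLeft h4)
  obtain ⟨A₁, A₁', h', h8, h9⟩ := exists_lat hr hd h hPP a
    (fun g i j hij => by rw [hR, LinearMap.toMatrix_apply, h1 g i j hij.ne'])
    (fun i j hij => by rw [hFF, LinearMap.BilinForm.toMatrix_apply, h2 i j hij]) hdet
  exact ⟨A₁, A₁', h', fun g => by rw [h8, hgr], by rw [h9, hgB]⟩

private theorem of_grd (hr : Red rd) (hd : Disc (fun g => ρ g)) (h : Good (fun g => ρ g) b A A')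
    {ι : Type} [Fintype ι] {e : Basis ι k (Fin n → k)} {a : ι → ℤ}
    {B' : LinearMap.BilinForm k (Fin n → k)}
    (hG : Grd (toRep (resR hr h)) (Matrix.toBilin' ((Aᵀ * b * A).map rd)) e a B') :
    ∃ (e' : Basis (Fin n) k (Fin n → k)) (A₁ A₁' : Matrix (Fin n) (Fin n) Ω)
      (h' : Good (fun g => ρ g) b A₁ A₁'),
      (∀ g, resR hr h' g = LinearMap.toMatrix e' e' (toRep (resR hr h) g)) ∧
        (A₁ᵀ * b * A₁).map rd = LinearMap.BilinForm.toMatrix e' B' := by
  obtain ⟨h1, h2, h3, h4⟩ := hG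
  have hc : Fintype.card ι = n := by
    rw [← Module.finrank_eq_card_basis e, Module.finrank_fin_fun]
  let q : ι ≃ Fin n := Fintype.equivFinOfCardEq hc
  refine ⟨e.reindex q, of_grd_fin hr hd h (e.reindex q) (a ∘ q.symm) B' ?_ ?_ ?_ h4⟩
  · intro g i j hij
    rw [Basis.reindex_apply, Basis.repr_reindex_apply]
    exact h1 g _ _ hij
  · intro i j hij
    rw [Basis.reindex_apply, Basis.reindex_apply]
    exact h2 _ _ hij
  · intro i j
    rw [Basis.reindex_apply, Basis.reindex_apply]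
    exact h3 _ _

/-- `M` is integral with residue `N` -/
private def Rd (rd : Ω → k) (M : Matrix (Fin n) (Fin n) Ω) (N : Matrix (Fin n) (Fin n) k) : Prop :=
  Int M ∧ M.map rd = N

private theorem rd_add {hr : Red rd} {M M' : Matrix (Fin n) (Fin n) Ω}
    {N N' : Matrix (Fin n) (Fin n) k} (h : Rd rd M N) (h' : Rd rd M' N') :
    Rd rd (M + M') (N + N') := by
  have hu := Gn.ultra 2 Ω
  refine ⟨fun i j => ?_, ?_⟩
  · rw [Matrix.add_apply]
    exact (IsUltrametricDist.norm_add_le_max _ _).trans (max_le (h.1 i j) (h'.1 i j))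
  · rw [← h.2, ← h'.2]
    ext i j
    rw [Matrix.map_apply, Matrix.add_apply, Matrix.add_apply, hr.add _ _ (h.1 i j) (h'.1 i j)]
    rfl

private theorem rd_neg {hr : Red rd} {M : Matrix (Fin n) (Fin n) Ω}
    {N : Matrix (Fin n) (Fin n) k} (h : Rd rd M N) : Rd rd (-M) (-N) := by
  have h1 : Int (-M) := fun i j => by
    rw [Matrix.neg_apply, norm_neg]
    exact h.1 i j
  refine ⟨h1, ?_⟩
  rw [← h.2]
  ext i j
  rw [Matrix.map_apply, Matrix.neg_apply, Matrix.neg_apply, Matrix.map_apply]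
  have h2 := hr.add (-(M i j)) (M i j) (h1 i j) (h.1 i j)
  rw [neg_add_cancel, hr.map_zero] at h2
  exact eq_neg_of_add_eq_zero_left h2.symm

private theorem rd_sub {hr : Red rd} {M M' : Matrix (Fin n) (Fin n) Ω}
    {N N' : Matrix (Fin n) (Fin n) k} (h : Rd rd M N) (h' : Rd rd M' N') :
    Rd rd (M - M') (N - N') := by
  rw [sub_eq_add_neg, sub_eq_add_neg]
  exact rd_add (hr := hr) h (rd_neg (hr := hr) h')

private theorem rd_mul {hr : Red rd} {M M' : Matrix (Fin n) (Fin n) Ω}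
    {N N' : Matrix (Fin n) (Fin n) k} (h : Rd rd M N) (h' : Rd rd M' N') :
    Rd rd (M * M') (N * N') :=
  ⟨int_mul h.1 h'.1, by rw [red_mul hr h.1 h'.1, h.2, h'.2]⟩

private theorem rd_tr {M : Matrix (Fin n) (Fin n) Ω} {N : Matrix (Fin n) (Fin n) k}
    (h : Rd rd M N) : Rd rd Mᵀ Nᵀ :=
  ⟨h.1.transpose, by rw [← h.2]; rfl⟩

private theorem rd_one {hr : Red rd} : Rd rd (1 : Matrix (Fin n) (Fin n) Ω) 1 :=
  ⟨int_one, red_one hr⟩

private theorem rd_sm {hr : Red rd} {M : Matrix (Fin n) (Fin n) Ω} {N : Matrix (Fin n) (Fin n) k}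
    (h : Rd rd M N) (h0 : N = 0) : Sm M := by
  intro i j
  refine (hr.zero _ (h.1 i j)).1 ?_
  have h1 := congrFun (congrFun h.2 i) j
  rw [h0] at h1
  exact h1

private theorem rd_lift (hr : Red rd) (N : Matrix (Fin n) (Fin n) k) :
    ∃ M : Matrix (Fin n) (Fin n) Ω, Rd rd M N := by
  choose f hf1 hf2 using hr.surj
  exact ⟨Matrix.of fun i j => f (N i j), fun i j => hf1 _, by ext i j; exact hf2 _⟩

theorem exists_of_s (hr : Red rd) (hd : Disc (fun g => ρ g))
    (h : Good (fun g => ρ g) b A A')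
    (hS : HasS κ (toRep (resR hr h)) (Matrix.toBilin' ((Aᵀ * b * A).map rd))) :
    ∃ A₁ A₁' C E P S : Matrix (Fin n) (Fin n) Ω, GoodS κ (fun g => ρ g) b A₁ A₁' C E P S := by
  classical
  obtain ⟨ι, _, e₀, a, B₁, C, E, P, S, hG, hI⟩ := hS
  obtain ⟨e, A₁, A₁', h₁, h2, h3⟩ := of_grd hr hd h hG
  set F := LinearMap.BilinForm.toMatrix e B₁ with hF
  obtain ⟨mC, rC⟩ := rd_lift (Ω := Ω) hr (LinearMap.toMatrix e e C)
  obtain ⟨mE, rE⟩ := rd_lift (Ω := Ω) hr (LinearMap.toMatrix e e E)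
  obtain ⟨mP, rP⟩ := rd_lift (Ω := Ω) hr (LinearMap.toMatrix e e P)
  obtain ⟨mS, rS⟩ := rd_lift (Ω := Ω) hr (LinearMap.toMatrix e e S)
  have rF : Rd rd (A₁ᵀ * b * A₁) F := ⟨h₁.un, h3⟩
  have rR : ∀ g, Rd rd (A₁' * ρ g * A₁) (LinearMap.toMatrix e e (toRep (resR hr h) g)) :=
    fun g => ⟨h₁.st g, by rw [← h2 g, resR_apply]⟩
  have hc : ∀ f g f' g' : (Fin n → k) →ₗ[k] (Fin n → k), (∀ x, f (g x) = f' (g' x)) →
      LinearMap.toMatrix e e f * LinearMap.toMatrix e e g -
        LinearMap.toMatrix e e f' * LinearMap.toMatrix e e g' = 0 := by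
    intro f g f' g' hx
    rw [← LinearMap.toMatrix_comp e e e, ← LinearMap.toMatrix_comp e e e, sub_eq_zero]
    congr 1
    exact LinearMap.ext hx
  have hc1 : ∀ f g f' : (Fin n → k) →ₗ[k] (Fin n → k), (∀ x, f (g x) = f' x) →
      LinearMap.toMatrix e e f * LinearMap.toMatrix e e g - LinearMap.toMatrix e e f' = 0 := by
    intro f g f' hx
    rw [← LinearMap.toMatrix_comp e e e, sub_eq_zero]
    congr 1
    exact LinearMap.ext hx
  have hc0 : ∀ f g : (Fin n → k) →ₗ[k] (Fin n → k), (∀ x, f (g x) = 0) →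
      LinearMap.toMatrix e e f * LinearMap.toMatrix e e g = 0 := by
    intro f g hx
    rw [← LinearMap.toMatrix_comp e e e,
      show f ∘ₗ g = 0 from LinearMap.ext hx, map_zero]
  have hb : ∀ f g : (Fin n → k) →ₗ[k] (Fin n → k),
      (LinearMap.toMatrix e e f)ᵀ * F * LinearMap.toMatrix e e g =
        LinearMap.BilinForm.toMatrix e (B₁.comp f g) := by
    intro f g
    rw [hF, LinearMap.BilinForm.toMatrix_comp (b := e) (c := e)]
  have hFC : F * LinearMap.toMatrix e e C =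
      LinearMap.BilinForm.toMatrix e (B₁.compRight C) := by
    rw [hF, LinearMap.BilinForm.toMatrix_compRight]
  have hCe : ∀ i j, (F * LinearMap.toMatrix e e C) i j = B₁ (e i) (C (e j)) := by
    intro i j
    rw [hFC, LinearMap.BilinForm.toMatrix_apply]
    rfl
  have hpol : ∀ x y, B₁ x (C y) + B₁ y (C x) = 0 := by
    intro x y
    have h5 := hI.cb (x + y)
    rw [map_add, map_add, LinearMap.add_apply, map_add, map_add, hI.cb x, hI.cb y, zero_add,
      add_zero] at h5
    exact h5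
  refine ⟨A₁, A₁', mC, mE, mP, mS, h₁, ?_⟩
  have rFC : Rd rd (A₁ᵀ * b * A₁ * mC) (F * LinearMap.toMatrix e e C) := rd_mul (hr := hr) rF rC
  have rQ : Rd rd (1 - mE - mP) (1 - LinearMap.toMatrix e e E - LinearMap.toMatrix e e P) :=
    rd_sub (hr := hr) (rd_sub (hr := hr) (rd_one (hr := hr)) rE) rP
  refine
    { iC := rC.1
      iE := rE.1
      iP := rP.1
      iS := rS.1
      ee := rd_sm (hr := hr) (rd_sub (hr := hr) (rd_mul (hr := hr) rE rE) rE) (hc1 _ _ _ hI.ee)
      er := fun g => rd_sm (hr := hr) (rd_sub (hr := hr) (rd_mul (hr := hr) rE (rR g))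
        (rd_mul (hr := hr) (rR g) rE)) (hc _ _ _ _ (hI.er g))
      eb := rd_sm (hr := hr) (rd_sub (hr := hr) (rd_mul (hr := hr) (rd_tr rE) rF)
        (rd_mul (hr := hr) rF rE)) ?_
      ce := rd_sm (hr := hr) (rd_sub (hr := hr) (rd_mul (hr := hr) rC rE) rC) (hc1 _ _ _ hI.ce)
      ec := rd_sm (hr := hr) (rd_sub (hr := hr) (rd_mul (hr := hr) rE rC) rC) (hc1 _ _ _ hI.ec)
      cc := rd_sm (hr := hr) (rd_sub (hr := hr) (rd_mul (hr := hr) rC rC) rE) (hc1 _ _ _ hI.cc)
      cr := fun g => rd_sm (hr := hr) (rd_sub (hr := hr) (rd_mul (hr := hr) rC (rR (κ g)))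
        (rd_mul (hr := hr) (rR g) rC)) (hc _ _ _ _ (hI.cr g))
      cb := rd_sm (hr := hr) (rd_add (hr := hr) rFC (rd_tr rFC)) ?_
      cd := ?_
      ss := rd_sm (hr := hr) (rd_sub (hr := hr) (rd_add (hr := hr) (rd_mul (hr := hr) rS rS) rE)
        (rd_one (hr := hr))) ?_
      se := rd_sm (hr := hr) (rd_mul (hr := hr) rS rE) (hc0 _ _ hI.se)
      es := rd_sm (hr := hr) (rd_mul (hr := hr) rE rS) (hc0 _ _ hI.es)
      sr := fun g => rd_sm (hr := hr) (rd_sub (hr := hr) (rd_mul (hr := hr) rS (rR g))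
        (rd_mul (hr := hr) (rR g) rS)) (hc _ _ _ _ (hI.sr g))
      sb := rd_sm (hr := hr) (rd_sub (hr := hr) (rd_add (hr := hr)
        (rd_mul (hr := hr) (rd_mul (hr := hr) (rd_tr rS) rF) rS)
        (rd_mul (hr := hr) (rd_mul (hr := hr) (rd_tr rE) rF) rE)) rF) ?_
      pp := rd_sm (hr := hr) (rd_sub (hr := hr) (rd_mul (hr := hr) rP rP) rP) (hc1 _ _ _ hI.pp)
      pe := rd_sm (hr := hr) (rd_mul (hr := hr) rP rE) (hc0 _ _ hI.pe)
      ep := rd_sm (hr := hr) (rd_mul (hr := hr) rE rP) (hc0 _ _ hI.ep)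
      pr := fun g => rd_sm (hr := hr) (rd_sub (hr := hr) (rd_mul (hr := hr) rP (rR g))
        (rd_mul (hr := hr) (rR g) rP)) (hc _ _ _ _ (hI.pr g))
      pb := rd_sm (hr := hr) (rd_mul (hr := hr) (rd_mul (hr := hr) (rd_tr rP) rF) rP) ?_
      qb := rd_sm (hr := hr) (rd_mul (hr := hr) (rd_mul (hr := hr) (rd_tr rQ) rF) rQ) ?_
      sp := rd_sm (hr := hr) (rd_sub (hr := hr) (rd_add (hr := hr) (rd_mul (hr := hr) rS rP)
        (rd_mul (hr := hr) rP rS)) rS) ?_ }
  · -- eb
    rw [hF, ← LinearMap.BilinForm.toMatrix_compLeft, ← LinearMap.BilinForm.toMatrix_compRight,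
      sub_eq_zero]
    congr 1
    exact LinearMap.ext fun x => LinearMap.ext fun y => hI.eb x y
  · -- cb
    ext i j
    rw [Matrix.add_apply, Matrix.transpose_apply, hCe, hCe]
    exact hpol _ _
  · -- cd
    intro i
    refine (hr.zero _ (rFC.1 i i)).1 ?_
    have h5 := congrFun (congrFun rFC.2 i) i
    rw [hCe, hI.cb] at h5
    exact h5
  · -- ss
    rw [← LinearMap.toMatrix_comp e e e, ← map_add, sub_eq_zero, ← LinearMap.toMatrix_id e]
    congr 1
    exact LinearMap.ext hI.ss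
  · -- sb
    rw [hb, hb, hF, ← map_add, sub_eq_zero]
    congr 1
    exact LinearMap.ext fun x => LinearMap.ext fun y => hI.sb x y
  · -- pb
    rw [hb, show B₁.comp P P = 0 from LinearMap.ext fun x => LinearMap.ext fun y => hI.pb x y,
      map_zero]
  · -- qb
    have h6 : (1 : Matrix (Fin n) (Fin n) k) - LinearMap.toMatrix e e E - LinearMap.toMatrix e e P =
        LinearMap.toMatrix e e (LinearMap.id - E - P) := by
      rw [map_sub, map_sub, LinearMap.toMatrix_id]
    rw [h6, hb, show B₁.comp (LinearMap.id - E - P) (LinearMap.id - E - P) = 0 from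
      LinearMap.ext fun x => LinearMap.ext fun y => hI.qb x y, map_zero]
  · -- sp
    rw [← LinearMap.toMatrix_comp e e e, ← LinearMap.toMatrix_comp e e e, ← map_add, sub_eq_zero]
    congr 1
    exact LinearMap.ext hI.sp

end Pool.Agent.Work.MP_787500_nt.RC
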