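import Mathlib
import Pool.Agent.Work.MP_787500_nt.RC.Defs
import Pool.Agent.Work.MP_787500_nt.RB.BNa
import Pool.Agent.Work.MP_787500_nt.RB.Basic

/-!
# RC/Mult (size M): the twist of `W` occurs, or `W` occurs a second time

`τ = sub ρ W`, `hom τ ρ` (RB/BNa). By `hom_mod_two` for `ρ` and `ρ.comp κ` (`ss_comp`): `finrank (hom τ ρ) = finrank (hom τ (ρ.comp κ)) mod 2`.
(A) If there is `f ≠ 0` in `hom τ (ρ.comp κ)`: `f` is injective (its kernel is stable, `τ` irreducible: `irr_sub`), its range `S` is stable under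
`ρ.comp κ`, so under `ρ` (`g = κ (κ g)`), and irreducible for `ρ` (`irr_comp`, `irrS_of_irr`), and `f : W ≃ S` satisfies
`f (ρ g x) = ρ (κ g) (f x)`, so `f (ρ (κ g) x) = ρ g (f x)`: `Eqv ((sub ρ W).comp κ) (sub ρ S)`.
(B) Otherwise `finrank (hom τ ρ)` is even; it is not 0 (the inclusion), so at least 2: there is `f` in `hom τ ρ` which is not a multiple of the
inclusion `i`. `f` is injective, its range `W₁` is stable and irreducible, `f : W ≃ W₁` is an equivalence. If `W ⊓ W₁ ≠ ⊥` then `W = W₁` (both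
irreducible), so `f` is an equivariant endomorphism of `W`, a scalar by `schur_scalar` (RB/Schur), a contradiction.
-/

set_option autoImplicit false
set_option linter.unusedSectionVars false

namespace Pool.Agent.Work.MP_787500_nt.RC

open Matrix Module
open Pool.Agent.Work.MP_787500_nt.RB

universe u

variable {G : Type*} [Group G] {k : Type*} [Field k] [IsAlgClosed k] [CharP k 2] {V : Type u}
  [AddCommGroup V] [Module k V] [FiniteDimensional k V] {κ : G →* G} {ρ : Representation k G V}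

omit [CharP k 2] in
private theorem m_scalar {T : Type*} [AddCommGroup T] [Module k T] [FiniteDimensional k T]
    {τ : Representation k G T} (h : Irr τ) {f : T →ₗ[k] T}
    (hf : ∀ g x, f (τ g x) = τ g (f x)) : ∃ c : k, ∀ x, f x = c • x := by
  obtain ⟨x0, hx0⟩ := h.1
  have : Nontrivial T := ⟨⟨x0, 0, hx0⟩⟩
  obtain ⟨c, hc⟩ := Module.End.exists_eigenvalue f
  refine ⟨c, fun x => ?_⟩
  have h1 : Stab τ (Module.End.eigenspace f c) := fun g x hx => by
    rw [Module.End.mem_eigenspace_iff] at hx ⊢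
    rw [hf, hx, map_smul]
  rcases h.2 _ h1 with h2 | h2
  · exact absurd h2 hc
  · exact Module.End.mem_eigenspace_iff.1 (h2 ▸ Submodule.mem_top)

omit [IsAlgClosed k] [CharP k 2] [FiniteDimensional k V] in
private theorem m_inj {T : Type*} [AddCommGroup T] [Module k T] {τ : Representation k G T}
    (h : Irr τ) {f : T →ₗ[k] V} {θ : G → G} (hf : ∀ g x, f (τ g x) = ρ (θ g) (f x))
    (h0 : f ≠ 0) : Function.Injective f := by
  have h1 : Stab τ (LinearMap.ker f) := fun g x hx => by
    rw [LinearMap.mem_ker] at hx ⊢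
    rw [hf, hx, map_zero]
  rcases h.2 _ h1 with h2 | h2
  · exact LinearMap.ker_eq_bot.1 h2
  · exact absurd (LinearMap.ker_eq_top.1 h2) h0

omit [IsAlgClosed k] [CharP k 2] [FiniteDimensional k V] in
private theorem m_range {T : Type*} [AddCommGroup T] [Module k T] {τ : Representation k G T}
    (h : Irr τ) {f : T →ₗ[k] V} {θ : G → G} (hθ : ∀ g, θ (θ g) = g)
    (hf : ∀ g x, f (τ g x) = ρ (θ g) (f x)) (h0 : f ≠ 0) : IrrS ρ (LinearMap.range f) := by
  refine ⟨?_, fun h1 => h0 (LinearMap.range_eq_bot.1 h1), fun W' hW' hle => ?_⟩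
  · rintro g _ ⟨x, rfl⟩
    refine ⟨τ (θ g) x, ?_⟩
    rw [hf, hθ]
  · have h1 : Stab τ (W'.comap f) := fun g x hx => by
      rw [Submodule.mem_comap] at hx ⊢
      rw [hf]
      exact hW' _ _ hx
    rcases h.2 _ h1 with h2 | h2
    · left
      rw [Submodule.eq_bot_iff]
      intro y hy
      obtain ⟨x, rfl⟩ := hle hy
      have h3 : x ∈ W'.comap f := hy
      rw [h2, Submodule.mem_bot] at h3
      rw [h3, map_zero]
    · right
      refine le_antisymm hle ?_
      rintro _ ⟨x, rfl⟩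
      have h3 : x ∈ W'.comap f := by
        rw [h2]
        exact Submodule.mem_top
      exact h3

theorem mult_alt (hκ : ∀ g, κ (κ g) = g) (hs : Ss ρ)
    (htr : ∀ g, LinearMap.trace k V (ρ (κ g)) = LinearMap.trace k V (ρ g)) {W : Submodule k V}
    (hW : IrrS ρ W) :
    (∃ (S : Submodule k V) (hS : IrrS ρ S), Eqv ((sub ρ W hW.1).comp κ) (sub ρ S hS.1)) ∨
      ∃ (W₁ : Submodule k V) (h₁ : IrrS ρ W₁), W ⊓ W₁ = ⊥ ∧
        Eqv (sub ρ W hW.1) (sub ρ W₁ h₁.1) := by
  classical
  have hτ : Irr (sub ρ W hW.1) := irr_sub hW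
  have hmod := hom_mod_two (τ := sub ρ W hW.1) (ρ := ρ) (ρ' := ρ.comp κ) hτ hs
    (ss_comp hκ hs) (fun g => (htr g).symm)
  by_cases hex : ∃ f ∈ hom (sub ρ W hW.1) (ρ.comp κ), f ≠ 0
  · left
    obtain ⟨f, hf, h0⟩ := hex
    have hf' : ∀ g x, f (sub ρ W hW.1 g x) = ρ (κ g) (f x) := fun g x => hf g x
    have hinj := m_inj (ρ := ρ) (θ := fun g => κ g) hτ hf' h0
    have hS := m_range (ρ := ρ) (θ := fun g => κ g) hτ hκ hf' h0
    refine ⟨LinearMap.range f, hS, LinearEquiv.ofInjective f hinj, fun g x => ?_⟩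
    apply Subtype.ext
    show f (sub ρ W hW.1 (κ g) x) = ρ g (f x)
    rw [hf', hκ]
  · right
    push Not at hex
    have hbot : hom (sub ρ W hW.1) (ρ.comp κ) = ⊥ := by
      rw [Submodule.eq_bot_iff]
      exact hex
    rw [hbot, finrank_bot] at hmod
    have hi : W.subtype ∈ hom (sub ρ W hW.1) ρ := fun _ _ => rfl
    have hi0 : W.subtype ≠ 0 := by
      intro h1
      obtain ⟨x, hx, hx0⟩ := (Submodule.ne_bot_iff W).1 hW.2.1
      exact hx0 (LinearMap.congr_fun h1 ⟨x, hx⟩)
    have hpos : finrank k (hom (sub ρ W hW.1) ρ) ≠ 0 := by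
      intro h1
      have h2 : hom (sub ρ W hW.1) ρ = ⊥ := Submodule.finrank_eq_zero.1 h1
      rw [h2, Submodule.mem_bot] at hi
      exact hi0 hi
    have htwo : ¬ finrank k (hom (sub ρ W hW.1) ρ) ≤ 1 := by
      intro h1
      have h2 : finrank k (hom (sub ρ W hW.1) ρ) % 2 = 0 % 2 := hmod
      omega
    have hf : ∃ f ∈ hom (sub ρ W hW.1) ρ, ∀ c : k, c • W.subtype ≠ f := by
      by_contra hcon
      push Not at hcon
      apply htwo
      refine finrank_le_one (⟨W.subtype, hi⟩ : hom (sub ρ W hW.1) ρ) fun w => ?_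
      obtain ⟨c, hc⟩ := hcon w.1 w.2
      exact ⟨c, Subtype.ext hc⟩
    obtain ⟨f, hf, hnc⟩ := hf
    have h0 : f ≠ 0 := by
      intro h1
      apply hnc 0
      rw [h1, zero_smul]
    have hf' : ∀ g x, f (sub ρ W hW.1 g x) = ρ (id g) (f x) := fun g x => hf g x
    have hinj := m_inj (ρ := ρ) (θ := id) hτ hf' h0
    have hS := m_range (ρ := ρ) (θ := id) hτ (fun _ => rfl) hf' h0
    refine ⟨LinearMap.range f, hS, ?_, LinearEquiv.ofInjective f hinj, fun g x => ?_⟩
    · by_contra hne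
      have h1 := (hW.2.2 _ (stab_inf hW.1 hS.1) inf_le_left).resolve_left hne
      have h2 : W ≤ LinearMap.range f := inf_eq_left.1 h1
      have h3 : W = LinearMap.range f := (hS.2.2 _ hW.1 h2).resolve_left hW.2.1
      have h4 : ∀ x, f x ∈ W := by
        intro x
        exact h3.ge ⟨x, rfl⟩
      obtain ⟨c, hc⟩ := m_scalar hτ (f := f.codRestrict W h4) (fun g x => Subtype.ext (hf g x))
      apply hnc c
      ext x
      exact (congrArg Subtype.val (hc x)).symm
    · exact Subtype.ext (hf g x)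

end Pool.Agent.Work.MP_787500_nt.RC
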