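import Mathlib
import Pool.Agent.Work.MP_787500_nt.RC.Defs
import Pool.Agent.Work.MP_787500_nt.RB.Basic
import Pool.Agent.Work.MP_787500_nt.RB.Schur

/-!
# RC/SqA (size M): an isotropic irreducible subspace equivalent to its partner (model for the graded basis: RB/PcA.lean, proved)

`V = W ⊕ U`, `φ : W ≃ U` the equivalence. Basis of `W` with weight `-1`, basis of `U` with weight `1` (as in RB/PcA): `Grd` holds for
`B' (w + u) (w' + u') = B w u' + B u w'` (the part of weight 0 of `B`: `B = 0` on `W × W` (weight -2), and the part on `U × U` (weight 2) is dropped).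
Take `C = E = 0`, `P` = the projection to `W` along `U`, `S (w + u) = φ⁻¹ u + φ w`. All relations of `InvR` are immediate except `sb`:
`B' (S x) (S y) = B' x y`, i.e. `B (φ⁻¹ u) (φ w') + B (φ w) (φ⁻¹ u') = B w u' + B u w'`: it is enough to know that `h x y = B x (φ y)` on `W` is
SYMMETRIC. `h` and `h' x y = h y x` satisfy `h (ρ g x) (ρ (κ g) y) = h x y` (`hB.dual`, `φ` equivariant, `hB.symm`, and `κ (κ g) = g` for `h'`); `h ≠ 0`
(`hW0`); so `h' = c h` by `pair_unique` (RB/Schur; `irr_sub hW` and `irr_comp`), `c * c = 1` (apply it twice), `c = 1` since the characteristic is 2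
(`(c - 1) ^ 2 = 0`).
-/

set_option autoImplicit false
set_option linter.unusedSectionVars false

namespace Pool.Agent.Work.MP_787500_nt.RC

open Matrix Module
open Pool.Agent.Work.MP_787500_nt.RB
open Pool.Agent.Work.MP_787500_nt.RP

variable {G : Type*} [Group G] {k : Type*} [Field k] [IsAlgClosed k] [CharP k 2] {V : Type*}
  [AddCommGroup V] [Module k V] [FiniteDimensional k V] {κ : G →* G} {ρ : Representation k G V}
  {B : LinearMap.BilinForm k V}

theorem hasS_sqA (hκ : ∀ g, κ (κ g) = g) (hB : TwForm κ ρ B) {W U : Submodule k V}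
    (hW : IrrS ρ W) (hU : Stab ρ U) (hc : IsCompl W U) (hi : ∀ x ∈ W, ∀ y ∈ W, B x y = 0)
    (hU0 : ∀ u ∈ U, (∀ w ∈ W, B w u = 0) → u = 0)
    (he : Eqv (sub ρ W hW.1) (sub ρ U hU)) : HasS κ ρ B := by
  classical
  obtain ⟨φ, hφ⟩ := he
  let E : (W × U) ≃ₗ[k] V := W.prodEquivOfIsCompl U hc
  have hE : ∀ (w : W) (u : U), E (w, u) = (w : V) + u := fun w u => rfl
  have hEs : ∀ x : V, ∃ (w : W) (u : U), x = E (w, u) := fun x =>
    ⟨(E.symm x).1, (E.symm x).2, (E.apply_symm_apply x).symm⟩
  have hρE : ∀ g (w : W) (u : U), ρ g (E (w, u)) = E (sub ρ W hW.1 g w, sub ρ U hU g u) := by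
    intro g w u
    rw [hE, hE, map_add]
    rfl
  -- the pairing
  let p : U →ₗ[k] Dual k W := (B.compl₁₂ W.subtype U.subtype).flip
  have hp : ∀ (u : U) (w : W), p u w = B w u := fun u w => rfl
  have hpi : Function.Injective p := by
    rw [← LinearMap.ker_eq_bot, LinearMap.ker_eq_bot']
    intro u hu
    refine Subtype.ext (hU0 u u.2 fun w hw => ?_)
    have h3 := hp u ⟨w, hw⟩
    rw [hu] at h3
    exact h3.symm
  have hW0 : ∀ w : W, (∀ u : U, B w u = 0) → w = 0 := by
    intro w hw
    refine Subtype.ext (hB.nondeg _ fun y => ?_)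
    obtain ⟨w', u', rfl⟩ := hEs y
    rw [hE, map_add, hi w w.2 w' w'.2, hw u', add_zero]
  have hdim : finrank k U = finrank k (Dual k W) := by
    rw [Subspace.dual_finrank_eq]
    exact φ.symm.finrank_eq
  let P : U ≃ₗ[k] Dual k W := LinearEquiv.ofInjectiveOfFinrankEq p hpi hdim
  have hP : ∀ (u : U) (w : W), P u w = B w u := fun u w => rfl
  -- the symmetric form on `W`
  let h : W →ₗ[k] W →ₗ[k] k := B.compl₁₂ W.subtype (U.subtype ∘ₗ φ.toLinearMap)
  have hh : ∀ x y : W, h x y = B (x : V) (φ y : V) := fun x y => rfl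
  have hh1 : ∀ g x y, h (sub ρ W hW.1 g x) (((sub ρ W hW.1).comp κ) g y) = h x y := by
    intro g x y
    have e1 : ((sub ρ W hW.1).comp κ) g y = sub ρ W hW.1 (κ g) y := rfl
    rw [e1, hh, hh, hφ, RB.sub_apply, RB.sub_apply]
    exact hB.dual g x (φ y)
  have hh2 : ∀ g x y, h.flip (sub ρ W hW.1 g x) (((sub ρ W hW.1).comp κ) g y) = h.flip x y := by
    intro g x y
    have e1 : ((sub ρ W hW.1).comp κ) g y = sub ρ W hW.1 (κ g) y := rfl
    have e2 := hB.dual (κ g) y (φ x)
    rw [hκ] at e2
    rw [e1, LinearMap.flip_apply, LinearMap.flip_apply, hh, hh, hφ, RB.sub_apply, RB.sub_apply]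
    exact e2
  have hirr := irr_sub hW
  have hh0 : h ≠ 0 := by
    intro h0
    obtain ⟨x, hx⟩ := hirr.1
    refine hx (hW0 x fun u => ?_)
    have e1 := hh x (φ.symm u)
    rw [h0, φ.apply_symm_apply] at e1
    exact e1.symm
  obtain ⟨c, hc'⟩ := pair_unique hirr (irr_comp hκ hirr) hh1 hh2 hh0
  have hc2 : ∀ x y, h y x = c * h x y := fun x y => hc' x y
  have hsym : ∀ x y, h x y = h y x := by
    have h1 : ∃ u v, h u v ≠ 0 := by
      by_contra hn
      push Not at hn
      refine hh0 (LinearMap.ext fun u => LinearMap.ext fun v => hn u v)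
    obtain ⟨u, v, huv⟩ := h1
    have h2 : h u v = c * (c * h u v) := by
      rw [← hc2 u v, ← hc2 v u]
    have h3 : c * c = 1 := by
      have h4 : (c * c - 1) * h u v = 0 := by
        rw [sub_mul, one_mul, mul_assoc, ← h2, sub_self]
      rcases mul_eq_zero.1 h4 with h5 | h5
      · exact sub_eq_zero.1 h5
      · exact absurd h5 huv
    have h6 : c = 1 := by
      have h7 : (c + 1) * (c + 1) = 0 := by
        have h8 : (c + 1) * (c + 1) = c * c + (c + c) + 1 := by ring
        rw [h8, h3, CharTwo.add_self_eq_zero, add_zero, CharTwo.add_self_eq_zero]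
      have h9 : c + 1 = 0 := by simpa using h7
      rw [← CharTwo.sub_eq_add] at h9
      exact sub_eq_zero.1 h9
    intro x y
    rw [hc2 y x, h6, one_mul]
  -- the projections and the form
  let fW : V →ₗ[k] V := W.subtype ∘ₗ LinearMap.fst k W U ∘ₗ E.symm.toLinearMap
  let fU : V →ₗ[k] V := U.subtype ∘ₗ LinearMap.snd k W U ∘ₗ E.symm.toLinearMap
  have hfW : ∀ (w : W) (u : U), fW (E (w, u)) = w := fun w u => by
    show (((E.symm (E (w, u))).1 : W) : V) = w
    rw [E.symm_apply_apply]
  have hfU : ∀ (w : W) (u : U), fU (E (w, u)) = u := fun w u => by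
    show (((E.symm (E (w, u))).2 : U) : V) = u
    rw [E.symm_apply_apply]
  have hfW' : ∀ (w : W) (u : U), fW (E (w, u)) = E (w, 0) := fun w u => by
    rw [hfW, hE]
    simp
  let B' : LinearMap.BilinForm k V := B.compl₁₂ fW fU + B.compl₁₂ fU fW
  have hB' : ∀ (w : W) (u : U) (w' : W) (u' : U),
      B' (E (w, u)) (E (w', u')) = B w u' + B u w' := by
    intro w u w' u'
    show B (fW (E (w, u))) (fU (E (w', u'))) + B (fU (E (w, u))) (fW (E (w', u'))) = _
    rw [hfW, hfU, hfW, hfU]
  let S : V →ₗ[k] V := E.toLinearMap ∘ₗ (LinearMap.prod (φ.symm.toLinearMap ∘ₗ LinearMap.snd k W U)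
    (φ.toLinearMap ∘ₗ LinearMap.fst k W U)) ∘ₗ E.symm.toLinearMap
  have hS : ∀ (w : W) (u : U), S (E (w, u)) = E (φ.symm u, φ w) := by
    intro w u
    show E (φ.symm (E.symm (E (w, u))).2, φ (E.symm (E (w, u))).1) = _
    rw [E.symm_apply_apply]
  have hφs : ∀ g (u : U), φ.symm (sub ρ U hU g u) = sub ρ W hW.1 g (φ.symm u) := by
    intro g u
    rw [LinearEquiv.symm_apply_eq, hφ, φ.apply_symm_apply]
  let bw : Basis (Fin (finrank k W)) k W := finBasis k W
  let bu : Basis (Fin (finrank k W)) k U := bw.dualBasis.map P.symm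
  let e : Basis (Fin (finrank k W) ⊕ Fin (finrank k W)) k V := (bw.prod bu).map E
  have hel : ∀ i, e (Sum.inl i) = E (bw i, 0) := fun i => by
    rw [Basis.map_apply, Basis.prod_apply]
    rfl
  have her : ∀ i, e (Sum.inr i) = E (0, bu i) := fun i => by
    rw [Basis.map_apply, Basis.prod_apply]
    rfl
  have hrl : ∀ (w : W) (u : U) i, e.repr (E (w, u)) (Sum.inl i) = bw.repr w i := fun w u i => by
    rw [Basis.map_repr, LinearEquiv.trans_apply, E.symm_apply_apply, Basis.prod_repr_inl]
  have hrr : ∀ (w : W) (u : U) i, e.repr (E (w, u)) (Sum.inr i) = bu.repr u i := fun w u i => by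
    rw [Basis.map_repr, LinearEquiv.trans_apply, E.symm_apply_apply, Basis.prod_repr_inr]
  refine ⟨Fin (finrank k W) ⊕ Fin (finrank k W), inferInstance, e,
    Sum.elim (fun _ => -1) (fun _ => 1), B', 0, 0, fW, S, ⟨?_, ?_, ?_, ?_⟩, ?_⟩
  · intro g i j hij
    rcases i with i | i <;> rcases j with j | j
    · exact absurd rfl hij
    · rw [her, hρE, hrl, map_zero, map_zero]
      rfl
    · rw [hel, hρE, hrr, map_zero, map_zero]
      rfl
    · exact absurd rfl hij
  · intro i j hij
    rcases i with i | i <;> rcases j with j | j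
    · rw [hel, hel, hE, hE]
      simp only [Submodule.coe_zero, add_zero]
      exact hi _ (bw i).2 _ (bw j).2
    · simp at hij
    · simp at hij
    · simp at hij
  · intro i j
    rcases i with i | i <;> rcases j with j | j
    · rw [hel, hel, hB']
      simp
    · rw [hel, her, hB', hE, hE]
      simp
    · rw [her, hel, hB', hE, hE]
      simp
    · rw [her, her, hB']
      simp
  · intro x hx
    obtain ⟨w, u, rfl⟩ := hEs x
    have hw : w = 0 := hW0 w fun u' => by
      have := hx (E (0, u'))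
      rw [hB'] at this
      simpa using this
    have hu : u = 0 := Subtype.ext (hU0 u u.2 fun w' hw' => by
      have := hx (E (⟨w', hw'⟩, 0))
      rw [hB'] at this
      rw [hB.symm]
      simpa using this)
    rw [hw, hu]
    exact map_zero E
  · refine
      { ee := fun x => rfl
        er := fun g x => by simp
        eb := fun x y => by simp
        ce := fun x => rfl
        ec := fun x => rfl
        cc := fun x => rfl
        cr := fun g x => by simp
        cb := fun x => by simp
        ss := fun x => ?_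
        se := fun x => by simp
        es := fun x => by simp
        sr := fun g x => ?_
        sb := fun x y => ?_
        pp := fun x => ?_
        pe := fun x => by simp
        ep := fun x => by simp
        pr := fun g x => ?_
        pb := fun x y => ?_
        qb := fun x y => ?_
        sp := fun x => ?_ }
    · obtain ⟨w, u, rfl⟩ := hEs x
      rw [hS, hS, φ.symm_apply_apply, φ.apply_symm_apply, LinearMap.zero_apply, add_zero]
    · obtain ⟨w, u, rfl⟩ := hEs x
      rw [hρE, hS, hS, hρE, hφs, hφ]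
    · obtain ⟨w, u, rfl⟩ := hEs x
      obtain ⟨w', u', rfl⟩ := hEs y
      obtain ⟨v, rfl⟩ := φ.surjective u
      obtain ⟨v', rfl⟩ := φ.surjective u'
      rw [hS, hS, hB', hB', φ.symm_apply_apply, φ.symm_apply_apply, hB.symm (φ w : V) (v' : V),
        hB.symm (φ v : V) (w' : V), ← hh, ← hh, ← hh, ← hh, hsym v w', hsym v' w]
      simp only [LinearMap.zero_apply, map_zero, add_zero]
      exact add_comm _ _
    · obtain ⟨w, u, rfl⟩ := hEs x
      rw [hfW', hfW']
    · obtain ⟨w, u, rfl⟩ := hEs x
      rw [hρE, hfW', hfW', hρE, map_zero]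
    · obtain ⟨w, u, rfl⟩ := hEs x
      obtain ⟨w', u', rfl⟩ := hEs y
      rw [hfW', hfW', hB']
      simp
    · obtain ⟨w, u, rfl⟩ := hEs x
      obtain ⟨w', u', rfl⟩ := hEs y
      have e1 : ∀ (w : W) (u : U), E (w, u) - (0 : V →ₗ[k] V) (E (w, u)) - fW (E (w, u)) =
          E (0, u) := by
        intro w u
        rw [hfW', LinearMap.zero_apply, sub_zero, ← map_sub]
        congr 1
        simp
      rw [e1, e1, hB']
      simp
    · obtain ⟨w, u, rfl⟩ := hEs x
      rw [hfW', hS, hS, hfW', ← map_add]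
      congr 1
      simp

end Pool.Agent.Work.MP_787500_nt.RC
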