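import Mathlib
import Pool.Agent.Work.MP_787500_nt.RC.Defs
import Pool.Agent.Work.MP_787500_nt.RB.Basic

/-!
# RC/SqB (size M-L): an isotropic subspace `T` with an equivariant involution that exchanges two halves, and its partner (model: RB/PcA.lean)

`V = T ⊕ U`, `T` isotropic. `π` is an equivariant projection of `T`, `σ` an equivariant involution of `T` with `σ π σ = 1 - π`
(`σ (π x) = σ x - π (σ x)`). `B : T × U → k` is a perfect pairing (`hU0`, and `hB.nondeg` with `hi`). Define `S` on `U` by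
`B t (S u) = B (σ t) u` for all `t ∈ T` and `S = σ` on `T`; define `P = π` on `T` and on `U` by `B t (P u) = B (t - π t) u` (the adjoint of `1 - π`).
(Existence and uniqueness: `U ≃ Dual k T`, as in RB/PcA, `hasData_hyp`.) `C = E = 0`. Basis of `T` with weight `-1`, basis of `U` with weight `1`,
`B' (t + u) (t' + u') = B t u' + B t' u` (the part of weight 0), as in RB/PcA.
Relations: `S S = 1` (adjoint of `σ σ = 1`), equivariance of `S`, `P` on `U`: `B t (S (ρ g u)) = B (σ t) (ρ g u) = B (ρ (κ g)⁻¹ (σ t)) u`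
(`hB.dual` for `κ g`, `κ (κ g) = g`, `hB.symm`) `= B (σ (ρ (κ g)⁻¹ t)) u = B (ρ (κ g)⁻¹ t) (S u) = B t (ρ g (S u))`. `sb`: `B (σ t) (S u) = B t u`.
`pp`: `(1 - π)` is a projection. `pb`: `B (π t) (P u) = B ((1 - π) (π t)) u = 0` and symmetry. `qb`: `B ((1 - π) t) (u - P u) = 0` for the same reason
(`B t (u - P u) = B (π t) u`). `sp` on `U`: `S P + P S = S` is the adjoint of `(1 - π) σ + σ (1 - π) = σ`, i.e. of `σ π + π σ = σ`.
-/

set_option autoImplicit false
set_option linter.unusedSectionVars false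

namespace Pool.Agent.Work.MP_787500_nt.RC

open Matrix Module
open Pool.Agent.Work.MP_787500_nt.RB
open Pool.Agent.Work.MP_787500_nt.RP

variable {G : Type*} [Group G] {k : Type*} [Field k] [CharP k 2] {V : Type*}
  [AddCommGroup V] [Module k V] [FiniteDimensional k V] {κ : G →* G} {ρ : Representation k G V}
  {B : LinearMap.BilinForm k V}

theorem hasS_sqB (hκ : ∀ g, κ (κ g) = g) (hB : TwForm κ ρ B) {T U : Submodule k V}
    (hT : Stab ρ T) (hU : Stab ρ U) (hc : IsCompl T U) (hi : ∀ x ∈ T, ∀ y ∈ T, B x y = 0)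
    (hU0 : ∀ u ∈ U, (∀ w ∈ T, B w u = 0) → u = 0) {σ π : T →ₗ[k] T}
    (hσ : ∀ x, σ (σ x) = x) (hσg : ∀ g x, σ (sub ρ T hT g x) = sub ρ T hT g (σ x))
    (hπ : ∀ x, π (π x) = π x) (hπg : ∀ g x, π (sub ρ T hT g x) = sub ρ T hT g (π x))
    (hσπ : ∀ x, σ (π x) + π (σ x) = σ x) : HasS κ ρ B := by
  classical
  let E : (T × U) ≃ₗ[k] V := T.prodEquivOfIsCompl U hc
  have hE : ∀ (w : T) (u : U), E (w, u) = (w : V) + u := fun w u => rfl
  have hEs : ∀ x : V, ∃ (w : T) (u : U), x = E (w, u) := fun x =>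
    ⟨(E.symm x).1, (E.symm x).2, (E.apply_symm_apply x).symm⟩
  have hρE : ∀ g (w : T) (u : U), ρ g (E (w, u)) = E (sub ρ T hT g w, sub ρ U hU g u) := by
    intro g w u
    rw [hE, hE, map_add]
    rfl
  -- the pairing
  let p : U →ₗ[k] Dual k T := (B.compl₁₂ T.subtype U.subtype).flip
  have hp : ∀ (u : U) (w : T), p u w = B w u := fun u w => rfl
  have hpi : Function.Injective p := by
    rw [← LinearMap.ker_eq_bot, LinearMap.ker_eq_bot']
    intro u hu
    refine Subtype.ext (hU0 u u.2 fun w hw => ?_)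
    have h3 := hp u ⟨w, hw⟩
    rw [hu] at h3
    exact h3.symm
  have hW0 : ∀ w : T, (∀ u : U, B w u = 0) → w = 0 := by
    intro w hw
    refine Subtype.ext (hB.nondeg _ fun y => ?_)
    obtain ⟨w', u', rfl⟩ := hEs y
    rw [hE, map_add, hi w w.2 w' w'.2, hw u', add_zero]
  let q : T →ₗ[k] Dual k U := B.compl₁₂ T.subtype U.subtype
  have hq : ∀ (w : T) (u : U), q w u = B w u := fun w u => rfl
  have hqi : Function.Injective q := by
    rw [← LinearMap.ker_eq_bot, LinearMap.ker_eq_bot']
    intro w hw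
    refine hW0 w fun u => ?_
    have h3 := hq w u
    rw [hw] at h3
    exact h3.symm
  have hdim : finrank k U = finrank k (Dual k T) := by
    have h3 := LinearMap.finrank_le_finrank_of_injective hpi
    have h4 := LinearMap.finrank_le_finrank_of_injective hqi
    rw [Subspace.dual_finrank_eq] at h3 h4
    rw [Subspace.dual_finrank_eq]
    exact le_antisymm h3 h4
  let P : U ≃ₗ[k] Dual k T := LinearEquiv.ofInjectiveOfFinrankEq p hpi hdim
  have hP : ∀ (u : U) (w : T), P u w = B w u := fun u w => rfl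
  have hPe : ∀ {u u' : U}, (∀ w : T, B (w : V) (u : V) = B (w : V) (u' : V)) → u = u' := by
    intro u u' h
    exact hpi (LinearMap.ext fun w => h w)
  have hinv : ∀ g y, ρ g (ρ g⁻¹ y) = y := fun g y => by
    rw [← Module.End.mul_apply, ← map_mul, mul_inv_cancel, map_one, Module.End.one_apply]
  -- adjoints
  have hadj : ∀ α : T →ₗ[k] T, ∃ β : U →ₗ[k] U,
      (∀ (w : T) (u : U), B (w : V) (β u : V) = B (α w : V) (u : V)) ∧
      ((∀ g x, α (sub ρ T hT g x) = sub ρ T hT g (α x)) →
        ∀ g u, β (sub ρ U hU g u) = sub ρ U hU g (β u)) := by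
    intro α
    have h1 : ∀ (w : T) (u : U),
        B (w : V) (((P.symm.toLinearMap ∘ₗ α.dualMap ∘ₗ P.toLinearMap) u : U) : V) =
          B (α w : V) (u : V) := by
      intro w u
      rw [← hP, ← hP]
      show P (P.symm (α.dualMap (P u))) w = _
      rw [P.apply_symm_apply]
      rfl
    refine ⟨P.symm.toLinearMap ∘ₗ α.dualMap ∘ₗ P.toLinearMap, h1, fun hα g u => ?_⟩
    refine hPe fun w => ?_
    have hd : ∀ (x y : V), B x (ρ g y) = B (ρ (κ g)⁻¹ x) y := by
      intro x y
      have h2 := hB.dual (κ g) (ρ (κ g)⁻¹ x) y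
      rw [hκ, hinv] at h2
      exact h2
    have e2 : ρ (κ g)⁻¹ (α w : V) = (α (sub ρ T hT (κ g)⁻¹ w) : V) := by
      rw [hα, RB.sub_apply]
    rw [h1, RB.sub_apply, RB.sub_apply, hd, hd, e2, ← h1, RB.sub_apply]
  obtain ⟨δ, hδ, hδρ⟩ := hadj σ
  obtain ⟨ε, hε, hερ⟩ := hadj (LinearMap.id - π)
  have hε' : ∀ (w : T) (u : U), B (w : V) (ε u : V) = B (w : V) (u : V) - B (π w : V) (u : V) := by
    intro w u
    rw [hε]
    show B ((w - π w : T) : V) (u : V) = _
    rw [Submodule.coe_sub, map_sub, LinearMap.sub_apply]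
  have hδρ' := hδρ hσg
  have hερ' := hερ (fun g x => by
    show sub ρ T hT g x - π (sub ρ T hT g x) = sub ρ T hT g (x - π x)
    rw [hπg, map_sub])
  have hδδ : ∀ u, δ (δ u) = u := fun u => hPe fun w => by rw [hδ, hδ, hσ]
  have hεε : ∀ u, ε (ε u) = ε u := fun u => hPe fun w => by
    rw [hε', hε', hε', hπ]
    ring
  have hδε : ∀ u, δ (ε u) + ε (δ u) = δ u := fun u => hPe fun w => by
    rw [Submodule.coe_add, map_add, hδ, hε', hε', hδ, hδ]
    have h1 : B ((σ (π w) : T) : V) (u : V) + B ((π (σ w) : T) : V) (u : V) =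
        B ((σ w : T) : V) (u : V) := by
      have h2 := congrArg (fun z : T => B (z : V) (u : V)) (hσπ w)
      simp only [Submodule.coe_add, map_add, LinearMap.add_apply] at h2
      exact h2
    linear_combination -h1
  have hq0 : ∀ (w : T) (u : U), B ((w - π w : T) : V) ((u - ε u : U) : V) = 0 := by
    intro w u
    have h1 : B ((w - π w : T) : V) ((u - ε u : U) : V) =
        B ((w - π w : T) : V) (u : V) - B ((w - π w : T) : V) (ε u : V) := by
      show B ((w - π w : T) : V) ((u : V) - (ε u : V)) = _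
      rw [map_sub]
    have h2 : π (w - π w) = 0 := by rw [map_sub, hπ, sub_self]
    rw [h1, hε', h2]
    simp
  let fW : V →ₗ[k] V := T.subtype ∘ₗ LinearMap.fst k T U ∘ₗ E.symm.toLinearMap
  let fU : V →ₗ[k] V := U.subtype ∘ₗ LinearMap.snd k T U ∘ₗ E.symm.toLinearMap
  have hfW : ∀ (w : T) (u : U), fW (E (w, u)) = w := fun w u => by
    show (((E.symm (E (w, u))).1 : T) : V) = w
    rw [E.symm_apply_apply]
  have hfU : ∀ (w : T) (u : U), fU (E (w, u)) = u := fun w u => by
    show (((E.symm (E (w, u))).2 : U) : V) = u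
    rw [E.symm_apply_apply]
  let B' : LinearMap.BilinForm k V := B.compl₁₂ fW fU + B.compl₁₂ fU fW
  have hB' : ∀ (w : T) (u : U) (w' : T) (u' : U),
      B' (E (w, u)) (E (w', u')) = B w u' + B u w' := by
    intro w u w' u'
    show B (fW (E (w, u))) (fU (E (w', u'))) + B (fU (E (w, u))) (fW (E (w', u'))) = _
    rw [hfW, hfU, hfW, hfU]
  let S : V →ₗ[k] V := E.toLinearMap ∘ₗ (σ.prodMap δ) ∘ₗ E.symm.toLinearMap
  have hS : ∀ (w : T) (u : U), S (E (w, u)) = E (σ w, δ u) := by
    intro w u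
    show E ((σ.prodMap δ) (E.symm (E (w, u)))) = _
    rw [E.symm_apply_apply]
    rfl
  let Q : V →ₗ[k] V := E.toLinearMap ∘ₗ (π.prodMap ε) ∘ₗ E.symm.toLinearMap
  have hQ : ∀ (w : T) (u : U), Q (E (w, u)) = E (π w, ε u) := by
    intro w u
    show E ((π.prodMap ε) (E.symm (E (w, u)))) = _
    rw [E.symm_apply_apply]
    rfl
  let bw : Basis (Fin (finrank k T)) k T := finBasis k T
  let bu : Basis (Fin (finrank k T)) k U := bw.dualBasis.map P.symm
  let e : Basis (Fin (finrank k T) ⊕ Fin (finrank k T)) k V := (bw.prod bu).map E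
  have hel : ∀ i, e (Sum.inl i) = E (bw i, 0) := fun i => by
    rw [Basis.map_apply, Basis.prod_apply]
    rfl
  have her : ∀ i, e (Sum.inr i) = E (0, bu i) := fun i => by
    rw [Basis.map_apply, Basis.prod_apply]
    rfl
  have hrl : ∀ (w : T) (u : U) i, e.repr (E (w, u)) (Sum.inl i) = bw.repr w i := fun w u i => by
    rw [Basis.map_repr, LinearEquiv.trans_apply, E.symm_apply_apply, Basis.prod_repr_inl]
  have hrr : ∀ (w : T) (u : U) i, e.repr (E (w, u)) (Sum.inr i) = bu.repr u i := fun w u i => by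
    rw [Basis.map_repr, LinearEquiv.trans_apply, E.symm_apply_apply, Basis.prod_repr_inr]
  refine ⟨Fin (finrank k T) ⊕ Fin (finrank k T), inferInstance, e,
    Sum.elim (fun _ => -1) (fun _ => 1), B', 0, 0, Q, S, ⟨?_, ?_, ?_, ?_⟩, ?_⟩
  · intro g i j hij
    rcases i with i | i <;> rcases j with j | j
    · exact absurd rfl hij
    · rw [her, hρE, hrl, map_zero, map_zero]
      rfl
    · rw [hel, hρE, hrr, map_zero, map_zero]
      rfl
    · exact absurd rfl hij
  · intro i j hij
    rcases i with i | i <;> rcases j with j | j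
    · rw [hel, hel, hE, hE]
      simp only [Submodule.coe_zero, add_zero]
      exact hi _ (bw i).2 _ (bw j).2
    · simp at hij
    · simp at hij
    · simp at hij
  · intro i j
    rcases i with i | i <;> rcases j with j | j
    · rw [hel, hel, hB']
      simp
    · rw [hel, her, hB', hE, hE]
      simp
    · rw [her, hel, hB', hE, hE]
      simp
    · rw [her, her, hB']
      simp
  · intro x hx
    obtain ⟨w, u, rfl⟩ := hEs x
    have hw : w = 0 := hW0 w fun u' => by
      have := hx (E (0, u'))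
      rw [hB'] at this
      simpa using this
    have hu : u = 0 := Subtype.ext (hU0 u u.2 fun w' hw' => by
      have := hx (E (⟨w', hw'⟩, 0))
      rw [hB'] at this
      rw [hB.symm]
      simpa using this)
    rw [hw, hu]
    exact map_zero E
  · have hsub : ∀ (w w' : T) (u u' : U), E (w, u) - E (w', u') = E (w - w', u - u') := by
      intro w w' u u'
      rw [← map_sub]
      rfl
    refine
      { ee := fun x => rfl
        er := fun g x => by simp
        eb := fun x y => by simp
        ce := fun x => rfl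
        ec := fun x => rfl
        cc := fun x => rfl
        cr := fun g x => by simp
        cb := fun x => by simp
        ss := fun x => ?_
        se := fun x => by simp
        es := fun x => rfl
        sr := fun g x => ?_
        sb := fun x y => ?_
        pp := fun x => ?_
        pe := fun x => by simp
        ep := fun x => rfl
        pr := fun g x => ?_
        pb := fun x y => ?_
        qb := fun x y => ?_
        sp := fun x => ?_ }
    · obtain ⟨w, u, rfl⟩ := hEs x
      rw [hS, hS, hσ, hδδ]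
      exact add_zero _
    · obtain ⟨w, u, rfl⟩ := hEs x
      show S (ρ g (E (w, u))) = ρ g (S (E (w, u)))
      rw [hρE, hS, hS, hρE, hσg, hδρ']
    · obtain ⟨w, u, rfl⟩ := hEs x
      obtain ⟨w', u', rfl⟩ := hEs y
      rw [hS, hS, hB', hB', hδ, hB.symm (δ u : V), hδ, hσ, hσ, hB.symm (w' : V)]
      simp
    · obtain ⟨w, u, rfl⟩ := hEs x
      rw [hQ, hQ, hπ, hεε]
    · obtain ⟨w, u, rfl⟩ := hEs x
      show Q (ρ g (E (w, u))) = ρ g (Q (E (w, u)))
      rw [hρE, hQ, hQ, hρE, hπg, hερ']
    · obtain ⟨w, u, rfl⟩ := hEs x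
      obtain ⟨w', u', rfl⟩ := hEs y
      rw [hQ, hQ, hB', hε', hB.symm (ε u : V), hε', hπ, hπ]
      ring
    · obtain ⟨w, u, rfl⟩ := hEs x
      obtain ⟨w', u', rfl⟩ := hEs y
      rw [LinearMap.zero_apply, LinearMap.zero_apply, sub_zero, sub_zero, hQ, hQ, hsub, hsub, hB',
        hq0, hB.symm _ ((w' - π w' : T) : V), hq0, add_zero]
    · obtain ⟨w, u, rfl⟩ := hEs x
      rw [hQ, hS, hS, hQ, ← map_add, Prod.mk_add_mk, hσπ, hδε]

end Pool.Agent.Work.MP_787500_nt.RC
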