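import Mathlib
import Pool.Agent.Work.MP_787500_nt.RC.Defs
import Pool.Agent.Work.MP_787500_nt.RB.Basic
import Pool.Agent.Work.MP_787500_nt.RP.Sum

/-!
# RC/Sum (size M): sums of `HasS`, the zero representation, `HasData` gives `HasS` (model: RB/Glue.lean and RP/Sum.lean, both proved)

`hasS_zero`: all maps 0, `ι = Empty`. `hasS_sum`: `Q := X.prodEquivOfIsCompl Y hc : (X × Y) ≃ V`, `ρ g (Q (x, y)) = Q (ρ g x, ρ g y)`;
basis `(e₁.prod e₂).map Q` indexed by `ι₁ ⊕ ι₂`, weights `Sum.elim a₁ a₂`, `B'` = `B₁` on `X` plus `B₂` on `Y` (0 between them), the maps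
`C (Q (x, y)) = Q (C₁ x, C₂ y)` and in the same way `E`, `P`, `S`; every relation of `InvR` for `Q (x, y)` follows from the two relations. `Grd`: as in
RP/Sum (`B (Q (x, 0)) (Q (0, y)) = 0` by `ho`, and symmetry of `B`).
`hasS_of_data`: `E = 1`, `P = S = 0`, `C` the given map (Grd.nd etc. are clauses of `HasData`).
-/

set_option autoImplicit false
set_option linter.unusedSectionVars false

namespace Pool.Agent.Work.MP_787500_nt.RC

open Matrix Module
open Pool.Agent.Work.MP_787500_nt.RB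
open Pool.Agent.Work.MP_787500_nt.RP

variable {G : Type*} [Group G] {k : Type*} [Field k] {V : Type*} [AddCommGroup V] [Module k V]
  {κ : G →* G} {ρ : Representation k G V} {B : LinearMap.BilinForm k V}

theorem hasS_zero (h : ∀ x : V, x = 0) : HasS κ ρ B := by
  have hs : Subsingleton V := ⟨fun x y => (h x).trans (h y).symm⟩
  refine ⟨Empty, inferInstance, Module.Basis.empty V, fun i => i.elim, 0, 0, 0, 0, 0,
    ⟨fun _ i => i.elim, fun i => i.elim, fun i => i.elim, fun x _ => h x⟩, ?_⟩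
  exact
    { ee := fun x => Subsingleton.elim _ _
      er := fun g x => Subsingleton.elim _ _
      eb := fun x y => rfl
      ce := fun x => Subsingleton.elim _ _
      ec := fun x => Subsingleton.elim _ _
      cc := fun x => Subsingleton.elim _ _
      cr := fun g x => Subsingleton.elim _ _
      cb := fun x => rfl
      ss := fun x => Subsingleton.elim _ _
      se := fun x => Subsingleton.elim _ _
      es := fun x => Subsingleton.elim _ _
      sr := fun g x => Subsingleton.elim _ _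
      sb := fun x y => by simp
      pp := fun x => Subsingleton.elim _ _
      pe := fun x => Subsingleton.elim _ _
      ep := fun x => Subsingleton.elim _ _
      pr := fun g x => Subsingleton.elim _ _
      pb := fun x y => rfl
      qb := fun x y => rfl
      sp := fun x => Subsingleton.elim _ _ }

theorem hasS_sum (hB : TwForm κ ρ B) {X Y : Submodule k V} (hX : Stab ρ X) (hY : Stab ρ Y)
    (hc : IsCompl X Y) (ho : ∀ x ∈ X, ∀ y ∈ Y, B x y = 0)
    (h1 : HasS κ (sub ρ X hX) (B.restrict X)) (h2 : HasS κ (sub ρ Y hY) (B.restrict Y)) :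
    HasS κ ρ B := by
  obtain ⟨ι₁, _, e₁, a₁, B₁, C₁, E₁, P₁, S₁, hg₁, i₁⟩ := h1
  obtain ⟨ι₂, _, e₂, a₂, B₂, C₂, E₂, P₂, S₂, hg₂, i₂⟩ := h2
  obtain ⟨e, a, D, hg, hD0⟩ := grd_sum hB hX hY hc ho hg₁ hg₂
  let Q : (X × Y) ≃ₗ[k] V := X.prodEquivOfIsCompl Y hc
  have hρ : ∀ (g : G) (x : X) (y : Y), ρ g (Q (x, y)) = Q (sub ρ X hX g x, sub ρ Y hY g y) := by
    intro g x y
    change ρ g ((x : V) + y) = _
    rw [map_add]
    rfl
  have hD : ∀ (x : X) (y : Y) (x' : X) (y' : Y), D (Q (x, y)) (Q (x', y')) = B₁ x x' + B₂ y y' :=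
    fun x y x' y' => hD0 x x' y y'
  let mk : (X →ₗ[k] X) → (Y →ₗ[k] Y) → (V →ₗ[k] V) := fun F₁ F₂ =>
    Q.toLinearMap.comp ((F₁.prodMap F₂).comp Q.symm.toLinearMap)
  have hmk : ∀ F₁ F₂ x y, mk F₁ F₂ (Q (x, y)) = Q (F₁ x, F₂ y) := by
    intro F₁ F₂ x y
    change Q ((F₁.prodMap F₂) (Q.symm (Q (x, y)))) = _
    rw [LinearEquiv.symm_apply_apply]
    rfl
  have hs : ∀ z : V, ∃ (x : X) (y : Y), z = Q (x, y) := by
    intro z
    obtain ⟨⟨x, y⟩, rfl⟩ := Q.surjective z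
    exact ⟨x, y, rfl⟩
  have h0 : Q ((0 : X), (0 : Y)) = 0 := map_zero Q
  refine ⟨ι₁ ⊕ ι₂, inferInstance, e, a, D, mk C₁ C₂, mk E₁ E₂, mk P₁ P₂, mk S₁ S₂, hg, ?_⟩
  constructor
  · intro z
    obtain ⟨x, y, rfl⟩ := hs z
    rw [hmk, hmk, i₁.ee, i₂.ee]
  · intro g z
    obtain ⟨x, y, rfl⟩ := hs z
    rw [hρ, hmk, hmk, hρ]
    exact congrArg Q (Prod.ext (i₁.er g x) (i₂.er g y))
  · intro z z'
    obtain ⟨x, y, rfl⟩ := hs z
    obtain ⟨x', y', rfl⟩ := hs z'
    rw [hmk, hmk, hD, hD, i₁.eb, i₂.eb]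
  · intro z
    obtain ⟨x, y, rfl⟩ := hs z
    rw [hmk, hmk, hmk, i₁.ce, i₂.ce]
  · intro z
    obtain ⟨x, y, rfl⟩ := hs z
    rw [hmk, hmk, i₁.ec, i₂.ec]
  · intro z
    obtain ⟨x, y, rfl⟩ := hs z
    rw [hmk, hmk, hmk, i₁.cc, i₂.cc]
  · intro g z
    obtain ⟨x, y, rfl⟩ := hs z
    rw [hρ, hmk, hmk, hρ]
    exact congrArg Q (Prod.ext (i₁.cr g x) (i₂.cr g y))
  · intro z
    obtain ⟨x, y, rfl⟩ := hs z
    rw [hmk, hD, i₁.cb, i₂.cb, add_zero]
  · intro z
    obtain ⟨x, y, rfl⟩ := hs z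
    rw [hmk, hmk, hmk, ← map_add, Prod.mk_add_mk, i₁.ss, i₂.ss]
  · intro z
    obtain ⟨x, y, rfl⟩ := hs z
    rw [hmk, hmk, i₁.se, i₂.se, h0]
  · intro z
    obtain ⟨x, y, rfl⟩ := hs z
    rw [hmk, hmk, i₁.es, i₂.es, h0]
  · intro g z
    obtain ⟨x, y, rfl⟩ := hs z
    rw [hρ, hmk, hmk, hρ]
    exact congrArg Q (Prod.ext (i₁.sr g x) (i₂.sr g y))
  · intro z z'
    obtain ⟨x, y, rfl⟩ := hs z
    obtain ⟨x', y', rfl⟩ := hs z'
    rw [hmk, hmk, hmk, hmk, hD, hD, hD, ← i₁.sb x x', ← i₂.sb y y']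
    ring
  · intro z
    obtain ⟨x, y, rfl⟩ := hs z
    rw [hmk, hmk, i₁.pp, i₂.pp]
  · intro z
    obtain ⟨x, y, rfl⟩ := hs z
    rw [hmk, hmk, i₁.pe, i₂.pe, h0]
  · intro z
    obtain ⟨x, y, rfl⟩ := hs z
    rw [hmk, hmk, i₁.ep, i₂.ep, h0]
  · intro g z
    obtain ⟨x, y, rfl⟩ := hs z
    rw [hρ, hmk, hmk, hρ]
    exact congrArg Q (Prod.ext (i₁.pr g x) (i₂.pr g y))
  · intro z z'
    obtain ⟨x, y, rfl⟩ := hs z
    obtain ⟨x', y', rfl⟩ := hs z'
    rw [hmk, hmk, hD, i₁.pb, i₂.pb, add_zero]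
  · intro z z'
    obtain ⟨x, y, rfl⟩ := hs z
    obtain ⟨x', y', rfl⟩ := hs z'
    have hq : ∀ x y, Q (x, y) - mk E₁ E₂ (Q (x, y)) - mk P₁ P₂ (Q (x, y)) =
        Q (x - E₁ x - P₁ x, y - E₂ y - P₂ y) := by
      intro x y
      rw [hmk, hmk, ← map_sub, ← map_sub]
      rfl
    rw [hq, hq, hD, i₁.qb, i₂.qb, add_zero]
  · intro z
    obtain ⟨x, y, rfl⟩ := hs z
    rw [hmk, hmk, hmk, hmk, ← map_add, Prod.mk_add_mk, i₁.sp, i₂.sp]

theorem hasS_of_data (h : HasData κ ρ B) : HasS κ ρ B := by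
  obtain ⟨ι, _, e, a, B', C, p1, p2, p3, p4, p5, p6, p7⟩ := h
  refine ⟨ι, inferInstance, e, a, B', C, LinearMap.id, 0, 0, ⟨p1, p2, p3, p4⟩, ?_⟩
  exact
    { ee := fun x => rfl
      er := fun g x => rfl
      eb := fun x y => rfl
      ce := fun x => rfl
      ec := fun x => rfl
      cc := p5
      cr := p6
      cb := p7
      ss := fun x => by simp
      se := fun x => rfl
      es := fun x => rfl
      sr := fun g x => by simp
      sb := fun x y => by simp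
      pp := fun x => rfl
      pe := fun x => rfl
      ep := fun x => rfl
      pr := fun g x => by simp
      pb := fun x y => by simp
      qb := fun x y => by simp
      sp := fun x => by simp }

end Pool.Agent.Work.MP_787500_nt.RC
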