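import Mathlib
import Pool.Agent.Work.MP_787500_nt.RB.Basic
import Pool.Agent.Work.MP_787500_nt.RB.Schur
import Pool.Agent.Work.MP_787500_nt.RB.Copy
import Pool.Agent.Work.MP_787500_nt.RB.PcA
import Pool.Agent.Work.MP_787500_nt.RB.PcB
import Pool.Agent.Work.MP_787500_nt.RB.PcC
import Pool.Agent.Work.MP_787500_nt.RC.Sum
import Pool.Agent.Work.MP_787500_nt.RC.SqA
import Pool.Agent.Work.MP_787500_nt.RC.SqB
import Pool.Agent.Work.MP_787500_nt.RC.Mult
import Pool.Agent.Work.MP_787500_nt.RC.Inv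

/-!
# RC/St: THE RESIDUAL THEOREM for semisimple representations with `tr (ρ (κ g)) = tr (ρ g)`
-/

set_option autoImplicit false
set_option linter.unusedSectionVars false

namespace Pool.Agent.Work.MP_787500_nt.RC

open Matrix Module
open Pool.Agent.Work.MP_787500_nt.RB

universe u

section eqv

variable {G : Type*} [Group G] {k : Type*} [Field k] {V V' V'' : Type*} [AddCommGroup V]
  [Module k V] [AddCommGroup V'] [Module k V'] [AddCommGroup V''] [Module k V'']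
  {ρ : Representation k G V} {ρ' : Representation k G V'} {ρ'' : Representation k G V''}

private theorem eqv_symm (h : Eqv ρ ρ') : Eqv ρ' ρ := by
  obtain ⟨φ, h⟩ := h
  refine ⟨φ.symm, fun g x => ?_⟩
  rw [LinearEquiv.symm_apply_eq, h, LinearEquiv.apply_symm_apply]

private theorem eqv_trans (h : Eqv ρ ρ') (h' : Eqv ρ' ρ'') : Eqv ρ ρ'' := by
  obtain ⟨φ, h⟩ := h
  obtain ⟨φ', h'⟩ := h'
  exact ⟨φ.trans φ', fun g x => by rw [LinearEquiv.trans_apply, LinearEquiv.trans_apply, h, h']⟩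

private theorem pair_equiv {W : Type*} [AddCommGroup W] [Module k W] [FiniteDimensional k V]
    [FiniteDimensional k W] (B : V →ₗ[k] W →ₗ[k] k) (m1 : ∀ x, (∀ y, B x y = 0) → x = 0)
    (m2 : ∀ y, (∀ x, B x y = 0) → y = 0) : ∃ e : W ≃ₗ[k] (V →ₗ[k] k), ∀ y x, e y x = B x y := by
  have i1 : Function.Injective B := (injective_iff_map_eq_zero B).2 fun x hx =>
    m1 x fun y => by rw [hx, LinearMap.zero_apply]
  have i2 : Function.Injective B.flip := (injective_iff_map_eq_zero B.flip).2 fun y hy =>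
    m2 y fun x => by rw [← LinearMap.flip_apply, hy, LinearMap.zero_apply]
  have d1 : finrank k V ≤ finrank k W := by
    have := LinearMap.finrank_le_finrank_of_injective i1
    rwa [show finrank k (W →ₗ[k] k) = finrank k W from Subspace.dual_finrank_eq] at this
  have d2 : finrank k W ≤ finrank k V := by
    have := LinearMap.finrank_le_finrank_of_injective i2
    rwa [show finrank k (V →ₗ[k] k) = finrank k V from Subspace.dual_finrank_eq] at this
  have d3 : finrank k W = finrank k (V →ₗ[k] k) := by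
    rw [show finrank k (V →ₗ[k] k) = finrank k V from Subspace.dual_finrank_eq]
    exact le_antisymm d2 d1
  exact ⟨LinearMap.linearEquivOfInjective B.flip i2 d3, fun y x => rfl⟩

private theorem eqv_of_pair [FiniteDimensional k V] [FiniteDimensional k V']
    [FiniteDimensional k V''] {B₁ : V →ₗ[k] V' →ₗ[k] k} {B₂ : V →ₗ[k] V'' →ₗ[k] k}
    (h1 : ∀ g x y, B₁ (ρ g x) (ρ' g y) = B₁ x y) (h2 : ∀ g x y, B₂ (ρ g x) (ρ'' g y) = B₂ x y)
    (n1 : ∀ x, (∀ y, B₁ x y = 0) → x = 0) (n1' : ∀ y, (∀ x, B₁ x y = 0) → y = 0)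
    (n2 : ∀ x, (∀ y, B₂ x y = 0) → x = 0) (n2' : ∀ y, (∀ x, B₂ x y = 0) → y = 0) :
    Eqv ρ' ρ'' := by
  obtain ⟨e₁, he₁⟩ := pair_equiv B₁ n1 n1'
  obtain ⟨e₂, he₂⟩ := pair_equiv B₂ n2 n2'
  have ha : ∀ x y, B₂ x (e₂.symm (e₁ y)) = B₁ x y := by
    intro x y
    rw [← he₂, LinearEquiv.apply_symm_apply, he₁]
  refine ⟨e₁.trans e₂.symm, fun g y => ?_⟩
  rw [LinearEquiv.trans_apply, LinearEquiv.trans_apply, LinearEquiv.symm_apply_eq]
  refine LinearMap.ext fun x => ?_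
  rw [he₂, he₁]
  have hx : ρ g (ρ g⁻¹ x) = x := by
    rw [← Module.End.mul_apply, ← map_mul, mul_inv_cancel, map_one, Module.End.one_apply]
  rw [← hx, h1, h2, ha]

end eqv

variable {G : Type*} [Group G] {k : Type*} [Field k]

section basic

variable {V : Type u} [AddCommGroup V] [Module k V] {κ : G →* G} {ρ : Representation k G V}
  {B : LinearMap.BilinForm k V}

private theorem stab_map_subtype {X : Submodule k V} (hX : Stab ρ X) {U : Submodule k X}
    (hU : Stab (sub ρ X hX) U) : Stab ρ (U.map X.subtype) := by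
  rintro g _ ⟨u, hu, rfl⟩
  exact ⟨sub ρ X hX g u, hU g u hu, rfl⟩

private theorem stab_comap' {X W : Submodule k V} (hX : Stab ρ X) (hW : Stab ρ W) :
    Stab (sub ρ X hX) (W.comap X.subtype) := fun g x hx => hW g x hx

private theorem irrS_comap {X W : Submodule k V} (hX : Stab ρ X) (hW : IrrS ρ W) (hle : W ≤ X) :
    IrrS (sub ρ X hX) (W.comap X.subtype) := by
  have h1 := Submodule.map_comap_subtype X W
  rw [inf_eq_right.2 hle] at h1
  refine ⟨stab_comap' hX hW.1, fun h => ?_, fun W' h2 h3 => ?_⟩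
  · rw [h, Submodule.map_bot] at h1
    exact hW.2.1 h1.symm
  · rcases hW.2.2 (W'.map X.subtype) (stab_map_subtype hX h2)
      (by rw [← h1]; exact Submodule.map_mono h3) with h4 | h4
    · left
      refine Submodule.map_injective_of_injective X.subtype_injective ?_
      rw [h4, Submodule.map_bot]
    · right
      refine Submodule.map_injective_of_injective X.subtype_injective ?_
      rw [h4, h1]

private theorem eqv_comap {X W : Submodule k V} (hX : Stab ρ X) (hW : Stab ρ W) (hle : W ≤ X) :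
    Eqv (sub (sub ρ X hX) (W.comap X.subtype) (stab_comap' hX hW)) (sub ρ W hW) :=
  ⟨Submodule.comapSubtypeEquivOfLe hle, fun _ _ => rfl⟩

private theorem eqv_comp {V' : Type u} [AddCommGroup V'] [Module k V']
    {ρ' : Representation k G V'} (h : Eqv ρ ρ') : Eqv (ρ.comp κ) (ρ'.comp κ) := by
  obtain ⟨φ, h⟩ := h
  exact ⟨φ, fun g x => h (κ g) x⟩

private theorem isCompl_comap {W U : Submodule k V} (hd : W ⊓ U = ⊥) :
    IsCompl (W.comap (W ⊔ U).subtype) (U.comap (W ⊔ U).subtype) := by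
  refine ⟨?_, ?_⟩
  · rw [Submodule.disjoint_def]
    intro x hx hx'
    have h1 : (x : V) ∈ W ⊓ U := ⟨hx, hx'⟩
    rw [hd] at h1
    exact Subtype.ext h1
  · rw [codisjoint_iff, eq_top_iff]
    intro x _
    obtain ⟨w, hw, u, hu, h1⟩ := Submodule.mem_sup.1 x.2
    refine Submodule.mem_sup.2 ⟨⟨w, Submodule.mem_sup_left hw⟩, hw,
      ⟨u, Submodule.mem_sup_right hu⟩, hu, Subtype.ext h1⟩

private theorem eqv_of_eq {W W' : Submodule k V} (h : W = W') (hW : Stab ρ W) (hW' : Stab ρ W') :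
    Eqv (sub ρ W hW) (sub ρ W' hW') := by
  subst h
  exact ⟨LinearEquiv.refl k W, fun _ _ => rfl⟩

private theorem irrS_inf {W W' : Submodule k V} (hW : IrrS ρ W) (hW' : IrrS ρ W') :
    W ⊓ W' = ⊥ ∨ W = W' := by
  rcases hW.2.2 _ (stab_inf hW.1 hW'.1) inf_le_left with h1 | h1
  · exact Or.inl h1
  · rcases hW'.2.2 _ (stab_inf hW.1 hW'.1) inf_le_right with h2 | h2
    · exact Or.inl h2
    · exact Or.inr (h1.symm.trans h2)

/-- the partner of an isotropic stable subspace -/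
private theorem partner [FiniteDimensional k V] (hκ : ∀ g, κ (κ g) = g) (hB : TwForm κ ρ B)
    (hs : Ss ρ) {W : Submodule k V} (hW : Stab ρ W) (hi : ∀ x ∈ W, ∀ y ∈ W, B x y = 0) :
    ∃ U : Submodule k V, Stab ρ U ∧ W ⊓ U = ⊥ ∧
      (∀ u ∈ U, (∀ w ∈ W, B w u = 0) → u = 0) ∧
      (∀ w ∈ W, (∀ u ∈ U, B w u = 0) → w = 0) := by
  obtain ⟨U, hU, hc⟩ := hs _ (stab_orth hκ hB hW)
  have h1 : ∀ u ∈ U, (∀ w ∈ W, B w u = 0) → u = 0 := fun u hu h =>
    Submodule.disjoint_def.1 hc.1 u h hu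
  refine ⟨U, hU, ?_, h1, ?_⟩
  · rw [eq_bot_iff]
    exact fun x hx => h1 x hx.2 fun w hw => hi w hw x hx.1
  · intro w hw h
    refine hB.nondeg w fun y => ?_
    have h2 : y ∈ B.orthogonal W ⊔ U := by
      rw [codisjoint_iff.1 hc.2]
      exact Submodule.mem_top
    obtain ⟨a, ha, b, hb, rfl⟩ := Submodule.mem_sup.1 h2
    rw [map_add, show B w a = 0 from ha w hw, h b hb, add_zero]

private theorem nondeg_partner (hB : TwForm κ ρ B) {W U : Submodule k V}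
    (hi : ∀ x ∈ W, ∀ y ∈ W, B x y = 0) (h1 : ∀ u ∈ U, (∀ w ∈ W, B w u = 0) → u = 0)
    (h2 : ∀ w ∈ W, (∀ u ∈ U, B w u = 0) → w = 0) :
    ∀ x ∈ W ⊔ U, (∀ y ∈ W ⊔ U, B x y = 0) → x = 0 := by
  intro x hx h
  obtain ⟨w, hw, u, hu, rfl⟩ := Submodule.mem_sup.1 hx
  have h3 : u = 0 := h1 u hu fun w' hw' => by
    have h4 := h w' (Submodule.mem_sup_left hw')
    rw [map_add, LinearMap.add_apply, hi w hw w' hw', zero_add, hB.symm] at h4
    exact h4
  rw [h3, add_zero] at h ⊢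
  exact h2 w hw fun u' hu' => h u' (Submodule.mem_sup_right hu')

end basic

variable [IsAlgClosed k] [CharP k 2] {V : Type u}
  [AddCommGroup V] [Module k V] [FiniteDimensional k V] {κ : G →* G}

section steps

variable {ρ : Representation k G V} {B : LinearMap.BilinForm k V}

/-- the pieces -/
private def Piece (κ : G →* G) (ρ : Representation k G V) (B : LinearMap.BilinForm k V) : Prop :=
  ∃ (X : Submodule k V) (hX : Stab ρ X), X ≠ ⊥ ∧ (∀ x ∈ X, (∀ y ∈ X, B x y = 0) → x = 0) ∧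
    HasS κ (sub ρ X hX) (B.restrict X)

private theorem step_hyp (hκ : ∀ g, κ (κ g) = g) (hB : TwForm κ ρ B) (hs : Ss ρ)
    {W : Submodule k V} (hW : Stab ρ W) (h0 : W ≠ ⊥) (hi : ∀ x ∈ W, ∀ y ∈ W, B x y = 0)
    {γ : W →ₗ[k] W} (h2 : ∀ x, γ (γ x) = x)
    (hγ : ∀ g x, γ (sub ρ W hW (κ g) x) = sub ρ W hW g (γ x)) : Piece κ ρ B := by
  obtain ⟨U, hU, hd, hU0, hW0⟩ := partner hκ hB hs hW hi
  have hnd := nondeg_partner hB hi hU0 hW0
  have hX : Stab ρ (W ⊔ U) := stab_sup hW hU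
  have hle : W ≤ W ⊔ U := le_sup_left
  refine ⟨W ⊔ U, hX, fun h => h0 (le_bot_iff.1 (h ▸ hle)), hnd, ?_⟩
  let q : (W.comap (W ⊔ U).subtype) ≃ₗ[k] W := Submodule.comapSubtypeEquivOfLe hle
  have hq : ∀ g x, q (sub (sub ρ (W ⊔ U) hX) (W.comap (W ⊔ U).subtype) (stab_comap' hX hW) g x) =
      sub ρ W hW g (q x) := fun g x => rfl
  refine hasS_of_data (hasData_hyp hκ (twForm_sub hB hX hnd) (stab_comap' hX hW) (stab_comap' hX hU)
    (isCompl_comap hd) (fun x hx y hy => hi x hx y hy)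
    (fun u hu h => Subtype.ext (hU0 u hu fun w hw => h ⟨w, hle hw⟩ hw))
    (γ := q.symm.toLinearMap.comp (γ.comp q.toLinearMap)) ?_ ?_)
  · intro x
    change q.symm (γ (q (q.symm (γ (q x))))) = x
    rw [LinearEquiv.apply_symm_apply, h2, LinearEquiv.symm_apply_apply]
  · intro g x
    change q.symm (γ (q _)) = sub (sub ρ (W ⊔ U) hX) _ _ g (q.symm (γ (q x)))
    rw [LinearEquiv.symm_apply_eq, hq, hq, hγ, LinearEquiv.apply_symm_apply]

private theorem step_alt (hκ : ∀ g, κ (κ g) = g) (hB : TwForm κ ρ B) (hs : Ss ρ)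
    {W : Submodule k V} (hW : Stab ρ W) (h0 : W ≠ ⊥) (hi : ∀ x ∈ W, ∀ y ∈ W, B x y = 0)
    {h : LinearMap.BilinForm k W} (ha : ∀ x, h x x = 0) (hn : ∀ x, (∀ y, h x y = 0) → x = 0)
    (hh : ∀ g x y, h (sub ρ W hW g x) (sub ρ W hW g y) = h x y) : Piece κ ρ B := by
  obtain ⟨U, hU, hd, hU0, hW0⟩ := partner hκ hB hs hW hi
  have hnd := nondeg_partner hB hi hU0 hW0
  have hX : Stab ρ (W ⊔ U) := stab_sup hW hU
  have hle : W ≤ W ⊔ U := le_sup_left
  refine ⟨W ⊔ U, hX, fun h => h0 (le_bot_iff.1 (h ▸ hle)), hnd, ?_⟩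
  let q : (W.comap (W ⊔ U).subtype) ≃ₗ[k] W := Submodule.comapSubtypeEquivOfLe hle
  have hq : ∀ g x, q (sub (sub ρ (W ⊔ U) hX) (W.comap (W ⊔ U).subtype) (stab_comap' hX hW) g x) =
      sub ρ W hW g (q x) := fun g x => rfl
  refine hasS_of_data (hasData_alt hκ (twForm_sub hB hX hnd) (stab_comap' hX hW) (stab_comap' hX hU)
    (isCompl_comap hd) (fun x hx y hy => hi x hx y hy)
    (fun u hu h => Subtype.ext (hU0 u hu fun w hw => h ⟨w, hle hw⟩ hw))
    (h := h.compl₁₂ q.toLinearMap q.toLinearMap) ?_ ?_ ?_)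
  · intro x
    exact ha (q x)
  · intro x hx
    refine q.injective ?_
    rw [map_zero]
    refine hn _ fun y => ?_
    have h3 := hx (q.symm y)
    rwa [LinearMap.compl₁₂_apply, LinearEquiv.coe_coe, LinearEquiv.apply_symm_apply] at h3
  · intro g x y
    change h (q _) (q _) = h (q x) (q y)
    rw [hq, hq, hh]

/-- an equivalence with the twist gives an involution -/
private theorem exists_invol {T : Type*} [AddCommGroup T] [Module k T] [FiniteDimensional k T]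
    {τ : Representation k G T} (hκ : ∀ g, κ (κ g) = g) (hτ : Irr τ) (h : Eqv (τ.comp κ) τ) :
    ∃ γ : T →ₗ[k] T, (∀ x, γ (γ x) = x) ∧ ∀ g x, γ (τ (κ g) x) = τ g (γ x) := by
  obtain ⟨φ, hφ⟩ := h
  have hφ' : ∀ g x, φ (τ (κ g) x) = τ g (φ x) := hφ
  obtain ⟨c, hc⟩ := schur_scalar hτ (f := φ.toLinearMap.comp φ.toLinearMap) (by
    intro g x
    change φ (φ (τ g x)) = τ g (φ (φ x))
    have h1 := hφ' (κ g) x
    rw [hκ] at h1
    rw [h1, hφ'])
  have hc' : ∀ x, φ (φ x) = c • x := hc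
  obtain ⟨x₀, hx₀⟩ := hτ.1
  have hc0 : c ≠ 0 := by
    intro h
    have h1 := hc' x₀
    rw [h, zero_smul, LinearEquiv.map_eq_zero_iff, LinearEquiv.map_eq_zero_iff] at h1
    exact hx₀ h1
  obtain ⟨d, hd⟩ := exists_sqrt c
  have hd0 : d ≠ 0 := by
    intro h
    rw [h, mul_zero] at hd
    exact hc0 hd.symm
  refine ⟨d⁻¹ • φ.toLinearMap, fun x => ?_, fun g x => ?_⟩
  · change d⁻¹ • φ (d⁻¹ • φ x) = x
    rw [map_smul, hc', smul_smul, smul_smul, ← hd]
    have h1 : d⁻¹ * d⁻¹ * (d * d) = 1 := by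
      field_simp
    rw [h1, one_smul]
  · change d⁻¹ • φ (τ (κ g) x) = τ g (d⁻¹ • φ x)
    rw [hφ', map_smul]

/-- the form `B x (ψ y)` on an irreducible `W` -/
private theorem case_sum (hκ : ∀ g, κ (κ g) = g) (hB : TwForm κ ρ B) (hs : Ss ρ)
    {W W₂ : Submodule k V} (hW : IrrS ρ W) (hW₂ : IrrS ρ W₂)
    (hi : ∀ x ∈ W, ∀ y ∈ W, B x y = 0) (hi₂ : ∀ x ∈ W₂, ∀ y ∈ W₂, B x y = 0)
    (hn : ¬ Eqv ((sub ρ W hW.1).comp κ) (sub ρ W hW.1))
    (hf : ∀ h : LinearMap.BilinForm k W,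
      (∀ g x y, h (sub ρ W hW.1 g x) (sub ρ W hW.1 g y) = h x y) → h = 0)
    (he : Eqv ((sub ρ W hW.1).comp κ) (sub ρ W₂ hW₂.1)) : Piece κ ρ B := by
  have hd : W ⊓ W₂ = ⊥ := by
    rcases irrS_inf hW hW₂ with h | h
    · exact h
    · exact absurd (eqv_trans he (eqv_of_eq h.symm hW₂.1 hW.1)) hn
  obtain ⟨ψ, hψ⟩ := he
  have hψ' : ∀ g x, (ψ (sub ρ W hW.1 (κ g) x) : V) = ρ g (ψ x) := fun g x =>
    congrArg Subtype.val (hψ g x)
  have ho : ∀ x y : W, B x (ψ y) = 0 := by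
    have h1 := hf (B.compl₁₂ W.subtype (W₂.subtype.comp ψ.toLinearMap)) (by
      intro g x y
      change B (ρ g x) (ψ (sub ρ W hW.1 g y) : V) = B x (ψ y)
      have h2 := hψ' (κ g) y
      rw [hκ] at h2
      rw [h2, hB.dual])
    intro x y
    exact congrArg (fun f : LinearMap.BilinForm k W => f x y) h1
  let J : (W × W) →ₗ[k] V := W.subtype.coprod (W₂.subtype.comp ψ.toLinearMap)
  have hJ : ∀ x y, J (x, y) = (x : V) + (ψ y : V) := fun x y => rfl
  have hJi : Function.Injective J := by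
    rw [injective_iff_map_eq_zero]
    rintro ⟨x, y⟩ h
    rw [hJ] at h
    have h1 : (x : V) ∈ W ⊓ W₂ := ⟨x.2, by
      rw [eq_neg_of_add_eq_zero_left h]
      exact W₂.neg_mem (ψ y).2⟩
    rw [hd] at h1
    have h2 : (x : V) = 0 := h1
    rw [h2, zero_add] at h
    have h3 : ψ y = 0 := Subtype.ext h
    rw [LinearEquiv.map_eq_zero_iff] at h3
    rw [h3, show x = 0 from Subtype.ext h2]
    rfl
  have hJg : ∀ g (x y : W), ρ g (J (x, y)) = J (sub ρ W hW.1 g x, sub ρ W hW.1 (κ g) y) := by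
    intro g x y
    rw [hJ, hJ, map_add, hψ']
    rfl
  have hS : Stab ρ (LinearMap.range J) := by
    rintro g _ ⟨⟨x, y⟩, rfl⟩
    exact ⟨_, (hJg g x y).symm⟩
  let E : (W × W) ≃ₗ[k] LinearMap.range J := LinearEquiv.ofInjective J hJi
  have hE : ∀ p, (E p : V) = J p := fun p => rfl
  have hEs : ∀ z : LinearMap.range J, ∃ x y, z = E (x, y) := by
    intro z
    obtain ⟨⟨x, y⟩, rfl⟩ := E.surjective z
    exact ⟨x, y, rfl⟩
  have hEg : ∀ g (x y : W), sub ρ _ hS g (E (x, y)) =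
      E (sub ρ W hW.1 g x, sub ρ W hW.1 (κ g) y) := fun g x y => Subtype.ext (hJg g x y)
  let γ : LinearMap.range J →ₗ[k] LinearMap.range J :=
    E.toLinearMap.comp ((LinearEquiv.prodComm k W W).toLinearMap.comp E.symm.toLinearMap)
  have hγ : ∀ x y, γ (E (x, y)) = E (y, x) := by
    intro x y
    change E (LinearEquiv.prodComm k W W (E.symm (E (x, y)))) = _
    rw [LinearEquiv.symm_apply_apply]
    rfl
  refine step_hyp hκ hB hs hS ?_ ?_ (γ := γ) ?_ ?_
  · obtain ⟨x, hx, h0⟩ := (Submodule.ne_bot_iff W).1 hW.2.1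
    refine (Submodule.ne_bot_iff _).2 ⟨x, ⟨(⟨x, hx⟩, 0), ?_⟩, h0⟩
    rw [hJ, map_zero]
    exact add_zero _
  · rintro _ ⟨⟨x, y⟩, rfl⟩ _ ⟨⟨x', y'⟩, rfl⟩
    rw [hJ, hJ, map_add, map_add, LinearMap.add_apply, LinearMap.add_apply,
      hi x x.2 x' x'.2, ho, hB.symm (ψ y) x', ho, hi₂ _ (ψ y).2 _ (ψ y').2]
    simp
  · intro z
    obtain ⟨x, y, rfl⟩ := hEs z
    rw [hγ, hγ]
  · intro g z
    obtain ⟨x, y, rfl⟩ := hEs z
    rw [hEg, hγ, hγ, hEg, hκ]

/-- an irreducible representation equivalent to an irreducible one -/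
private theorem irrS_of_eqv {W U : Submodule k V} (hW : IrrS ρ W) (hU : Stab ρ U)
    (h : Eqv (sub ρ W hW.1) (sub ρ U hU)) : IrrS ρ U := by
  refine irrS_of_irr hU ?_
  obtain ⟨a, ha⟩ := eqv_symm h
  have hI := irr_sub hW
  refine ⟨?_, fun Y hY => ?_⟩
  · obtain ⟨x, hx⟩ := hI.1
    exact ⟨a.symm x, fun h => hx (by rwa [LinearEquiv.map_eq_zero_iff] at h)⟩
  · have h4 : Stab (sub ρ W hW.1) (Y.map (a : U →ₗ[k] W)) := by
      rintro g _ ⟨y, hy, rfl⟩
      exact ⟨sub ρ U hU g y, hY g y hy, ha g y⟩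
    rcases hI.2 _ h4 with h5 | h5
    · exact Or.inl (Submodule.map_eq_bot_iff.1 h5)
    · right
      refine Submodule.map_injective_of_injective a.injective ?_
      change Y.map (a : U →ₗ[k] W) = (⊤ : Submodule k U).map (a : U →ₗ[k] W)
      rw [h5, Submodule.map_top]
      exact (LinearEquiv.range a).symm

/-- if `W` is not equivalent to its partner then it has no twisted form -/
private theorem form_zero (hκ : ∀ g, κ (κ g) = g) (hB : TwForm κ ρ B) {W U : Submodule k V}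
    (hW : IrrS ρ W) (hU : Stab ρ U) (hU0 : ∀ u ∈ U, (∀ w ∈ W, B w u = 0) → u = 0)
    (hW0 : ∀ w ∈ W, (∀ u ∈ U, B w u = 0) → w = 0)
    (hne : ¬ Eqv (sub ρ W hW.1) (sub ρ U hU)) {h : W →ₗ[k] W →ₗ[k] k}
    (hg : ∀ g x y, h (sub ρ W hW.1 g x) (((sub ρ W hW.1).comp κ) g y) = h x y) : h = 0 := by
  by_contra h0
  have hn := pair_nondeg (irr_sub hW) (irr_comp hκ (irr_sub hW)) hg h0
  have hUW : Eqv ((sub ρ U hU).comp κ) ((sub ρ W hW.1).comp κ) :=
    eqv_of_pair (ρ := sub ρ W hW.1) (B₁ := B.compl₁₂ W.subtype U.subtype) (B₂ := h)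
      (fun g x y => hB.dual g x y) hg
      (fun x hx => Subtype.ext (hW0 x x.2 fun u hu => hx ⟨u, hu⟩))
      (fun y hy => Subtype.ext (hU0 y y.2 fun w hw => hy ⟨w, hw⟩)) hn.1 hn.2
  obtain ⟨a, ha⟩ := hUW
  refine hne (eqv_symm ⟨a, fun g x => ?_⟩)
  have h4 := ha (κ g) x
  change a (sub ρ U hU (κ (κ g)) x) = sub ρ W hW.1 (κ (κ g)) (a x) at h4
  rwa [hκ] at h4

private theorem step_sqA (hκ : ∀ g, κ (κ g) = g) (hB : TwForm κ ρ B) {W U : Submodule k V}
    (hW : IrrS ρ W) (hU : Stab ρ U) (hd : W ⊓ U = ⊥) (hi : ∀ x ∈ W, ∀ y ∈ W, B x y = 0)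
    (hU0 : ∀ u ∈ U, (∀ w ∈ W, B w u = 0) → u = 0)
    (hW0 : ∀ w ∈ W, (∀ u ∈ U, B w u = 0) → w = 0)
    (he : Eqv (sub ρ W hW.1) (sub ρ U hU)) : Piece κ ρ B := by
  have hnd := nondeg_partner hB hi hU0 hW0
  have hX : Stab ρ (W ⊔ U) := stab_sup hW.1 hU
  have hle : W ≤ W ⊔ U := le_sup_left
  have hle' : U ≤ W ⊔ U := le_sup_right
  refine ⟨W ⊔ U, hX, fun h => hW.2.1 (le_bot_iff.1 (h ▸ hle)), hnd, ?_⟩
  refine hasS_sqA hκ (twForm_sub hB hX hnd) (irrS_comap hX hW hle) (stab_comap' hX hU)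
    (isCompl_comap hd) (fun x hx y hy => hi x hx y hy)
    (fun u hu h => Subtype.ext (hU0 u hu fun w hw => h ⟨w, hle hw⟩ hw)) ?_
  exact eqv_trans (eqv_comap hX hW.1 hle) (eqv_trans he (eqv_symm (eqv_comap hX hU hle')))

private theorem step_sqB (hκ : ∀ g, κ (κ g) = g) (hB : TwForm κ ρ B) (hs : Ss ρ)
    {T : Submodule k V} (hT : Stab ρ T) (h0 : T ≠ ⊥) (hi : ∀ x ∈ T, ∀ y ∈ T, B x y = 0)
    {σ π : T →ₗ[k] T} (hσ : ∀ x, σ (σ x) = x)
    (hσg : ∀ g x, σ (sub ρ T hT g x) = sub ρ T hT g (σ x))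
    (hπ : ∀ x, π (π x) = π x) (hπg : ∀ g x, π (sub ρ T hT g x) = sub ρ T hT g (π x))
    (hσπ : ∀ x, σ (π x) + π (σ x) = σ x) : Piece κ ρ B := by
  obtain ⟨U, hU, hd, hU0, hW0⟩ := partner hκ hB hs hT hi
  have hnd := nondeg_partner hB hi hU0 hW0
  have hX : Stab ρ (T ⊔ U) := stab_sup hT hU
  have hle : T ≤ T ⊔ U := le_sup_left
  refine ⟨T ⊔ U, hX, fun h => h0 (le_bot_iff.1 (h ▸ hle)), hnd, ?_⟩
  let q : (T.comap (T ⊔ U).subtype) ≃ₗ[k] T := Submodule.comapSubtypeEquivOfLe hle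
  have hq : ∀ g x, q (sub (sub ρ (T ⊔ U) hX) (T.comap (T ⊔ U).subtype) (stab_comap' hX hT) g x) =
      sub ρ T hT g (q x) := fun g x => rfl
  refine hasS_sqB hκ (twForm_sub hB hX hnd) (stab_comap' hX hT) (stab_comap' hX hU)
    (isCompl_comap hd) (fun x hx y hy => hi x hx y hy)
    (fun u hu h => Subtype.ext (hU0 u hu fun w hw => h ⟨w, hle hw⟩ hw))
    (σ := q.symm.toLinearMap.comp (σ.comp q.toLinearMap))
    (π := q.symm.toLinearMap.comp (π.comp q.toLinearMap)) ?_ ?_ ?_ ?_ ?_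
  · intro x
    change q.symm (σ (q (q.symm (σ (q x))))) = x
    rw [LinearEquiv.apply_symm_apply, hσ, LinearEquiv.symm_apply_apply]
  · intro g x
    change q.symm (σ (q _)) = sub (sub ρ (T ⊔ U) hX) _ _ g (q.symm (σ (q x)))
    rw [LinearEquiv.symm_apply_eq, hq, hq, hσg, LinearEquiv.apply_symm_apply]
  · intro x
    change q.symm (π (q (q.symm (π (q x))))) = q.symm (π (q x))
    rw [LinearEquiv.apply_symm_apply, hπ]
  · intro g x
    change q.symm (π (q _)) = sub (sub ρ (T ⊔ U) hX) _ _ g (q.symm (π (q x)))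
    rw [LinearEquiv.symm_apply_eq, hq, hq, hπg, LinearEquiv.apply_symm_apply]
  · intro x
    change q.symm (σ (q (q.symm (π (q x))))) + q.symm (π (q (q.symm (σ (q x))))) = q.symm (σ (q x))
    rw [LinearEquiv.apply_symm_apply, LinearEquiv.apply_symm_apply, ← map_add, hσπ]

/-- two copies of an irreducible isotropic subspace, orthogonal to each other -/
private theorem case_dbl (hκ : ∀ g, κ (κ g) = g) (hB : TwForm κ ρ B) (hs : Ss ρ)
    {W W₁ : Submodule k V} (hW : IrrS ρ W) (hW₁ : IrrS ρ W₁) (hd : W ⊓ W₁ = ⊥)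
    (hi : ∀ x ∈ W, ∀ y ∈ W, B x y = 0)
    (hf : ∀ h : W →ₗ[k] W →ₗ[k] k,
      (∀ g x y, h (sub ρ W hW.1 g x) (((sub ρ W hW.1).comp κ) g y) = h x y) → h = 0)
    (he : Eqv (sub ρ W hW.1) (sub ρ W₁ hW₁.1)) : Piece κ ρ B := by
  obtain ⟨ψ, hψ⟩ := he
  have hψ' : ∀ g x, (ψ (sub ρ W hW.1 g x) : V) = ρ g (ψ x) := fun g x =>
    congrArg Subtype.val (hψ g x)
  have ho : ∀ x y : W, B x (ψ y) = 0 := by
    have h1 := hf (B.compl₁₂ W.subtype (W₁.subtype.comp ψ.toLinearMap)) (by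
      intro g x y
      change B (ρ g x) (ψ (sub ρ W hW.1 (κ g) y) : V) = B x (ψ y)
      rw [hψ', hB.dual])
    intro x y
    exact congrArg (fun f : W →ₗ[k] W →ₗ[k] k => f x y) h1
  have hi₁ : ∀ x y : W, B (ψ x) (ψ y) = 0 := by
    have h1 := hf (B.compl₁₂ (W₁.subtype.comp ψ.toLinearMap) (W₁.subtype.comp ψ.toLinearMap)) (by
      intro g x y
      change B (ψ (sub ρ W hW.1 g x) : V) (ψ (sub ρ W hW.1 (κ g) y) : V) = B (ψ x) (ψ y)
      rw [hψ', hψ', hB.dual])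
    intro x y
    exact congrArg (fun f : W →ₗ[k] W →ₗ[k] k => f x y) h1
  let J : (W × W) →ₗ[k] V := W.subtype.coprod (W₁.subtype.comp ψ.toLinearMap)
  have hJ : ∀ x y, J (x, y) = (x : V) + (ψ y : V) := fun x y => rfl
  have hJi : Function.Injective J := by
    rw [injective_iff_map_eq_zero]
    rintro ⟨x, y⟩ h
    rw [hJ] at h
    have h1 : (x : V) ∈ W ⊓ W₁ := ⟨x.2, by
      rw [eq_neg_of_add_eq_zero_left h]
      exact W₁.neg_mem (ψ y).2⟩
    rw [hd] at h1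
    have h2 : (x : V) = 0 := h1
    rw [h2, zero_add] at h
    have h3 : ψ y = 0 := Subtype.ext h
    rw [LinearEquiv.map_eq_zero_iff] at h3
    rw [h3, show x = 0 from Subtype.ext h2]
    rfl
  have hJg : ∀ g (x y : W), ρ g (J (x, y)) = J (sub ρ W hW.1 g x, sub ρ W hW.1 g y) := by
    intro g x y
    rw [hJ, hJ, map_add, hψ']
    rfl
  have hS : Stab ρ (LinearMap.range J) := by
    rintro g _ ⟨⟨x, y⟩, rfl⟩
    exact ⟨_, (hJg g x y).symm⟩
  let E : (W × W) ≃ₗ[k] LinearMap.range J := LinearEquiv.ofInjective J hJi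
  have hE : ∀ p, (E p : V) = J p := fun p => rfl
  have hEs : ∀ z : LinearMap.range J, ∃ x y, z = E (x, y) := by
    intro z
    obtain ⟨⟨x, y⟩, rfl⟩ := E.surjective z
    exact ⟨x, y, rfl⟩
  have hEg : ∀ g (x y : W), sub ρ _ hS g (E (x, y)) =
      E (sub ρ W hW.1 g x, sub ρ W hW.1 g y) := fun g x y => Subtype.ext (hJg g x y)
  let σ : LinearMap.range J →ₗ[k] LinearMap.range J :=
    E.toLinearMap.comp ((LinearEquiv.prodComm k W W).toLinearMap.comp E.symm.toLinearMap)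
  have hσ : ∀ x y, σ (E (x, y)) = E (y, x) := by
    intro x y
    change E (LinearEquiv.prodComm k W W (E.symm (E (x, y)))) = _
    rw [LinearEquiv.symm_apply_apply]
    rfl
  let π : LinearMap.range J →ₗ[k] LinearMap.range J :=
    E.toLinearMap.comp (((LinearMap.inl k W W).comp (LinearMap.fst k W W)).comp E.symm.toLinearMap)
  have hπ : ∀ x y, π (E (x, y)) = E (x, 0) := by
    intro x y
    change E (((LinearMap.inl k W W).comp (LinearMap.fst k W W)) (E.symm (E (x, y)))) = _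
    rw [LinearEquiv.symm_apply_apply]
    rfl
  refine step_sqB hκ hB hs hS ?_ ?_ (σ := σ) (π := π) ?_ ?_ ?_ ?_ ?_
  · obtain ⟨x, hx, h0⟩ := (Submodule.ne_bot_iff W).1 hW.2.1
    refine (Submodule.ne_bot_iff _).2 ⟨x, ⟨(⟨x, hx⟩, 0), ?_⟩, h0⟩
    rw [hJ, map_zero]
    exact add_zero _
  · rintro _ ⟨⟨x, y⟩, rfl⟩ _ ⟨⟨x', y'⟩, rfl⟩
    rw [hJ, hJ, map_add, map_add, LinearMap.add_apply, LinearMap.add_apply,
      hi x x.2 x' x'.2, ho, hB.symm (ψ y) x', ho, hi₁]
    simp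
  · intro z
    obtain ⟨x, y, rfl⟩ := hEs z
    rw [hσ, hσ]
  · intro g z
    obtain ⟨x, y, rfl⟩ := hEs z
    rw [hEg, hσ, hσ, hEg]
  · intro z
    obtain ⟨x, y, rfl⟩ := hEs z
    rw [hπ, hπ]
  · intro g z
    obtain ⟨x, y, rfl⟩ := hEs z
    rw [hEg, hπ, hπ, hEg, map_zero]
  · intro z
    obtain ⟨x, y, rfl⟩ := hEs z
    rw [hπ, hσ, hσ, hπ, ← map_add, Prod.mk_add_mk, zero_add, add_zero]

/-- CASE I -/
private theorem case_one (hκ : ∀ g, κ (κ g) = g) (hB : TwForm κ ρ B) (hs : Ss ρ)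
    (htr : ∀ g, LinearMap.trace k V (ρ (κ g)) = LinearMap.trace k V (ρ g))
    {W : Submodule k V} (hW : IrrS ρ W) (hi : ∀ x ∈ W, ∀ y ∈ W, B x y = 0) : Piece κ ρ B := by
  by_cases h1 : Eqv ((sub ρ W hW.1).comp κ) (sub ρ W hW.1)
  · obtain ⟨γ, hγ, hγ'⟩ := exists_invol hκ (irr_sub hW) h1
    exact step_hyp hκ hB hs hW.1 hW.2.1 hi hγ hγ'
  by_cases h2 : ∀ h : LinearMap.BilinForm k W,
      (∀ g x y, h (sub ρ W hW.1 g x) (sub ρ W hW.1 g y) = h x y) → h = 0
  swap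
  · push Not at h2
    obtain ⟨h, hh, h0⟩ := h2
    have ht : ¬ TrivA (sub ρ W hW.1) := by
      intro ht
      refine h1 ⟨LinearEquiv.refl k W, fun g x => ?_⟩
      change sub ρ W hW.1 (κ g) x = sub ρ W hW.1 g x
      rw [ht, ht]
    exact step_alt hκ hB hs hW.1 hW.2.1 hi (h := h) (fong (irr_sub hW) hh ht)
      (pair_nondeg (irr_sub hW) (irr_sub hW) hh h0).1 hh
  obtain ⟨U, hU, hd, hU0, hW0⟩ := partner hκ hB hs hW.1 hi
  by_cases h3 : Eqv (sub ρ W hW.1) (sub ρ U hU)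
  · exact step_sqA hκ hB hW hU hd hi hU0 hW0 h3
  have hf : ∀ h : W →ₗ[k] W →ₗ[k] k,
      (∀ g x y, h (sub ρ W hW.1 g x) (((sub ρ W hW.1).comp κ) g y) = h x y) → h = 0 :=
    fun h hg => form_zero hκ hB hW hU hU0 hW0 h3 hg
  rcases mult_alt hκ hs htr hW with ⟨S, hS, he⟩ | ⟨W₁, h₁, hd₁, he⟩
  · refine case_sum hκ hB hs hW hS hi ?_ h1 h2 he
    obtain ⟨ψ, hψ⟩ := he
    have hψ' : ∀ g x, (ψ (sub ρ W hW.1 (κ g) x) : V) = ρ g (ψ x) := fun g x =>
      congrArg Subtype.val (hψ g x)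
    have h4 := hf (B.compl₁₂ (S.subtype.comp ψ.toLinearMap) (S.subtype.comp ψ.toLinearMap)) (by
      intro g x y
      change B (ψ (sub ρ W hW.1 g x) : V) (ψ (sub ρ W hW.1 (κ g) y) : V) = B (ψ x) (ψ y)
      have h5 := hψ' (κ g) x
      rw [hκ] at h5
      have h6 := hB.dual (κ g) (ψ x : V) (ψ y : V)
      rw [hκ] at h6
      rw [h5, hψ', h6])
    intro x hx y hy
    obtain ⟨x', hx'⟩ := ψ.surjective ⟨x, hx⟩
    obtain ⟨y', hy'⟩ := ψ.surjective ⟨y, hy⟩
    have h5 := congrArg (fun f : W →ₗ[k] W →ₗ[k] k => f x' y') h4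
    have h6 : B (ψ x' : V) (ψ y' : V) = 0 := h5
    rwa [hx', hy'] at h6
  · exact case_dbl hκ hB hs hW h₁ hd₁ hi hf he

/-- CASE II -/
private theorem case_two (hκ : ∀ g, κ (κ g) = g) (hB : TwForm κ ρ B) (hs : Ss ρ)
    (hn : Even (finrank k V)) (hV : ∃ x : V, x ≠ 0)
    (htr : ∀ g, LinearMap.trace k V (ρ (κ g)) = LinearMap.trace k V (ρ g))
    (hni : ∀ W : Submodule k V, IrrS ρ W → ¬ ∀ x ∈ W, ∀ y ∈ W, B x y = 0) : Piece κ ρ B := by
  have hnd : ∀ S : Submodule k V, IrrS ρ S → ∀ x ∈ S, (∀ y ∈ S, B x y = 0) → x = 0 := by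
    intro S hS x hx h
    rcases hS.2.2 _ (stab_inf hS.1 (stab_orth hκ hB hS.1)) inf_le_left with h1 | h1
    · have h2 : x ∈ S ⊓ B.orthogonal S := ⟨hx, fun y hy => by
        rw [hB.symm]
        exact h y hy⟩
      rw [h1] at h2
      exact h2
    · refine absurd ?_ (hni S hS)
      intro a ha b hb
      have h2 : b ∈ S ⊓ B.orthogonal S := h1.symm ▸ hb
      exact h2.2 a ha
  -- a nontrivial irreducible subspace
  obtain ⟨S, hS, ht⟩ : ∃ (S : Submodule k V) (hS : IrrS ρ S), ¬ TrivA (sub ρ S hS.1) := by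
    by_contra hcon
    push Not at hcon
    have hdim : ∀ (S : Submodule k V), IrrS ρ S → finrank k S = 1 := by
      intro S hS
      obtain ⟨x, hx, h0⟩ := (Submodule.ne_bot_iff S).1 hS.2.1
      have h1 : Stab ρ (Submodule.span k {x}) := by
        intro g y hy
        obtain ⟨c, rfl⟩ := Submodule.mem_span_singleton.1 hy
        rw [map_smul]
        have h2 : ρ g x = x := congrArg Subtype.val (hcon S hS g ⟨x, hx⟩)
        rw [h2]
        exact hy
      rcases hS.2.2 _ h1 (by rwa [Submodule.span_singleton_le_iff_mem]) with h2 | h2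
      · exact absurd (Submodule.span_singleton_eq_bot.1 h2) h0
      · rw [← h2]
        exact finrank_span_singleton h0
    have htop : (⊤ : Submodule k V) ≠ ⊥ := by
      obtain ⟨x, hx⟩ := hV
      exact (Submodule.ne_bot_iff _).2 ⟨x, Submodule.mem_top, hx⟩
    obtain ⟨S₁, -, hS₁⟩ := exists_irrS_le (ρ := ρ) (W := ⊤) (fun _ _ _ => Submodule.mem_top) htop
    obtain ⟨Y, hY, hc⟩ := hs S₁ hS₁.1
    have hY0 : Y ≠ ⊥ := by
      intro h
      have h1 := Submodule.finrank_add_eq_of_isCompl hc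
      rw [h, finrank_bot, hdim S₁ hS₁] at h1
      rw [← h1] at hn
      exact absurd hn (by decide)
    obtain ⟨S₂, hle, hS₂⟩ := exists_irrS_le hY hY0
    have hd : S₁ ⊓ S₂ = ⊥ := by
      rw [eq_bot_iff]
      exact fun x hx => Submodule.disjoint_def.1 hc.1 x hx.1 (hle hx.2)
    have he : Eqv (sub ρ S₁ hS₁.1) (sub ρ S₂ hS₂.1) := by
      refine ⟨LinearEquiv.ofFinrankEq _ _ (by rw [hdim S₁ hS₁, hdim S₂ hS₂]), fun g x => ?_⟩
      rw [hcon S₁ hS₁ g, hcon S₂ hS₂ g]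
    obtain ⟨W₃, h3, -, -, h5⟩ := exists_copy hκ hB hS₁ hS₂ hd he
    exact hni W₃ h3 h5
  by_cases h1 : Eqv ((sub ρ S hS.1).comp κ) (sub ρ S hS.1)
  · exact ⟨S, hS.1, hS.2.1, hnd S hS, hasS_of_data (hasData_irr hκ (twForm_sub hB hS.1
      (hnd S hS)) (irr_sub hS) ht h1)⟩
  · obtain ⟨S', hS', hE⟩ : ∃ (S' : Submodule k V) (hS' : IrrS ρ S'),
        Eqv ((sub ρ S hS.1).comp κ) (sub ρ S' hS'.1) := by
      rcases mult_alt hκ hs htr hS with h2 | ⟨W₁, h₁, hd₁, he⟩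
      · exact h2
      · obtain ⟨W₃, h3, -, -, h5⟩ := exists_copy hκ hB hS h₁ hd₁ he
        exact absurd h5 (hni W₃ h3)
    obtain ⟨ψ, hψ⟩ := hE
    have hψ' : ∀ g x, (ψ (sub ρ S hS.1 (κ g) x) : V) = ρ g (ψ x) := fun g x =>
      congrArg Subtype.val (hψ g x)
    let h : LinearMap.BilinForm k S := B.compl₁₂ S.subtype (S'.subtype.comp ψ.toLinearMap)
    have ha : ∀ x y : S, h x y = B x (ψ y) := fun x y => rfl
    have hg : ∀ g x y, h (sub ρ S hS.1 g x) (sub ρ S hS.1 g y) = h x y := by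
      intro g x y
      rw [ha, ha]
      change B (ρ g x) (ψ (sub ρ S hS.1 g y) : V) = _
      have h4 := hψ' (κ g) y
      rw [hκ] at h4
      rw [h4, hB.dual]
    have h0 : h = 0 := by
      by_contra h0
      have hn' := pair_nondeg (irr_sub hS) (irr_sub hS) hg h0
      refine h1 (eqv_of_pair (ρ := sub ρ S hS.1) (B₁ := B.restrict S) (B₂ := h)
        (fun g x y => hB.dual g x y) hg
        (fun x hx => Subtype.ext (hnd S hS x x.2 fun y hy => hx ⟨y, hy⟩))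
        (fun x hx => Subtype.ext (hnd S hS x x.2 fun y hy => by
          rw [hB.symm]
          exact hx ⟨y, hy⟩)) hn'.1 hn'.2)
    have ho : ∀ x ∈ S, ∀ y ∈ S', B x y = 0 := by
      intro x hx y hy
      obtain ⟨y', hy'⟩ := ψ.surjective ⟨y, hy⟩
      have h5 : B x (ψ y' : V) = 0 := congrArg (fun f : LinearMap.BilinForm k S => f ⟨x, hx⟩ y') h0
      rwa [hy'] at h5
    have hd : S ⊓ S' = ⊥ := by
      rw [eq_bot_iff]
      refine fun x hx => hnd S hS x hx.1 fun y hy => ?_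
      rw [hB.symm]
      exact ho y hy x hx.2
    have hX := stab_sup hS.1 hS'.1
    have hle : S ≤ S ⊔ S' := le_sup_left
    have hle' : S' ≤ S ⊔ S' := le_sup_right
    have hndX : ∀ x ∈ S ⊔ S', (∀ y ∈ S ⊔ S', B x y = 0) → x = 0 := by
      intro x hx hx'
      obtain ⟨a, ha, b, hb, rfl⟩ := Submodule.mem_sup.1 hx
      have ha0 : a = 0 := hnd S hS a ha fun y hy => by
        have h4 := hx' y (hle hy)
        rwa [map_add, LinearMap.add_apply, hB.symm b y, ho y hy b hb, add_zero] at h4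
      have hb0 : b = 0 := hnd _ hS' b hb fun y hy => by
        have h4 := hx' y (hle' hy)
        rwa [map_add, LinearMap.add_apply, ho a ha y hy, zero_add] at h4
      rw [ha0, hb0, add_zero]
    refine ⟨_, hX, fun h => hS.2.1 (le_bot_iff.1 (h ▸ hle)), hndX, hasS_of_data ?_⟩
    refine hasData_pair hκ (twForm_sub hB hX hndX) (irrS_comap hX hS hle) (irrS_comap hX hS' hle')
      (isCompl_comap hd) (fun x hx y hy => ho x hx y hy) ?_
    exact eqv_trans (eqv_comp (eqv_comap hX hS.1 hle))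
      (eqv_trans ⟨ψ, hψ⟩ (eqv_symm (eqv_comap hX hS'.1 hle')))

private theorem exists_piece (hκ : ∀ g, κ (κ g) = g) (hB : TwForm κ ρ B) (hs : Ss ρ)
    (hn : Even (finrank k V))
    (htr : ∀ g, LinearMap.trace k V (ρ (κ g)) = LinearMap.trace k V (ρ g))
    (hV : ∃ x : V, x ≠ 0) : Piece κ ρ B := by
  by_cases h1 : ∃ (W : Submodule k V), IrrS ρ W ∧ ∀ x ∈ W, ∀ y ∈ W, B x y = 0
  · obtain ⟨W, hW, hi⟩ := h1
    exact case_one hκ hB hs htr hW hi
  · exact case_two hκ hB hs hn hV htr fun W hW hi => h1 ⟨W, hW, hi⟩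

end steps

private theorem hasS_aux {G : Type*} [Group G] {k : Type*} [Field k] [IsAlgClosed k]
    [CharP k 2] {κ : G →* G} (hκ : ∀ g, κ (κ g) = g) (n : ℕ) :
    ∀ {V : Type u} [AddCommGroup V] [Module k V] [FiniteDimensional k V]
      {ρ : Representation k G V} {B : LinearMap.BilinForm k V}, TwForm κ ρ B → Ss ρ →
      Even (finrank k V) →
      (∀ g, LinearMap.trace k V (ρ (κ g)) = LinearMap.trace k V (ρ g)) →
      finrank k V = n → HasS κ ρ B := by
  induction n using Nat.strong_induction_on with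
  | _ n ih =>
  intro V _ _ _ ρ B hB hs hn h hd
  by_cases hV : ∀ x : V, x = 0
  · exact hasS_zero hV
  push Not at hV
  obtain ⟨X, hX, hX0, hnd, hdat⟩ := exists_piece hκ hB hs hn h hV
  have hY := stab_orth hκ hB hX
  have hc := isCompl_orth hB hnd
  have hfr := Submodule.finrank_add_eq_of_isCompl hc
  have hpos : 0 < finrank k X := by
    have : Nontrivial X := (Submodule.nontrivial_iff_ne_bot).2 hX0
    exact finrank_pos
  have hev := even_of_s (twForm_sub hB hX hnd) hdat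
  refine hasS_sum hB hX hY hc (fun x hx y hy => hy x hx) hdat
    (ih (finrank k (B.orthogonal X)) (by omega) (twForm_sub hB hY (nondeg_orth hB hnd))
      (ss_sub hs hY) ?_ ?_ rfl)
  · rw [← hfr, Nat.even_add] at hn
    exact hn.1 hev
  · intro g
    have h1 := h g
    rw [trace_split hX hY hc, trace_split hX hY hc g, trace_of_s hdat g] at h1
    exact add_left_cancel h1

theorem hasS (hκ : ∀ g, κ (κ g) = g) {ρ : Representation k G V} {B : LinearMap.BilinForm k V}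
    (hB : TwForm κ ρ B) (hs : Ss ρ) (hn : Even (finrank k V))
    (h : ∀ g, LinearMap.trace k V (ρ (κ g)) = LinearMap.trace k V (ρ g)) : HasS κ ρ B :=
  hasS_aux hκ _ hB hs hn h rfl

end Pool.Agent.Work.MP_787500_nt.RC
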