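import Mathlib
import Pool.Agent.Work.MP_787500_nt.RP.Main
import Pool.Agent.Work.MP_787500_nt.RC.FDefs
import Pool.Agent.Work.MP_787500_nt.RC.St
import Pool.Agent.Work.MP_787500_nt.RC.OfS
import Pool.Agent.Work.MP_787500_nt.RC.Down
import Pool.Agent.Work.MP_787500_nt.RC.LatS
import Pool.Agent.Work.MP_787500_nt.RC.Lvl
import Pool.Agent.Work.MP_787500_nt.GP.L04_Func
import Pool.Agent.Work.MP_787500_nt.RB.FDefs

/-!
# RC/Main (assembly): the decomposition at the level 1 for representations with self-dual residual traces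
-/

set_option autoImplicit false
set_option linter.unusedSectionVars false

namespace Pool.Agent.Work.MP_787500_nt.RC

open Matrix Module
open Pool.Agent.Work.MP_787500_nt.RB
open Pool.Agent.Work.MP_787500_nt.PA (toE)
open Pool.Agent.Work.MP_787500_nt.LX (mapRep mapRep_apply map_toE)
open Pool.Agent.Work.MP_787500_nt.GP

universe v

/-- self-dual characteristic polynomials have self-dual traces -/
theorem resTrace_of {G : Type*} [Group G] {E : Type*} [NormedField E] {n : ℕ}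
    {ρ : G →* Matrix (Fin n) (Fin n) E} (h : Parity.ResSelfDual ρ) : Parity.ResTrace ρ := by
  intro g
  rcases Nat.eq_zero_or_pos n with hn | hn
  · subst hn
    have h1 : ∀ M : Matrix (Fin 0) (Fin 0) E, M.trace = 0 := fun M => by simp [Matrix.trace]
    rw [h1, h1, sub_zero, norm_zero]
    exact zero_lt_one
  · have : Nonempty (Fin n) := ⟨⟨0, hn⟩⟩
    rw [Matrix.trace_eq_neg_charpoly_coeff, Matrix.trace_eq_neg_charpoly_coeff]
    have h1 := h g (Fintype.card (Fin n) - 1)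
    rw [← norm_neg] at h1
    have h2 : -(ρ g⁻¹).charpoly.coeff (Fintype.card (Fin n) - 1) -
        -(ρ g).charpoly.coeff (Fintype.card (Fin n) - 1) =
        -((ρ g⁻¹).charpoly.coeff (Fintype.card (Fin n) - 1) -
          (ρ g).charpoly.coeff (Fintype.card (Fin n) - 1)) := by ring
    rw [h2]
    exact h1

section red

variable {Ω : Type*} [NormedField Ω] [NormedAlgebra ℚ_[2] Ω] {k : Type*} [Field k] {rd : Ω → k}

theorem trace_res (hr : Red rd) {G : Type*} [Group G] {n : ℕ}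
    {ρ : G →* Matrix (Fin n) (Fin n) Ω} {b A A' : Matrix (Fin n) (Fin n) Ω}
    (h : Good (fun g => ρ g) b A A') {g g' : G} (hch : ‖(ρ g).trace - (ρ g').trace‖ < 1) :
    (resR hr h g).trace = (resR hr h g').trace := by
  have h0 : ∀ g, (resR hr h g).trace = rd (ρ g).trace ∧ ‖(ρ g).trace‖ ≤ 1 := by
    intro g
    have h1 : (ρ g).trace = (A' * ρ g * A).trace := by
      rw [Matrix.mul_assoc, Matrix.trace_mul_comm, Matrix.mul_assoc, h.inv, Matrix.mul_one]
    rw [h1, resR_apply, Matrix.trace, Matrix.trace]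
    refine ⟨?_, norm_sum_le _ _ fun i _ => h.st g i i⟩
    exact (hr.map_sum Finset.univ (fun i => (A' * ρ g * A) i i) fun i _ => h.st g i i).symm
  rw [(h0 g).1, (h0 g').1]
  exact rd_eq hr (h0 g).2 (h0 g').2 hch

/-- in a twisted form the trace of `R (κ g)` is the trace of `R g⁻¹` -/
theorem trace_kap {G : Type*} [Group G] {κ : G →* G} {n : ℕ}
    {R : G →* Matrix (Fin n) (Fin n) k} {F : Matrix (Fin n) (Fin n) k}
    (htw : TwForm κ (toRep R) (Matrix.toBilin' F)) (g : G) : (R (κ g)).trace = (R g⁻¹).trace := by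
  have h1 : (R g)ᵀ * F * R (κ g) = F := by
    ext i j
    have h2 := htw.dual g (Pi.single i 1) (Pi.single j 1)
    rw [toRep_apply, toRep_apply, Matrix.toBilin'_apply', Matrix.toBilin'_apply'] at h2
    rw [← vecMul_transpose, ← dotProduct_mulVec, mulVec_mulVec, mulVec_mulVec] at h2
    simpa [Matrix.mul_assoc] using h2
  have hFu : IsUnit F.det := by
    rw [isUnit_iff_ne_zero]
    intro h0
    obtain ⟨v, hv, hv0⟩ := Matrix.exists_mulVec_eq_zero_iff.2 h0
    refine hv (htw.nondeg v fun y => ?_)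
    rw [htw.symm, Matrix.toBilin'_apply', hv0, dotProduct_zero]
  have h3 : (R g⁻¹)ᵀ * (R g)ᵀ = 1 := by
    rw [← Matrix.transpose_mul, ← map_mul, mul_inv_cancel, map_one, Matrix.transpose_one]
  have h4 : F * R (κ g) = (R g⁻¹)ᵀ * F := by
    calc F * R (κ g) = ((R g⁻¹)ᵀ * (R g)ᵀ) * F * R (κ g) := by rw [h3, one_mul]
      _ = (R g⁻¹)ᵀ * ((R g)ᵀ * F * R (κ g)) := by noncomm_ring
      _ = _ := by rw [h1]
  have h5 : R (κ g) = F⁻¹ * ((R g⁻¹)ᵀ * F) := by
    rw [← h4, ← mul_assoc, Matrix.nonsing_inv_mul _ hFu, one_mul]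
  rw [h5, Matrix.trace_mul_comm, mul_assoc, Matrix.mul_nonsing_inv _ hFu, mul_one,
    Matrix.trace_transpose]

end red

theorem exists_goodS {G : Type*} [Group G] {S : KR.FSys G} {κ : G →* G}
    (hκ : ∀ g, κ (κ g) = g) {χ : G → ℤ_[2]} (hχ : ∀ g, (2 : ℤ_[2]) ∣ χ g - 1) {E : Type v}
    [NormedField E] [NormedAlgebra ℚ_[2] E] [FiniteDimensional ℚ_[2] E] {n : ℕ} (hn : Even n)
    {ρ : G →* Matrix (Fin n) (Fin n) E} (hρ : KR.SmallRep S (fun g => ρ g))
    {b : Matrix (Fin n) (Fin n) E} (hb : b.det ≠ 0) (hbs : bᵀ = b)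
    (hd : ∀ g, (ρ g)ᵀ * b * ρ (κ g) = toE E (χ g) • b) (hres : Parity.ResTrace ρ) :
    ∃ (E' : Type v) (_ : NormedField E') (_ : NormedAlgebra ℚ_[2] E')
      (_ : FiniteDimensional ℚ_[2] E') (ι : E →ₐ[ℚ_[2]] E')
      (A A' C E₀ P S : Matrix (Fin n) (Fin n) E'),
      GoodS κ (fun g => mapRep ι ρ g) (b.map ι) A A' C E₀ P S := by
  obtain ⟨Ω, i1, i2, ι, k, i3, rd, i4, i5, i6, i7, hr⟩ := exists_omega E
  have hfin : Algebra.IsAlgebraic ℚ_[2] E := Algebra.IsAlgebraic.of_finite ℚ_[2] E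
  have hnorm : ∀ x, ‖ι x‖ = ‖x‖ := norm_map_eq ι
  obtain ⟨A, A', hA, hD, hs, ht⟩ := RP.exists_one (ι := ι) hκ hχ hρ hb hbs hd hr
  have htr' : ∀ g, ‖(mapRep ι ρ g⁻¹).trace - (mapRep ι ρ g).trace‖ < 1 := by
    intro g
    have h1 : ∀ g, (mapRep ι ρ g).trace = ι ((ρ g).trace) := by
      intro g
      rw [Matrix.trace, Matrix.trace, map_sum]
      rfl
    rw [h1, h1, ← map_sub, hnorm]
    exact hres g
  obtain ⟨A₁, A₁', C, E₀, P, S, hG⟩ := exists_of_s (κ := κ) hr hD hA (hasS hκ ht hs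
    (by rw [Module.finrank_fin_fun]; exact hn) fun g => by
      have h1 : ∀ g, LinearMap.trace k (Fin n → k) (toRep (resR hr hA) g) = (resR hr hA g).trace :=
        fun g => Matrix.trace_toLin'_eq (resR hr hA g)
      rw [h1, h1, trace_kap ht, trace_res hr hA (htr' g)])
  exact exists_downS ι hG

/-- THE DECOMPOSITION AT THE LEVEL 1. -/
theorem exists_lev1 {G : Type*} [Group G] {S : KR.FSys G} {κ : G →* G}
    (hκ : ∀ g, κ (κ g) = g) {χ : G → ℤ_[2]} (hχ : ∀ g, (2 : ℤ_[2]) ∣ χ g - 1) {E : Type v}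
    [NormedField E] [NormedAlgebra ℚ_[2] E] [FiniteDimensional ℚ_[2] E] {n : ℕ} (hn : Even n)
    {ρ : G →* Matrix (Fin n) (Fin n) E} (hρ : KR.SmallRep S (fun g => ρ g))
    {b : Matrix (Fin n) (Fin n) E} (hb : b.det ≠ 0) (hbs : bᵀ = b)
    (hd : ∀ g, (ρ g)ᵀ * b * ρ (κ g) = toE E (χ g) • b) (hres : Parity.ResTrace ρ) :
    ∃ (E' : Type v) (_ : NormedField E') (_ : NormedAlgebra ℚ_[2] E')
      (_ : FiniteDimensional ℚ_[2] E') (ι : E →ₐ[ℚ_[2]] E') (l : OE E')
      (t : E' →ₗ[ℚ_[2]] ℚ_[2]) (L : Submodule (OE E') (Fin n → E')) (hlat : Lat (b.map ι) l t L)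
      (hst : ∀ g, ∀ x ∈ L, mapRep ι ρ g *ᵥ x ∈ L)
      (U N : Type v) (_ : AddCommGroup U) (_ : AddCommGroup N) (_ : Module (OE E') U)
      (_ : Module (OE E') N) (_ : Finite U) (_ : Finite N) (aU : G → U → U) (bU : U →+ U →+ A0)
      (aN : G → N → N) (hN : N →+ N →+ A0) (Φ : MN L l 1 ≃ₗ[OE E'] U × N × N) (C₁ : U → U),
      SplS (OE E') (actN l 1 (fun g => mapRep ι ρ g) hst) (bN hlat 1) aU bU aN hN Φ ∧
        QP.InvC κ (OE E') aU bU C₁ := by
  obtain ⟨E', j1, j2, j3, ι, A, A', C, E₀, P, S, hG⟩ := exists_goodS hκ hχ hn hρ hb hbs hd hres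
  obtain ⟨l, hl0, hl1, hlm⟩ := exists_unif E'
  obtain ⟨t, ht1, ht2, ht3⟩ := exists_func E'
  have hbs' : (b.map ι)ᵀ = b.map ι := by
    conv_rhs => rw [← hbs]
    rfl
  have hlat : Lat (b.map ι) l t (latA A') := lat_of hG.good hbs' hl0 hl1 hlm ht1 ht2 ht3
  have hst := st_of hG.good
  exact ⟨E', j1, j2, j3, ι, l, t, latA A', hlat, hst, exists_spl hG hlat hst⟩

end Pool.Agent.Work.MP_787500_nt.RC
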