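import Mathlib
import Pool.Agent.Work.MP_787500_nt.RC.Defs
import Pool.Agent.Work.MP_787500_nt.RB.Glue

/-!
# RC/Inv (size S-M): `HasS` implies even dimension and `tr (ρ (κ g)) = tr (ρ g)`; traces and direct sums

`even_of_s`: `β x y = B' x (C y) + B' (x - E x) (y - E y)` is alternating (`cb`; `x - E x = P x + Q x` with `Q = 1 - E - P`, and
`B' (P x + Q x) (P x + Q x) = B' (P x) (Q x) + B' (Q x) (P x) = 2 B' (P x) (Q x) = 0` by `pb`, `qb`, since `B'` is symmetric: `Grd.val` and `hB.symm` on the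
basis) and nondegenerate: if `β x y = 0` for all `y`, take `y = C z`: `B' x (E z) + 0 = 0` (`E (C z) = C z`), so `B' (E x) (E z) = 0`, and for
`y = z - E z` (`C y = 0` by `ce`): `B' (x - E x) (z - E z) = 0`; `B' x z` is the sum of the two (`eb`, `ee`), so `x = 0` (`Grd.nd`). A space with a
nondegenerate alternating form has even dimension (`even_alt` in RB/Glue is private: copy it).
`trace_of_s`: `tr (ρ g) = tr (ρ g E) + tr (ρ g P) + tr (ρ g Q)`. `ρ g E = ρ g C C = C ρ (κ g) C` (`cr`), so
`tr (ρ g E) = tr (ρ (κ g) C C) = tr (ρ (κ g) E)` (`LinearMap.trace_mul_comm`). `Q = S P S` (`sp`, `ss`, `es`), so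
`tr (ρ g Q) = tr (S ρ g P S) = tr (ρ g P S S) = tr (ρ g P (1 - E)) = tr (ρ g P)` and the sum of these two is `2 tr = 0`.
`trace_split`: the trace of `ρ g` is the sum of the traces on `X` and `Y` (`LinearMap.trace_prodMap`, `LinearMap.trace_conj'`, as in
`charpoly_split` of RB/Basic).
-/

set_option autoImplicit false
set_option linter.unusedSectionVars false

namespace Pool.Agent.Work.MP_787500_nt.RC

open Matrix Module
open Pool.Agent.Work.MP_787500_nt.RB
open Pool.Agent.Work.MP_787500_nt.RP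

variable {G : Type*} [Group G] {k : Type*} [Field k] [CharP k 2] {V : Type*} [AddCommGroup V]
  [Module k V] [FiniteDimensional k V] {κ : G →* G} {ρ : Representation k G V}
  {B : LinearMap.BilinForm k V}

private theorem even_alt.{v} {k : Type*} [Field k] (n : ℕ) :
    ∀ {V : Type v} [AddCommGroup V] [Module k V] [FiniteDimensional k V]
      (B : LinearMap.BilinForm k V), (∀ x, B x x = 0) → (∀ x, (∀ y, B x y = 0) → x = 0) →
      finrank k V = n → Even n := by
  induction n using Nat.strong_induction_on with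
  | _ n ih =>
  intro V _ _ _ B ha hn hd
  rcases Nat.eq_zero_or_pos n with h0 | h0
  · subst h0
    exact Even.zero
  have hsk : ∀ x y, B x y = - B y x := by
    intro x y
    have h1 := ha (x + y)
    rw [map_add, map_add, LinearMap.add_apply, LinearMap.add_apply, ha, ha, zero_add,
      add_zero] at h1
    rw [eq_neg_iff_add_eq_zero, add_comm]
    exact h1
  have hnt : Nontrivial V := finrank_pos_iff.1 (hd ▸ h0)
  obtain ⟨x, hx⟩ := exists_ne (0 : V)
  obtain ⟨y, hy⟩ : ∃ y, B x y ≠ 0 := by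
    by_contra h
    push Not at h
    exact hx (hn x h)
  have hy' : B y x ≠ 0 := fun h => hy (by rw [hsk, h, neg_zero])
  have hst : ∀ s t : k, B x (s • x + t • y) = 0 → B y (s • x + t • y) = 0 → s = 0 ∧ t = 0 := by
    intro s t h1 h2
    rw [map_add, map_smul, map_smul, ha, smul_zero, zero_add, smul_eq_mul] at h1
    rw [map_add, map_smul, map_smul, ha, smul_zero, add_zero, smul_eq_mul] at h2
    exact ⟨(mul_eq_zero.1 h2).resolve_right hy', (mul_eq_zero.1 h1).resolve_right hy⟩
  have hli : LinearIndependent k ![x, y] := by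
    rw [LinearIndependent.pair_iff]
    intro s t h
    exact hst s t (by rw [h, map_zero]) (by rw [h, map_zero])
  have hx' : x ∈ Submodule.span k (Set.range ![x, y]) := Submodule.subset_span ⟨0, rfl⟩
  have hyx : y ∈ Submodule.span k (Set.range ![x, y]) := Submodule.subset_span ⟨1, rfl⟩
  have hW : ∀ w ∈ Submodule.span k (Set.range ![x, y]),
      (∀ z ∈ Submodule.span k (Set.range ![x, y]), B w z = 0) → w = 0 := by
    intro w hw hz
    have h1 : w ∈ Submodule.span k {x, y} := by
      rwa [Matrix.range_cons, Matrix.range_cons, Matrix.range_empty, Set.union_empty,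
        Set.singleton_union] at hw
    obtain ⟨s, t, rfl⟩ := Submodule.mem_span_pair.1 h1
    have h2 := hst s t (by rw [hsk, hz x hx', neg_zero]) (by rw [hsk, hz y hyx, neg_zero])
    rw [h2.1, h2.2, zero_smul, zero_smul, add_zero]
  have hrefl : B.IsRefl := fun a b h => by rw [hsk, h, neg_zero]
  have hc : IsCompl (Submodule.span k (Set.range ![x, y]))
      (B.orthogonal (Submodule.span k (Set.range ![x, y]))) := by
    refine LinearMap.BilinForm.isCompl_orthogonal_of_restrict_nondegenerate hrefl ⟨?_, ?_⟩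
    · exact fun a h => Subtype.ext (hW a a.2 fun b hb => h ⟨b, hb⟩)
    · refine fun a h => Subtype.ext (hW a a.2 fun b hb => ?_)
      rw [hsk, show B b a = 0 from h ⟨b, hb⟩, neg_zero]
  have hfr := Submodule.finrank_add_eq_of_isCompl hc
  rw [finrank_span_eq_card hli, Fintype.card_fin, hd] at hfr
  set W := Submodule.span k (Set.range ![x, y]) with hWd
  have h1 := ih (finrank k (B.orthogonal W)) (by omega) (B.restrict (B.orthogonal W))
    (fun a => ha a) (by
      intro a h
      refine Subtype.ext (hn a fun z => ?_)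
      have h2 : z ∈ W ⊔ B.orthogonal W := by
        rw [codisjoint_iff.1 hc.2]
        exact Submodule.mem_top
      obtain ⟨b, hb, c, hc', rfl⟩ := Submodule.mem_sup.1 h2
      rw [map_add, show B a c = 0 from h ⟨c, hc'⟩, add_zero, hsk, show B b a = 0 from a.2 b hb,
        neg_zero]) rfl
  rw [← hfr, Nat.even_add]
  exact ⟨fun _ => h1, fun _ => even_two⟩

theorem even_of_s (hB : TwForm κ ρ B) (h : HasS κ ρ B) : Even (finrank k V) := by
  obtain ⟨ι, _, e, a, B₁, C, E, P, S, hg, hi⟩ := h
  have hsym : ∀ x y, B₁ x y = B₁ y x := by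
    have h1 : B₁ = LinearMap.flip B₁ := by
      refine e.ext fun i => e.ext fun j => ?_
      rw [LinearMap.flip_apply, hg.val, hg.val, add_comm (a j), hB.symm]
    intro x y
    conv_lhs => rw [h1]
    rw [LinearMap.flip_apply]
  obtain ⟨β, hβ⟩ : ∃ β : LinearMap.BilinForm k V, ∀ x y,
      β x y = B₁ x (C y) + B₁ (x - E x) (y - E y) :=
    ⟨B₁.compl₂ C + B₁.compl₁₂ (LinearMap.id - E) (LinearMap.id - E), fun x y => rfl⟩
  refine even_alt _ β (fun x => ?_) (fun x hx => hg.nd x fun z => ?_) rfl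
  · rw [hβ, hi.cb, zero_add]
    obtain ⟨u, hu⟩ : ∃ u, u = x - E x - P x := ⟨_, rfl⟩
    have e1 : x - E x = P x + u := by
      rw [hu]
      abel
    have e2 : B₁ u u = 0 := by
      rw [hu]
      exact hi.qb x x
    rw [e1, map_add, map_add, LinearMap.add_apply, LinearMap.add_apply, hi.pb, e2, hsym u (P x),
      zero_add, add_zero]
    exact CharTwo.add_self_eq_zero _
  · have h1 : B₁ x (E z) = 0 := by
      have h2 := hx (C z)
      rwa [hβ, hi.cc, hi.ec, sub_self, map_zero, add_zero] at h2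
    have h2 : B₁ (x - E x) (z - E z) = 0 := by
      have h3 := hx (z - E z)
      have e4 : C (z - E z) = 0 := by rw [map_sub, hi.ce, sub_self]
      have e5 : E (z - E z) = 0 := by rw [map_sub, hi.ee, sub_self]
      rwa [hβ, e4, e5, map_zero, zero_add, sub_zero] at h3
    have h3 : B₁ (E x) (z - E z) = 0 := by
      rw [hi.eb, map_sub, hi.ee, sub_self, map_zero]
    rw [LinearMap.map_sub₂, h3, sub_zero, map_sub, h1, sub_zero] at h2
    exact h2

theorem trace_of_s (h : HasS κ ρ B) (g : G) :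
    LinearMap.trace k V (ρ (κ g)) = LinearMap.trace k V (ρ g) := by
  obtain ⟨ι, _, e, a, B₁, C, E, P, S, hg, hi⟩ := h
  have key : ∀ g, LinearMap.trace k V (ρ g) = LinearMap.trace k V (ρ g ∘ₗ E) := by
    intro g
    have h1 : ρ g = ρ g ∘ₗ E + ρ g ∘ₗ P + S ∘ₗ ((ρ g ∘ₗ P) ∘ₗ S) := by
      refine LinearMap.ext fun x => ?_
      show ρ g x = ρ g (E x) + ρ g (P x) + S (ρ g (P (S x)))
      rw [hi.sr, ← map_add, ← map_add]
      congr 1
      have e1 := hi.sp (S x)
      have e2 : S (S x) = x - E x := eq_sub_of_add_eq (hi.ss x)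
      rw [e2, map_sub, hi.pe, sub_zero] at e1
      have e3 : S (P (S x)) = x - E x - P x := eq_sub_of_add_eq e1
      rw [e3]
      abel
    have h2 : LinearMap.trace k V (S ∘ₗ ((ρ g ∘ₗ P) ∘ₗ S)) = LinearMap.trace k V (ρ g ∘ₗ P) := by
      have e1 := LinearMap.trace_mul_comm k S ((ρ g ∘ₗ P) ∘ₗ S)
      have e2 : ((ρ g ∘ₗ P) ∘ₗ S) * S = ρ g ∘ₗ P := by
        refine LinearMap.ext fun x => ?_
        show ρ g (P (S (S x))) = ρ g (P x)
        have e3 : S (S x) = x - E x := eq_sub_of_add_eq (hi.ss x)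
        rw [e3, map_sub, hi.pe, sub_zero]
      rw [e2] at e1
      exact e1
    conv_lhs => rw [h1]
    rw [map_add, map_add, h2, add_assoc, CharTwo.add_self_eq_zero, add_zero]
  rw [key, key g]
  have h1 : ρ g ∘ₗ E = C * (ρ (κ g) ∘ₗ C) := by
    refine LinearMap.ext fun x => ?_
    show ρ g (E x) = C (ρ (κ g) (C x))
    rw [hi.cr, hi.cc]
  have h2 : (ρ (κ g) ∘ₗ C) * C = ρ (κ g) ∘ₗ E := by
    refine LinearMap.ext fun x => ?_
    show ρ (κ g) (C (C x)) = ρ (κ g) (E x)
    rw [hi.cc]
  rw [h1, LinearMap.trace_mul_comm, h2]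

theorem trace_split {X Y : Submodule k V} (hX : Stab ρ X) (hY : Stab ρ Y) (hc : IsCompl X Y)
    (g : G) : LinearMap.trace k V (ρ g) =
      LinearMap.trace k X (sub ρ X hX g) + LinearMap.trace k Y (sub ρ Y hY g) := by
  rw [← LinearMap.trace_prodMap', ← LinearMap.trace_conj' _ (X.prodEquivOfIsCompl Y hc)]
  congr 1
  refine LinearMap.ext fun v => ?_
  obtain ⟨⟨x, y⟩, rfl⟩ := (X.prodEquivOfIsCompl Y hc).surjective v
  rw [LinearEquiv.conj_apply_apply, LinearEquiv.symm_apply_apply]
  show ρ g ((x : V) + y) = (ρ g x : V) + ρ g y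
  rw [map_add]

end Pool.Agent.Work.MP_787500_nt.RC
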